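import Pool.Agent.Work.MP_ca14f8_co.L3.Stmts

/-!
Block L3 of MP_ca14f8_co, item LPL: Laplace expansion along a block of columns, in span form.
-/

set_option autoImplicit false
open Classical

namespace Pool.Agent.Work.MP_ca14f8_co.L3

theorem LPL_pf : S_LPL := by
  intro α β R _ _ _ _ _ _ M
  set T : Submodule ℚ R := Submodule.span ℚ {x : R | ∃ (f : α → α ⊕ β) (g : β → α ⊕ β),
    x = (Matrix.of (fun a b : α => M (f a) (Sum.inl b))).det *
      (Matrix.of (fun a b : β => M (g a) (Sum.inr b))).det} with hT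
  -- the substitution
  have h1 : ∀ (t1 : Equiv.Perm α) (t2 : Equiv.Perm β), M.det =
      ∑ s : Equiv.Perm (α ⊕ β), ((Equiv.Perm.sign s : ℤ) : R) *
        ((((Equiv.Perm.sign t1 : ℤ) : R) * ∏ a : α, M (s (Sum.inl (t1 a))) (Sum.inl a)) *
        (((Equiv.Perm.sign t2 : ℤ) : R) * ∏ b : β, M (s (Sum.inr (t2 b))) (Sum.inr b))) := by
    intro t1 t2
    rw [Matrix.det_apply',
      ← Equiv.sum_comp (Equiv.mulRight (Equiv.Perm.sumCongr t1 t2))]
    refine Finset.sum_congr rfl fun s _ => ?_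
    have h2 : Equiv.mulRight (Equiv.Perm.sumCongr t1 t2) s = s * Equiv.Perm.sumCongr t1 t2 := rfl
    rw [h2, Equiv.Perm.sign_mul, Equiv.Perm.sign_sumCongr, Fintype.prod_sum_type]
    have h3 : (∏ a : α, M ((s * Equiv.Perm.sumCongr t1 t2) (Sum.inl a)) (Sum.inl a)) =
        ∏ a : α, M (s (Sum.inl (t1 a))) (Sum.inl a) := rfl
    have h4 : (∏ b : β, M ((s * Equiv.Perm.sumCongr t1 t2) (Sum.inr b)) (Sum.inr b)) =
        ∏ b : β, M (s (Sum.inr (t2 b))) (Sum.inr b) := rfl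
    rw [h3, h4]
    push_cast
    ring
  -- averaging
  have h5 : (∑ _t1 : Equiv.Perm α, ∑ _t2 : Equiv.Perm β, M.det) =
      ∑ s : Equiv.Perm (α ⊕ β), ((Equiv.Perm.sign s : ℤ) : R) *
        ((Matrix.of (fun a b : α => M (s (Sum.inl a)) (Sum.inl b))).det *
        (Matrix.of (fun a b : β => M (s (Sum.inr a)) (Sum.inr b))).det) := by
    have h6 : (∑ _t1 : Equiv.Perm α, ∑ _t2 : Equiv.Perm β, M.det) =
        ∑ t1 : Equiv.Perm α, ∑ t2 : Equiv.Perm β,
        ∑ s : Equiv.Perm (α ⊕ β), ((Equiv.Perm.sign s : ℤ) : R) *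
        ((((Equiv.Perm.sign t1 : ℤ) : R) * ∏ a : α, M (s (Sum.inl (t1 a))) (Sum.inl a)) *
        (((Equiv.Perm.sign t2 : ℤ) : R) * ∏ b : β, M (s (Sum.inr (t2 b))) (Sum.inr b))) :=
      Finset.sum_congr rfl fun t1 _ => Finset.sum_congr rfl fun t2 _ => h1 t1 t2
    rw [h6]
    have h7 : (∑ t1 : Equiv.Perm α, ∑ t2 : Equiv.Perm β,
        ∑ s : Equiv.Perm (α ⊕ β), ((Equiv.Perm.sign s : ℤ) : R) *
        ((((Equiv.Perm.sign t1 : ℤ) : R) * ∏ a : α, M (s (Sum.inl (t1 a))) (Sum.inl a)) *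
        (((Equiv.Perm.sign t2 : ℤ) : R) * ∏ b : β, M (s (Sum.inr (t2 b))) (Sum.inr b)))) =
        ∑ s : Equiv.Perm (α ⊕ β), ∑ t1 : Equiv.Perm α, ∑ t2 : Equiv.Perm β,
        ((Equiv.Perm.sign s : ℤ) : R) *
        ((((Equiv.Perm.sign t1 : ℤ) : R) * ∏ a : α, M (s (Sum.inl (t1 a))) (Sum.inl a)) *
        (((Equiv.Perm.sign t2 : ℤ) : R) * ∏ b : β, M (s (Sum.inr (t2 b))) (Sum.inr b))) := by
      refine Eq.trans (Finset.sum_congr rfl fun t1 _ => Finset.sum_comm) ?_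
      exact Finset.sum_comm
    rw [h7]
    refine Finset.sum_congr rfl fun s _ => ?_
    rw [Matrix.det_apply', Matrix.det_apply', Finset.sum_mul_sum, Finset.mul_sum]
    refine Finset.sum_congr rfl fun t1 _ => ?_
    rw [Finset.mul_sum]
    rfl
  have h8 : (∑ _t1 : Equiv.Perm α, ∑ _t2 : Equiv.Perm β, M.det) ∈ T := by
    rw [h5]
    refine Submodule.sum_mem _ fun s _ => ?_
    have h9 : ((Matrix.of (fun a b : α => M (s (Sum.inl a)) (Sum.inl b))).det *
        (Matrix.of (fun a b : β => M (s (Sum.inr a)) (Sum.inr b))).det) ∈ T :=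
      Submodule.subset_span ⟨fun a => s (Sum.inl a), fun b => s (Sum.inr b), rfl⟩
    rcases Int.units_eq_one_or (Equiv.Perm.sign s) with h | h
    · rw [h]
      simpa using h9
    · rw [h]
      simpa using h9
  have h10 : (∑ _t1 : Equiv.Perm α, ∑ _t2 : Equiv.Perm β, M.det) =
      ((Fintype.card (Equiv.Perm α) * Fintype.card (Equiv.Perm β) : ℕ) : ℚ) • M.det := by
    rw [Finset.sum_const, Finset.sum_const, Finset.card_univ, Finset.card_univ, smul_smul,
      Nat.cast_smul_eq_nsmul]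
  rw [h10] at h8
  have h11 : ((Fintype.card (Equiv.Perm α) * Fintype.card (Equiv.Perm β) : ℕ) : ℚ) ≠ 0 := by
    have h12 : Fintype.card (Equiv.Perm α) ≠ 0 := Fintype.card_ne_zero
    have h13 : Fintype.card (Equiv.Perm β) ≠ 0 := Fintype.card_ne_zero
    exact_mod_cast Nat.mul_ne_zero h12 h13
  exact (Submodule.smul_mem_iff T h11).mp h8

end Pool.Agent.Work.MP_ca14f8_co.L3
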