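import Pool.Agent.Work.MP_ca14f8_co.L3.Stmts

set_option autoImplicit false
open Classical

namespace Pool.Agent.Work.MP_ca14f8_co.L3

namespace XCH

variable {n : ℕ}

theorem MM_empty (w : Equiv.Perm (Fin n)) : MM w ∅ = 1 := by
  rw [MM, MR, Submodule.one_eq_span]
  congr 1
  ext f
  constructor
  · rintro ⟨C, ρ, hC, _, hf⟩
    have hC0 : C = ∅ := Finset.subset_empty.mp hC
    subst hC0
    rw [Set.mem_singleton_iff, hf, mr]
    exact Matrix.det_isEmpty
  · intro hf
    rw [Set.mem_singleton_iff] at hf
    refine ⟨∅, id, Finset.Subset.refl _, ?_, ?_⟩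
    · intro q hq
      simp at hq
    · rw [hf, mr]
      exact Matrix.det_isEmpty.symm

theorem up_Fr (p : Fin n) : Up (Fr p) := by
  intro x hx y hxy
  simp only [Fr, Finset.mem_filter, Finset.mem_univ, true_and] at hx ⊢
  exact hx.trans hxy

theorem Fr_subset {p q : Fin n} (h : p ≤ q) : Fr q ⊆ Fr p := by
  intro x hx
  simp only [Fr, Finset.mem_filter, Finset.mem_univ, true_and] at hx ⊢
  exact h.trans hx

theorem Iv_base (w : Equiv.Perm (Fin n)) (e : ℕ) (zs : Fin n) (hzs : (w zs).val + 1 = e)
    (v : ℕ) (hv : v + 1 = e) : Iv w v e = {zs} := by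
  ext i
  simp only [Iv, Finset.mem_filter, Finset.mem_univ, true_and, Finset.mem_singleton]
  constructor
  · rintro ⟨h1, h2⟩
    apply w.injective
    apply Fin.ext
    omega
  · rintro rfl
    constructor <;> omega

theorem Vs_base (w : Equiv.Perm (Fin n)) (e : ℕ) (zs : Fin n) (hzs : (w zs).val + 1 = e)
    (v : ℕ) (hv : v + 1 = e) : Vs w v e = Fr zs := by
  ext x
  simp only [Vs, Fr, Finset.mem_filter, Finset.mem_univ, true_and]
  constructor
  · rintro ⟨y, h0, h1, h2⟩
    have : y = zs := by
      apply w.injective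
      apply Fin.ext
      omega
    rw [← this]
    exact h0
  · intro h
    exact ⟨zs, h, by omega, by omega⟩

theorem Iv_step (w : Equiv.Perm (Fin n)) (e v : ℕ) (i : Fin n) (hi : (w i).val = v)
    (hv : v + 1 < e) : Iv w v e = insert i (Iv w (v + 1) e) := by
  ext x
  simp only [Iv, Finset.mem_filter, Finset.mem_univ, true_and, Finset.mem_insert]
  constructor
  · rintro ⟨h1, h2⟩
    by_cases h : (w x).val = v
    · left
      apply w.injective
      apply Fin.ext
      omega
    · right
      omega
  · rintro (rfl | ⟨h1, h2⟩)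
    · omega
    · omega

theorem not_mem_Iv (w : Equiv.Perm (Fin n)) (e v : ℕ) (i : Fin n) (hi : (w i).val = v) :
    i ∉ Iv w (v + 1) e := by
  simp only [Iv, Finset.mem_filter, Finset.mem_univ, true_and]
  omega

end XCH

open XCH in
theorem CH_pf (hLX : S_LX) (hLY : S_LY) (hSIT : S_SIT) : S_CH := by
  intro n w a e z zs hS v θ hav hve hθ hfr
  obtain ⟨d, hd⟩ : ∃ d, v + 1 + d = e := ⟨e - (v + 1), by omega⟩
  clear hve
  induction d generalizing v θ with
  | zero =>
    have hv : v + 1 = e := by omega
    obtain ⟨_, _, ⟨hzs0, hzs1⟩, _, _⟩ := hSIT n w a e z zs hS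
    rw [Iv_base w e zs hS.hzs v hv, Vs_base w e zs hS.hzs v hv, Finset.prod_singleton,
      Finset.prod_singleton, hzs0, hzs1, MM_empty, mul_one]
    exact hLY n w a e z zs θ hS (by omega)
  | succ d ih =>
    have hv : v + 1 < e := by omega
    have hen : e < n := by
      have := (w z).isLt
      rw [hS.hz] at this
      exact this
    obtain ⟨i, hi⟩ : ∃ i : Fin n, (w i).val = v := ⟨w.symm ⟨v, by omega⟩, by simp⟩
    obtain ⟨_, _, _, h4, _⟩ := hSIT n w a e z zs hS
    obtain ⟨h4a, h4b, _⟩ := h4 i (by omega) (by omega)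
    have hfr' : ∀ y, v + 1 ≤ (w y).val → (w y).val < e → z < y := fun y h1 h2 =>
      hfr y (by omega) h2
    have hzi : z < i := hfr i (by omega) (by omega)
    rw [Iv_step w e v i hi hv, Finset.prod_insert (not_mem_Iv w e v i hi),
      Finset.prod_insert (not_mem_Iv w e v i hi)]
    by_cases hc : ∀ y, w i < w y → (w y).val < e → i < y
    · obtain ⟨h5, h6, _⟩ := h4b hc
      have h7 := h6 hzi
      rw [hi] at h5 h7
      have hVs : Vs w v e = Fr i := by
        ext x
        simp only [Vs, Fr, Finset.mem_filter, Finset.mem_univ, true_and]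
        constructor
        · rintro ⟨y, h0, h1, h2⟩
          by_cases hy : (w y).val = v
          · have : y = i := by
              apply w.injective
              apply Fin.ext
              omega
            rw [← this]
            exact h0
          · have : w i < w y := by
              rw [Fin.lt_def]
              omega
            exact (hc y this h2).le.trans h0
        · intro h
          exact ⟨i, h, by omega, by omega⟩
      rw [h5, h7, hVs]
      have key := ih (v + 1) (v + 1) (by omega) le_rfl hfr' (by omega)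
      have hX := hLX n w (Fr i) (Fr z) θ (v + 1) (up_Fr i) (up_Fr z) (Fr_subset hzi.le) (by omega)
      calc Submodule.span ℚ {(MvPolynomial.X (z, zs) : PR n)} * MM w (Gs w z) *
            (MM w (Qs w (Vs w (v + 1) e) (v + 1)) *
              ∏ i ∈ Iv w (v + 1) e, MM w (St w a e (some i))) * MM w (Qs w (Fr i) θ)
          = (Submodule.span ℚ {(MvPolynomial.X (z, zs) : PR n)} * MM w (Gs w z) *
              (∏ i ∈ Iv w (v + 1) e, MM w (St w a e (some i))) *
              MM w (Qs w (Vs w (v + 1) e) (v + 1))) * MM w (Qs w (Fr i) θ) := by ring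
        _ ≤ (MM w (Qs w (Fr z) (v + 1)) *
              ∏ i ∈ Iv w (v + 1) e, MM w (St w a (e + 1) (some i))) * MM w (Qs w (Fr i) θ) :=
            mul_le_mul' key le_rfl
        _ = (MM w (Qs w (Fr i) θ) * MM w (Qs w (Fr z) (v + 1))) *
              ∏ i ∈ Iv w (v + 1) e, MM w (St w a (e + 1) (some i)) := by ring
        _ ≤ (MM w (Qs w (Fr z) θ) * MM w (Qs w (Fr i) (v + 1))) *
              ∏ i ∈ Iv w (v + 1) e, MM w (St w a (e + 1) (some i)) :=
            mul_le_mul' hX le_rfl
        _ = MM w (Qs w (Fr z) θ) * (MM w (Qs w (Fr i) (v + 1)) *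
              ∏ i ∈ Iv w (v + 1) e, MM w (St w a (e + 1) (some i))) := by ring
    · rw [h4a hc]
      push Not at hc
      obtain ⟨y, hy1, hy2, hy3⟩ := hc
      have hy1' : v + 1 ≤ (w y).val := by
        have := Fin.lt_def.mp hy1
        omega
      have hVs : Vs w v e = Vs w (v + 1) e := by
        ext x
        simp only [Vs, Finset.mem_filter, Finset.mem_univ, true_and]
        constructor
        · rintro ⟨y', h0, h1, h2⟩
          by_cases hy' : (w y').val = v
          · have : y' = i := by
              apply w.injective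
              apply Fin.ext
              omega
            refine ⟨y, ?_, hy1', hy2⟩
            rw [this] at h0
            exact hy3.trans h0
          · exact ⟨y', h0, by omega, h2⟩
        · rintro ⟨y', h0, h1, h2⟩
          exact ⟨y', h0, by omega, h2⟩
      rw [hVs]
      have key := ih (v + 1) θ (by omega) (by omega) hfr' (by omega)
      calc Submodule.span ℚ {(MvPolynomial.X (z, zs) : PR n)} * MM w (Gs w z) *
            (MM w (St w a e (some i)) *
              ∏ i ∈ Iv w (v + 1) e, MM w (St w a e (some i))) * MM w (Qs w (Vs w (v + 1) e) θ)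
          = MM w (St w a e (some i)) *
              (Submodule.span ℚ {(MvPolynomial.X (z, zs) : PR n)} * MM w (Gs w z) *
              (∏ i ∈ Iv w (v + 1) e, MM w (St w a e (some i))) *
              MM w (Qs w (Vs w (v + 1) e) θ)) := by ring
        _ ≤ MM w (St w a e (some i)) * (MM w (Qs w (Fr z) θ) *
              ∏ i ∈ Iv w (v + 1) e, MM w (St w a (e + 1) (some i))) :=
            mul_le_mul' le_rfl key
        _ = MM w (Qs w (Fr z) θ) * (MM w (St w a e (some i)) *
              ∏ i ∈ Iv w (v + 1) e, MM w (St w a (e + 1) (some i))) := by ring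

end Pool.Agent.Work.MP_ca14f8_co.L3
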