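import Pool.Agent.Work.MP_ca14f8_co.L3.Stmts

/-!
Item CNS: `cns a w` has first value `a` and then the raised values of `w`.
-/

set_option autoImplicit false
open Classical

namespace Pool.Agent.Work.MP_ca14f8_co.L3

namespace XCNS

theorem cns_zero {n : ℕ} (a : Fin (n + 1)) (w : Equiv.Perm (Fin n)) : cns a w 0 = a := by
  show (finSuccEquiv' a).symm ((Equiv.optionCongr w) (finSuccEquiv' 0 0)) = a
  rw [finSuccEquiv'_at]
  exact finSuccEquiv'_symm_none a

theorem cns_succ {n : ℕ} (a : Fin (n + 1)) (w : Equiv.Perm (Fin n)) (x : Fin n) :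
    cns a w x.succ = a.succAbove (w x) := by
  show (finSuccEquiv' a).symm ((Equiv.optionCongr w) (finSuccEquiv' 0 x.succ)) = _
  have h : finSuccEquiv' 0 x.succ = some x := finSuccEquiv'_above (Fin.zero_le _)
  rw [h]
  exact finSuccEquiv'_symm_some a (w x)

theorem exists_cns {n : ℕ} (v : Equiv.Perm (Fin (n + 1))) :
    ∃ w : Equiv.Perm (Fin n), v = cns (v 0) w := by
  let e : Option (Fin n) ≃ Option (Fin n) :=
    (finSuccEquiv' (0 : Fin (n + 1))).symm.trans (v.trans (finSuccEquiv' (v 0)))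
  have hval : ∀ x : Fin n, e (some x) = finSuccEquiv' (v 0) (v x.succ) := by
    intro x
    show finSuccEquiv' (v 0) (v ((finSuccEquiv' (0 : Fin (n + 1))).symm (some x))) = _
    rw [finSuccEquiv'_symm_some, Fin.succAbove_zero]
  have hne : ∀ x : Fin n, ∃ y : Fin n, e (some x) = some y := by
    intro x
    rw [hval]
    rcases h : finSuccEquiv' (v 0) (v x.succ) with _ | y
    · rw [finSuccEquiv'_eq_none] at h
      exact absurd (v.injective h) (Fin.succ_ne_zero x).symm
    · exact ⟨y, rfl⟩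
  refine ⟨Equiv.removeNone e, Equiv.ext fun y => ?_⟩
  refine Fin.cases ?_ (fun x => ?_) y
  · rw [cns_zero]
  · rw [cns_succ]
    have h1 : some (Equiv.removeNone e x) = e (some x) := Equiv.removeNone_some e (hne x)
    rw [hval] at h1
    exact finSuccEquiv'_eq_some.1 h1.symm

end XCNS

theorem CNS_pf : S_CNS := fun _ =>
  ⟨fun a w => ⟨XCNS.cns_zero a w, XCNS.cns_succ a w⟩, XCNS.exists_cns⟩

end Pool.Agent.Work.MP_ca14f8_co.L3
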