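import Pool.Agent.Work.MP_ca14f8_co.L3.Stmts

/-!
Block L3 of MP_ca14f8_co, item D1: degeneration of one minor of the blow-up.
-/

set_option autoImplicit false
open Classical

namespace Pool.Agent.Work.MP_ca14f8_co.L3

namespace XD1

open Polynomial

variable {n k : ℕ}

/-- The index set of the minor. -/
abbrev Ga (C : Fin k → Finset (Fin n)) : Type := {p : Fin n × Fin k // p.1 ∈ C p.2}

/-- The shift of the block. -/
noncomputable def tau (c : ℤ) (t : Fin k) : Fin k :=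
  if h : 0 ≤ (t.val : ℤ) - c ∧ (t.val : ℤ) - c < k then ⟨((t.val : ℤ) - c).toNat, by omega⟩ else t

lemma tau_val {c : ℤ} {t : Fin k} (h : 0 ≤ (t.val : ℤ) - c ∧ (t.val : ℤ) - c < k) :
    ((tau c t).val : ℤ) = (t.val : ℤ) - c := by
  unfold tau
  rw [dif_pos h]
  simp only
  omega

lemma prod_zpow (ι : Type) [Fintype ι] (t : ℚ) (ht : t ≠ 0) (f : ι → ℤ) :
    ∏ i, t ^ (f i) = t ^ (∑ i, f i) := by
  have : ∀ s : Finset ι, ∏ i ∈ s, t ^ (f i) = t ^ (∑ i ∈ s, f i) := by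
    intro s
    induction s using Finset.induction_on with
    | empty => simp
    | insert a s ha ih => rw [Finset.prod_insert ha, Finset.sum_insert ha, ih, zpow_add₀ ht]
  exact this Finset.univ

/-- The polynomial matrix. -/
noncomputable def PMx (w : Equiv.Perm (Fin n)) (c : ℤ) (C : Fin k → Finset (Fin n))
    (ρ : Fin k → Fin n → Fin n) (z : Fin k × Fin k → Fin n × Fin n → ℚ) :
    Matrix (Ga C) (Ga C) ℚ[X] :=
  Matrix.of (fun a b => X ^ ((((a.1.2.val : ℤ) - (b.1.2.val : ℤ)) ^ 2).toNat) *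
    Polynomial.C (MvPolynomial.eval (z (tau c a.1.2, b.1.2)) (YY w (ρ a.1.2 a.1.1) b.1.1)))

lemma evdet (w : Equiv.Perm (Fin n)) (c : ℤ) (C : Fin k → Finset (Fin n))
    (ρ : Fin k → Fin n → Fin n) (z : Fin k × Fin k → Fin n × Fin n → ℚ) (x : ℚ) :
    (PMx w c C ρ z).det.eval x = (Matrix.of (fun (a b : Ga C) =>
      x ^ ((((a.1.2.val : ℤ) - (b.1.2.val : ℤ)) ^ 2).toNat) *
      MvPolynomial.eval (z (tau c a.1.2, b.1.2)) (YY w (ρ a.1.2 a.1.1) b.1.1))).det := by
  rw [← Polynomial.coe_evalRingHom, RingHom.map_det]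
  congr 1
  ext a b
  simp only [RingHom.mapMatrix_apply, Matrix.map_apply, PMx, Matrix.of_apply,
    Polynomial.coe_evalRingHom, Polynomial.eval_mul, Polynomial.eval_pow,
    Polynomial.eval_X, Polynomial.eval_C]

lemma zero_det (w : Equiv.Perm (Fin n)) (c : ℤ) (C : Fin k → Finset (Fin n))
    (ρ : Fin k → Fin n → Fin n) (z : Fin k × Fin k → Fin n × Fin n → ℚ)
    (hc : ∀ t : Fin k, (C t).Nonempty → 0 ≤ (t.val : ℤ) - c ∧ (t.val : ℤ) - c < k) :
    (Matrix.of (fun (a b : Ga C) =>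
      (0 : ℚ) ^ ((((a.1.2.val : ℤ) - (b.1.2.val : ℤ)) ^ 2).toNat) *
      MvPolynomial.eval (z (tau c a.1.2, b.1.2)) (YY w (ρ a.1.2 a.1.1) b.1.1))).det =
    ∏ t : Fin k, if h : 0 ≤ (t.val : ℤ) - c ∧ (t.val : ℤ) - c < k then
        MvPolynomial.eval (z (⟨((t.val : ℤ) - c).toNat, by omega⟩, t)) (mr (YY w) (C t) (ρ t))
        else 1 := by
  obtain ⟨A, hA⟩ : ∃ A : Matrix (Ga C) (Ga C) ℚ,
      A = Matrix.of (fun (a b : Ga C) =>
      (0 : ℚ) ^ ((((a.1.2.val : ℤ) - (b.1.2.val : ℤ)) ^ 2).toNat) *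
      MvPolynomial.eval (z (tau c a.1.2, b.1.2)) (YY w (ρ a.1.2 a.1.1) b.1.1)) := ⟨_, rfl⟩
  rw [← hA]
  have e4 : ∀ a b : Ga C, a.1.2 ≠ b.1.2 → A a b = 0 := by
    intro a b hab
    have h1 : 0 < ((((a.1.2.val : ℤ) - (b.1.2.val : ℤ)) ^ 2).toNat) := by
      have : ((a.1.2.val : ℤ) - (b.1.2.val : ℤ)) ≠ 0 := by
        intro h
        apply hab
        apply Fin.ext
        omega
      have h2 : 0 < ((a.1.2.val : ℤ) - (b.1.2.val : ℤ)) ^ 2 := by positivity
      omega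
    rw [hA, Matrix.of_apply, zero_pow (by omega), zero_mul]
  have e5 : ∀ a b : Ga C, a.1.2 = b.1.2 → A a b =
      MvPolynomial.eval (z (tau c a.1.2, b.1.2)) (YY w (ρ a.1.2 a.1.1) b.1.1) := by
    intro a b hab
    have h1 : ((((a.1.2.val : ℤ) - (b.1.2.val : ℤ)) ^ 2).toNat) = 0 := by
      rw [hab]; simp
    rw [hA, Matrix.of_apply, h1, pow_zero, one_mul]
  have hBT : A.BlockTriangular (fun a : Ga C => a.1.2) := by
    intro a b hab
    exact e4 a b (ne_of_gt hab)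
  rw [hBT.det_fintype]
  refine Finset.prod_congr rfl fun β _ => ?_
  by_cases h : 0 ≤ (β.val : ℤ) - c ∧ (β.val : ℤ) - c < k
  · rw [dif_pos h]
    unfold mr
    let e : (C β) ≃ {x : Ga C // x.1.2 = β} :=
      { toFun := fun a => ⟨⟨(a.1, β), a.2⟩, rfl⟩
        invFun := fun x => ⟨x.1.1.1, by
          have h1 := x.1.2
          rw [x.2] at h1
          exact h1⟩
        left_inv := fun a => rfl
        right_inv := fun x => by
          apply Subtype.ext
          apply Subtype.ext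
          exact Prod.ext rfl x.2.symm }
    rw [← Matrix.det_submatrix_equiv_self e, RingHom.map_det]
    congr 1
    ext a b
    have ht : tau c β = ⟨((β.val : ℤ) - c).toNat, by omega⟩ := by
      unfold tau
      rw [dif_pos h]
    rw [Matrix.submatrix_apply, Matrix.toSquareBlock_def, Matrix.of_apply,
      RingHom.mapMatrix_apply, Matrix.map_apply, Matrix.of_apply, ← ht]
    exact e5 (e a).1 (e b).1 rfl
  · rw [dif_neg h]
    have hE : IsEmpty {x : Ga C // x.1.2 = β} := by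
      constructor
      intro x
      have h1 := x.1.2
      rw [x.2] at h1
      exact h (hc β ⟨_, h1⟩)
    exact Matrix.det_isEmpty

end XD1

open XD1 in
theorem D1_pf (h1 : S_DW) (h2 : S_MRM) : S_D1 := by
  intro n k w S c C ρ hC hc
  have hr : ∀ a : Ga C, finProdFinEquiv (ρ a.1.2 a.1.1, tau c a.1.2) ∈ bs k S := by
    intro a
    unfold bs
    rw [Finset.mem_filter, Equiv.symm_apply_apply]
    exact ⟨Finset.mem_univ _, (hC a.1.2).2 _ a.2⟩
  have hcl : ∀ a : Ga C, finProdFinEquiv a.1 ∈ bs k S := by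
    intro a
    unfold bs
    rw [Finset.mem_filter, Equiv.symm_apply_apply]
    exact ⟨Finset.mem_univ _, (hC a.1.2).1 a.2⟩
  refine ⟨(Matrix.of (fun a b : Ga C => YY (Bl k w)
    (finProdFinEquiv (ρ a.1.2 a.1.1, tau c a.1.2)) (finProdFinEquiv b.1))).det,
    h2 (Fin (n * k)) (PR (n * k)) (Ga C) (YY (Bl k w)) (bs k S) (bs k S) _ _ hr hcl,
    (c ^ 2).toNat * Fintype.card (Ga C), ?_⟩
  intro z
  refine ⟨(PMx w c C ρ z).det, ?_, ?_⟩
  · intro x hx
    rw [evdet, RingHom.map_det]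
    have key : (MvPolynomial.eval (Zb x z)).mapMatrix (Matrix.of (fun a b : Ga C => YY (Bl k w)
        (finProdFinEquiv (ρ a.1.2 a.1.1, tau c a.1.2)) (finProdFinEquiv b.1))) =
        Matrix.of (fun a b : Ga C => x ^ (c ^ 2 - 2 * c * (a.1.2.val : ℤ)) *
          (Matrix.of (fun a b : Ga C => x ^ (2 * c * (b.1.2.val : ℤ)) *
            (Matrix.of (fun (a b : Ga C) =>
              x ^ ((((a.1.2.val : ℤ) - (b.1.2.val : ℤ)) ^ 2).toNat) *
              MvPolynomial.eval (z (tau c a.1.2, b.1.2)) (YY w (ρ a.1.2 a.1.1) b.1.1))) a b)) a b) := by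
      ext a b
      rw [RingHom.mapMatrix_apply, Matrix.map_apply, Matrix.of_apply, Matrix.of_apply,
        Matrix.of_apply, Matrix.of_apply]
      have h3 := (h1 n k w).2 x z (ρ a.1.2 a.1.1) b.1.1 (tau c a.1.2) b.1.2
      rw [show (b.1.1, b.1.2) = b.1 from rfl] at h3
      rw [h3, ← mul_assoc, ← mul_assoc]
      congr 1
      rw [← zpow_natCast x (((((tau c a.1.2).val : ℤ) - (b.1.2.val : ℤ)) ^ 2).toNat),
        ← zpow_natCast x ((((a.1.2.val : ℤ) - (b.1.2.val : ℤ)) ^ 2).toNat),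
        Int.toNat_of_nonneg (sq_nonneg _), Int.toNat_of_nonneg (sq_nonneg _),
        tau_val (hc a.1.2 ⟨_, a.2⟩), ← zpow_add₀ hx, ← zpow_add₀ hx]
      congr 1
      ring
    rw [key, Matrix.det_mul_column, Matrix.det_mul_row, ← mul_assoc]
    congr 1
    rw [prod_zpow _ x hx, prod_zpow _ x hx, ← zpow_add₀ hx, ← Finset.sum_add_distrib]
    have h4 : ∑ i : Ga C, (c ^ 2 - 2 * c * (i.1.2.val : ℤ) + 2 * c * (i.1.2.val : ℤ)) =
        (((c ^ 2).toNat * Fintype.card (Ga C) : ℕ) : ℤ) := by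
      rw [Finset.sum_congr rfl (fun i _ => sub_add_cancel _ _), Finset.sum_const,
        Finset.card_univ, nsmul_eq_mul, Nat.cast_mul, Int.toNat_of_nonneg (sq_nonneg _), mul_comm]
    rw [h4, zpow_natCast]
  · rw [evdet, zero_det w c C ρ z hc]

end Pool.Agent.Work.MP_ca14f8_co.L3
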