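import Pool.Agent.Work.MP_ca14f8_co.L3.Stmts
import Pool.Agent.Work.MP_ca14f8_co.Bd.B01
import Pool.Agent.Work.MP_ca14f8_co.Bd.B02
import Pool.Agent.Work.MP_ca14f8_co.Bd.B03

/-!
Block L3 of MP_ca14f8_co, item D2: the independent family in `LLs (Bl k w)`.
-/

set_option autoImplicit false
open Classical

namespace Pool.Agent.Work.MP_ca14f8_co.L3

namespace XD2

open QE QE.XC0

theorem prod_mem {α A : Type} [CommRing A] [Algebra ℚ A] (s : Finset α)
    (M : α → Submodule ℚ A) (f : α → A) (hf : ∀ i ∈ s, f i ∈ M i) :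
    ∏ i ∈ s, f i ∈ ∏ i ∈ s, M i := by
  induction s using Finset.induction_on with
  | empty =>
      rw [Finset.prod_empty, Finset.prod_empty]
      exact Submodule.one_le.1 le_rfl
  | insert a s ha ih =>
      rw [Finset.prod_insert ha, Finset.prod_insert ha]
      exact Submodule.mul_mem_mul (hf a (Finset.mem_insert_self a s))
        (ih fun i hi => hf i (Finset.mem_insert_of_mem hi))

theorem MM_mono {n : ℕ} (w : Equiv.Perm (Fin n)) {S T : Finset (Fin n)} (h : S ⊆ T) :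
    MM w S ≤ MM w T := by
  unfold MM MR
  apply Submodule.span_mono
  rintro f ⟨C, ρ, hC, hρ, rfl⟩
  exact ⟨C, ρ, hC.trans h, fun q hq => h (hρ q hq), rfl⟩

/-- `LLs w` is spanned by the products of minors. -/
theorem LLs_span {n : ℕ} (w : Equiv.Perm (Fin n)) :
    LLs w = Submodule.span ℚ {f : PR n | ∃ (C : Fin n → Finset (Fin n))
      (ρ : Fin n → Fin n → Fin n), (∀ i, C i ⊆ Gs w i ∧ ∀ q ∈ C i, ρ i q ∈ Gs w i) ∧
      f = ∏ i, mr (YY w) (C i) (ρ i)} := by
  unfold LLs MM MR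
  rw [Submodule.prod_span]
  congr 1
  ext f
  rw [Set.mem_finsetProd]
  constructor
  · rintro ⟨g, hg, rfl⟩
    have hg' : ∀ i, ∃ (C : Finset (Fin n)) (ρ : Fin n → Fin n), C ⊆ Gs w i ∧
        (∀ q ∈ C, ρ q ∈ Gs w i) ∧ g i = mr (YY w) C ρ := fun i => hg (Finset.mem_univ i)
    choose C ρ h1 h2 h3 using hg'
    exact ⟨C, ρ, fun i => ⟨h1 i, h2 i⟩, Finset.prod_congr rfl fun i _ => h3 i⟩
  · rintro ⟨C, ρ, h, rfl⟩
    exact ⟨fun i => mr (YY w) (C i) (ρ i), fun {i} _ => ⟨C i, ρ i, (h i).1, (h i).2, rfl⟩, rfl⟩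

/-- evaluation as a linear map to functions. -/
noncomputable def ev (n : ℕ) : PR n →ₗ[ℚ] ((Fin n × Fin n → ℚ) → ℚ) where
  toFun := fun f z => MvPolynomial.eval z f
  map_add' := by
    intro f g
    funext z
    simp
  map_smul' := by
    intro c f
    funext z
    simp

theorem ev_inj (n : ℕ) : LinearMap.ker (ev n) = ⊥ := by
  rw [LinearMap.ker_eq_bot]
  intro f g h
  apply MvPolynomial.funext
  intro z
  exact congrFun h z

/-- the blocks of `z`. -/
def zb {n k : ℕ} {K : Type} [Fintype K] (σ : K → ℤ) (z : Fin k × Fin k → Fin n × Fin n → ℚ)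
    (g : Gam k σ) : Fin n × Fin n → ℚ := z (rb σ g, g.1.2)

theorem zb_surj {n k : ℕ} {K : Type} [Fintype K] (σ : K → ℤ) (hσ : Function.Injective σ) :
    Function.Surjective (fun z : Fin k × Fin k → Fin n × Fin n → ℚ => zb (n := n) σ z) := by
  intro y
  refine ⟨fun p => if h : ∃ g : Gam k σ, g.1.2 = p.2 ∧ rb σ g = p.1 then
    y (Classical.choose h) else 0, ?_⟩
  funext g
  show (if h : ∃ g' : Gam k σ, g'.1.2 = g.1.2 ∧ rb σ g' = rb σ g then
    y (Classical.choose h) else 0) = y g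
  have h : ∃ g' : Gam k σ, g'.1.2 = g.1.2 ∧ rb σ g' = rb σ g := ⟨g, rfl, rfl⟩
  rw [dif_pos h]
  have hs := Classical.choose_spec h
  have heq : Classical.choose h = g := by
    apply Subtype.ext
    apply Prod.ext
    · apply hσ
      have hg := rb_cast σ (Classical.choose h)
      have hg' := rb_cast σ g
      rw [hs.2, hs.1, hg'] at hg
      linarith
    · exact hs.1
  rw [heq]

end XD2

open QE QE.XC0 XD2 in
theorem D2_pf (h1 : S_D1) (h2 : S_DW) (h3 : S_FD) : S_D2 := by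
  intro n k w σ hσ
  have hex : ∃ l : Fin (Module.finrank ℚ (LLs w)) → PR n,
      (∀ i, l i ∈ {f : PR n | ∃ (C : Fin n → Finset (Fin n))
      (ρ : Fin n → Fin n → Fin n), (∀ i, C i ⊆ Gs w i ∧ ∀ q ∈ C i, ρ i q ∈ Gs w i) ∧
      f = ∏ i, mr (YY w) (C i) (ρ i)}) ∧ LinearIndependent ℚ l := by
    rw [LLs_span w]
    exact exists_gen _
  obtain ⟨N, hN⟩ : ∃ N : ℕ, N = Module.finrank ℚ (LLs w) := ⟨_, rfl⟩
  rw [← hN] at hex ⊢
  obtain ⟨l, hl, hli⟩ := hex
  choose C ρ hadm hlf using hl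
  -- the choices
  let Cs : (Gam k σ → Fin N) → Fin n → Fin k → Fin k → Finset (Fin n) := fun s i γ β =>
    if h : (γ, β) ∈ Gam k σ then C (s ⟨(γ, β), h⟩) i else ∅
  let ρs : (Gam k σ → Fin N) → Fin n → Fin k → Fin k → Fin n → Fin n := fun s i γ β =>
    if h : (γ, β) ∈ Gam k σ then ρ (s ⟨(γ, β), h⟩) i else id
  have hC1 : ∀ s i γ β, Cs s i γ β ⊆ Gs w i ∧ ∀ q ∈ Cs s i γ β, ρs s i γ β q ∈ Gs w i := by
    intro s i γ β
    by_cases h : (γ, β) ∈ Gam k σ
    · have e1 : Cs s i γ β = C (s ⟨(γ, β), h⟩) i := dif_pos h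
      have e2 : ρs s i γ β = ρ (s ⟨(γ, β), h⟩) i := dif_pos h
      rw [e1, e2]
      exact hadm _ i
    · have e1 : Cs s i γ β = ∅ := dif_neg h
      rw [e1]
      exact ⟨Finset.empty_subset _, fun a ha => absurd ha (Finset.notMem_empty a)⟩
  have hC2 : ∀ s i γ β, (Cs s i γ β).Nonempty →
      0 ≤ (β.val : ℤ) - σ γ ∧ (β.val : ℤ) - σ γ < k := by
    intro s i γ β hne
    by_cases h : (γ, β) ∈ Gam k σ
    · exact (mem_Gam σ (γ, β)).1 h
    · have e1 : Cs s i γ β = ∅ := dif_neg h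
      rw [e1] at hne
      exact absurd hne Finset.not_nonempty_empty
  have hS := fun s i γ => h1 n k w (Gs w i) (σ γ) (Cs s i γ) (ρs s i γ) (hC1 s i γ) (hC2 s i γ)
  choose F hF E hE using hS
  choose Q hQ1 hQ2 using hE
  let G : (Gam k σ → Fin N) → PR (n * k) := fun s => ∏ i, ∏ γ, F s i γ
  have hG : ∀ s, G s ∈ LLs (Bl k w) := by
    intro s
    have e1 : G s = ∏ p : Fin n × Fin k, F s p.1 p.2 := by
      rw [Fintype.prod_prod_type]
    have e2 : LLs (Bl k w) = ∏ p : Fin n × Fin k,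
        MM (Bl k w) (Gs (Bl k w) (finProdFinEquiv p)) := by
      unfold LLs
      exact (Equiv.prod_comp finProdFinEquiv
        (fun p => MM (Bl k w) (Gs (Bl k w) p))).symm
    rw [e1, e2]
    apply XD2.prod_mem
    intro p _
    exact MM_mono _ ((h2 n k w).1 p.1 p.2) (hF s p.1 p.2)
  let P : (Gam k σ → Fin N) → (Fin k × Fin k → Fin n × Fin n → ℚ) → Polynomial ℚ := fun s z =>
    ∏ i, ∏ γ, Q s i γ z
  -- value at zero
  have hP0 : ∀ s z, (P s z).eval 0 =
      ∏ g : Gam k σ, MvPolynomial.eval (zb σ z g) (l (s g)) := by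
    intro s z
    have e1 : (P s z).eval 0 = ∏ i, ∏ γ, (Q s i γ z).eval 0 := by
      show (∏ i, ∏ γ, Q s i γ z : Polynomial ℚ).eval 0 = _
      rw [Polynomial.eval_prod]
      refine Finset.prod_congr rfl fun γ _ => ?_
      rw [Polynomial.eval_prod]
    rw [e1, Finset.prod_comm]
    have e2 : ∀ γ, ∏ i, (Q s i γ z).eval 0 = ∏ β : Fin k,
        (if h : (γ, β) ∈ Gam k σ then
          MvPolynomial.eval (zb σ z ⟨(γ, β), h⟩) (l (s ⟨(γ, β), h⟩)) else 1) := by
      intro γ
      have e3 := fun i (_ : i ∈ (Finset.univ : Finset (Fin n))) => hQ2 s i γ z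
      rw [Finset.prod_congr rfl e3, Finset.prod_comm]
      refine Finset.prod_congr rfl fun β _ => ?_
      by_cases h : (γ, β) ∈ Gam k σ
      · have h' := (mem_Gam σ (γ, β)).1 h
        rw [dif_pos h, hlf (s ⟨(γ, β), h⟩), map_prod]
        refine Finset.prod_congr rfl fun i _ => ?_
        rw [dif_pos h']
        have e4 : Cs s i γ β = C (s ⟨(γ, β), h⟩) i := dif_pos h
        have e5 : ρs s i γ β = ρ (s ⟨(γ, β), h⟩) i := dif_pos h
        rw [e4, e5]
        rfl
      · have h' : ¬ (0 ≤ (β.val : ℤ) - σ γ ∧ (β.val : ℤ) - σ γ < k) :=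
          fun hh => h ((mem_Gam σ (γ, β)).2 hh)
        rw [dif_neg h]
        refine Finset.prod_eq_one fun j _ => ?_
        rw [dif_neg h']
    have e6 : ∏ γ, ∏ i, (Q s i γ z).eval 0 = ∏ p : Fin k × Fin k,
        (if h : p ∈ Gam k σ then MvPolynomial.eval (zb σ z ⟨p, h⟩) (l (s ⟨p, h⟩)) else 1) := by
      rw [Fintype.prod_prod_type]
      exact Finset.prod_congr rfl fun γ _ => e2 γ
    rw [e6]
    have e7 : ∏ p : Fin k × Fin k,
        (if h : p ∈ Gam k σ then MvPolynomial.eval (zb σ z ⟨p, h⟩) (l (s ⟨p, h⟩)) else 1) =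
        ∏ p ∈ Gam k σ,
          (if h : p ∈ Gam k σ then MvPolynomial.eval (zb σ z ⟨p, h⟩) (l (s ⟨p, h⟩)) else 1) := by
      symm
      apply Finset.prod_subset (Finset.subset_univ _)
      intro p _ hp
      exact dif_neg hp
    rw [e7, ← Finset.prod_coe_sort (Gam k σ)
      (fun p => if h : p ∈ Gam k σ then
        MvPolynomial.eval (zb σ z ⟨p, h⟩) (l (s ⟨p, h⟩)) else 1)]
    refine Finset.prod_congr rfl fun g _ => ?_
    rw [dif_pos g.2]
  have hli1 : LinearIndependent ℚ (fun j => fun z : Fin n × Fin n → ℚ =>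
      MvPolynomial.eval z (l j)) := hli.map' (ev n) (ev_inj n)
  have hli0 : LinearIndependent ℚ (fun s => fun z : Fin k × Fin k → Fin n × Fin n → ℚ =>
      (P s z).eval 0) := by
    have e1 : (fun s => fun z : Fin k × Fin k → Fin n × Fin n → ℚ => (P s z).eval 0) =
        (fun s : Gam k σ → Fin N => fun z : Fin k × Fin k → Fin n × Fin n → ℚ =>
          ∏ g : Gam k σ, MvPolynomial.eval (zb σ z g) (l (s g))) := by
      funext s z
      exact hP0 s z
    rw [e1]
    exact pull (fun z : Fin k × Fin k → Fin n × Fin n → ℚ => zb (n := n) σ z) (zb_surj σ hσ)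
      (fun s : Gam k σ → Fin N => fun z : Gam k σ → (Fin n × Fin n → ℚ) =>
        ∏ g, MvPolynomial.eval (z g) (l (s g)))
      (I_Tens (Gam k σ) (Fin n × Fin n → ℚ) N (fun j z => MvPolynomial.eval z (l j)) hli1)
  obtain ⟨t, ht, hlt⟩ := I_Semi (Gam k σ → Fin N) (Fin k × Fin k → Fin n × Fin n → ℚ) P hli0
  -- the values
  have hev : ∀ s z, MvPolynomial.eval (Zb t z) (G s) =
      (∏ i, ∏ γ, t ^ (E s i γ)) * (P s z).eval t := by
    intro s z
    show MvPolynomial.eval (Zb t z) (∏ i, ∏ γ, F s i γ) = _ * (∏ i, ∏ γ, Q s i γ z : Polynomial ℚ).eval t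
    rw [map_prod, Polynomial.eval_prod, ← Finset.prod_mul_distrib]
    refine Finset.prod_congr rfl fun i _ => ?_
    rw [map_prod, Polynomial.eval_prod, ← Finset.prod_mul_distrib]
    refine Finset.prod_congr rfl fun γ _ => ?_
    exact hQ1 s i γ z t ht
  let T : (Gam k σ → Fin N) → ℚ := fun s => ∏ i, ∏ γ, t ^ (E s i γ)
  have hT : ∀ s, T s ≠ 0 := fun s => Finset.prod_ne_zero_iff.2 fun i _ =>
    Finset.prod_ne_zero_iff.2 fun γ _ => pow_ne_zero _ ht
  have hGli : LinearIndependent ℚ G := by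
    rw [Fintype.linearIndependent_iff] at hlt ⊢
    intro c hc s0
    have hfin := hlt (fun s => c s * T s) (by
      funext z
      have e1 := congrArg (MvPolynomial.eval (Zb t z)) hc
      rw [map_sum, map_zero] at e1
      simp only [Finset.sum_apply, Pi.smul_apply, smul_eq_mul, Pi.zero_apply]
      rw [← e1]
      refine Finset.sum_congr rfl fun s _ => ?_
      rw [MvPolynomial.smul_eval, hev s z]
      ring) s0
    rcases mul_eq_zero.1 hfin with h | h
    · exact h
    · exact absurd h (hT s0)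
  have := (h3 (n * k) (Bl k w) 0 0).2
  have hGli' : LinearIndependent ℚ (fun s => (⟨G s, hG s⟩ : LLs (Bl k w))) := by
    apply LinearIndependent.of_comp (Submodule.subtype _)
    exact hGli
  have hfinal := hGli'.fintype_card_le_finrank
  rw [Fintype.card_fun, Fintype.card_fin, Fintype.card_coe] at hfinal
  exact hfinal

end Pool.Agent.Work.MP_ca14f8_co.L3
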