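import Pool.Agent.Work.MP_ca14f8_co.L3.Stmts

/-! Item DW of the block L3. -/

set_option autoImplicit false
open Classical

namespace Pool.Agent.Work.MP_ca14f8_co.L3

theorem XDW.mem_bs {n k : ℕ} (S : Finset (Fin n)) (x : Fin n) (t : Fin k) :
    (finProdFinEquiv (x, t) : Fin (n * k)) ∈ bs k S ↔ x ∈ S := by
  unfold bs
  rw [Finset.mem_filter]
  simp

theorem XDW.mem_Gs {n : ℕ} (w : Equiv.Perm (Fin n)) (i x : Fin n) :
    x ∈ Gs w i ↔ i < x ∧ w i < w x := by
  unfold Gs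
  rw [Finset.mem_filter]
  simp

theorem XDW.cond {n k : ℕ} (w : Equiv.Perm (Fin n)) (j q : Fin n) (s t : Fin k) :
    ((finProdFinEquiv (j, s) : Fin (n * k)) < finProdFinEquiv (q, t) ∧
      Bl k w (finProdFinEquiv (q, t)) < Bl k w (finProdFinEquiv (j, s))) ↔
      (j < q ∧ w q < w j) := by
  rw [Bl_apply, Bl_apply, lt_iff, lt_iff]
  constructor
  · rintro ⟨h1, h2⟩
    rcases h1 with h1 | ⟨h1, h1'⟩
    · rcases h2 with h2 | ⟨h2, _⟩
      · exact ⟨h1, h2⟩
      · exact absurd (w.injective h2) h1.ne'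
    · subst h1
      rcases h2 with h2 | ⟨_, h2⟩
      · exact absurd h2 (lt_irrefl _)
      · exact absurd h2 (not_lt.mpr h1'.le)
  · rintro ⟨h1, h2⟩
    exact ⟨Or.inl h1, Or.inl h2⟩

theorem DW_pf : S_DW := by
  intro n k w
  constructor
  · intro i r p hp
    obtain ⟨⟨x, t⟩, rfl⟩ := finProdFinEquiv.surjective p
    rw [XDW.mem_bs, XDW.mem_Gs] at hp
    rw [XDW.mem_Gs, Bl_apply, Bl_apply, lt_iff, lt_iff]
    exact ⟨Or.inl hp.1, Or.inl hp.2⟩
  · intro x z j q s t
    unfold YY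
    rw [Matrix.of_apply, Matrix.of_apply]
    by_cases h : j < q ∧ w q < w j
    · rw [if_pos ((XDW.cond w j q s t).mpr h), if_pos h, MvPolynomial.eval_X, MvPolynomial.eval_X]
      unfold Zb
      simp only [Equiv.symm_apply_apply]
    · rw [if_neg (fun h' => h ((XDW.cond w j q s t).mp h')), if_neg h]
      simp

end Pool.Agent.Work.MP_ca14f8_co.L3
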