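import Pool.Agent.Work.MP_ca14f8_co.L3.Stmts

/-! Item E2: the sites of `(w, a, e + 1)` are those of `(s w, a, e)`. -/

set_option autoImplicit false
open Classical

namespace Pool.Agent.Work.MP_ca14f8_co.L3

namespace XE2

variable {n : ℕ} {w v : Equiv.Perm (Fin n)} {a e : ℕ} {z zs : Fin n}

theorem vz (hv : v = Equiv.swap (w zs) (w z) * w) : v z = w zs := by
  rw [hv, Equiv.Perm.mul_apply, Equiv.swap_apply_right]

theorem vzs (hv : v = Equiv.swap (w zs) (w z) * w) : v zs = w z := by
  rw [hv, Equiv.Perm.mul_apply, Equiv.swap_apply_left]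

theorem vo (hv : v = Equiv.swap (w zs) (w z) * w) {x : Fin n} (h1 : x ≠ z) (h2 : x ≠ zs) :
    v x = w x := by
  rw [hv, Equiv.Perm.mul_apply]
  exact Equiv.swap_apply_of_ne_of_ne (fun h => h2 (w.injective h)) (fun h => h1 (w.injective h))

/-- The values: everything needed about `w` and `v`. -/
theorem vals (hs : Stp w a e z zs) (hv : v = Equiv.swap (w zs) (w z) * w) (x : Fin n) :
    (x = z ∧ (w x).val = e ∧ (v x).val + 1 = e) ∨ (x = zs ∧ (w x).val + 1 = e ∧ (v x).val = e) ∨
      (x ≠ z ∧ x ≠ zs ∧ (w x).val ≠ e ∧ (w x).val + 1 ≠ e ∧ (v x).val = (w x).val) := by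
  by_cases h1 : x = z
  · left
    refine ⟨h1, ?_, ?_⟩
    · rw [h1]; exact hs.hz
    · rw [h1, vz hv]; exact hs.hzs
  · by_cases h2 : x = zs
    · right; left
      refine ⟨h2, ?_, ?_⟩
      · rw [h2]; exact hs.hzs
      · rw [h2, vzs hv]; exact hs.hz
    · right; right
      refine ⟨h1, h2, ?_, ?_, ?_⟩
      · intro h
        apply h1
        apply w.injective
        apply Fin.ext
        rw [h, hs.hz]
      · intro h
        apply h2
        apply w.injective
        apply Fin.ext
        have := hs.hzs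
        omega
      · rw [vo hv h1 h2]

/-- Existence of an early value: for every bound `m` with `m < e`, `m + 1 ≠ e` (or no bound). -/
theorem exi (hs : Stp w a e z zs) (hv : v = Equiv.swap (w zs) (w z) * w) (x : Fin n) (m : ℕ)
    (hm : m < e) (lo : Fin n → Prop) (lo' : Fin n → Prop)
    (h1 : ∀ y, lo y ↔ m ≤ (w y).val) (h2 : ∀ y, lo' y ↔ m ≤ (v y).val) :
    (∃ y, y ≤ x ∧ lo y ∧ (w y).val < e + 1) ↔ (∃ y, y ≤ x ∧ lo' y ∧ (v y).val < e) := by
  constructor
  · rintro ⟨y, hy, h3, h4⟩
    rw [h1] at h3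
    rcases vals hs hv y with ⟨h5, h6, h7⟩ | ⟨h5, h6, h7⟩ | ⟨h5, h6, h7, h8, h9⟩
    · refine ⟨y, hy, ?_, ?_⟩
      · rw [h2]; omega
      · omega
    · refine ⟨z, ?_, ?_, ?_⟩
      · have := hs.hlt
        rw [← h5] at this
        exact (le_of_lt this).trans hy
      · rw [h2, vz hv]
        have := hs.hzs
        omega
      · rw [vz hv]
        have := hs.hzs
        omega
    · refine ⟨y, hy, ?_, ?_⟩
      · rw [h2, h9]; exact h3
      · rw [h9]; omega
  · rintro ⟨y, hy, h3, h4⟩
    rw [h2] at h3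
    rcases vals hs hv y with ⟨h5, h6, h7⟩ | ⟨h5, h6, h7⟩ | ⟨h5, h6, h7, h8, h9⟩
    · refine ⟨y, hy, ?_, ?_⟩
      · rw [h1]; omega
      · omega
    · omega
    · refine ⟨y, hy, ?_, ?_⟩
      · rw [h1]; omega
      · omega

end XE2

theorem E2_pf : S_E2 := by
  intro n w a e z zs hs v hv o
  cases o with
  | none =>
    ext x
    simp only [St, Finset.mem_filter, Finset.mem_univ, true_and]
    have hE := XE2.exi hs hv x a hs.ha (fun y => a ≤ (w y).val) (fun y => a ≤ (v y).val)
      (fun _ => Iff.rfl) (fun _ => Iff.rfl)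
    have ha := hs.ha
    have hx : a ≤ (w x).val ↔ a ≤ (v x).val := by
      rcases XE2.vals hs hv x with ⟨h5, h6, h7⟩ | ⟨h5, h6, h7⟩ | ⟨h5, h6, h7, h8, h9⟩ <;>
        constructor <;> intro h <;> omega
    exact and_congr hx hE
  | some i =>
    ext x
    simp only [St, Finset.mem_filter, Finset.mem_univ, true_and]
    have ha := hs.ha
    have hlt := hs.hlt
    rcases XE2.vals hs hv i with ⟨i5, i6, i7⟩ | ⟨i5, i6, i7⟩ | ⟨i5, i6, i7, i8, i9⟩
    · -- `i = z`: both sides are empty
      constructor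
      · rintro ⟨_, _, h3⟩
        obtain ⟨y, _, h4, h5⟩ := h3 (by omega) (by omega)
        rw [Fin.lt_def] at h4
        omega
      · rintro ⟨_, _, h3⟩
        obtain ⟨y, _, h4, h5⟩ := h3 (by omega) (by omega)
        rw [Fin.lt_def] at h4
        omega
    · -- `i = zs`
      constructor
      · rintro ⟨h1, h2, _⟩
        refine ⟨h1, ?_, fun _ h => by omega⟩
        rw [Fin.lt_def] at h2 ⊢
        rcases XE2.vals hs hv x with ⟨h5, h6, h7⟩ | ⟨h5, h6, h7⟩ | ⟨h5, h6, h7, h8, h9⟩
        · rw [h5, i5] at h1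
          exact absurd h1 (not_lt.2 hlt.le)
        · rw [h5, i5] at h1
          exact absurd h1 (lt_irrefl _)
        · omega
      · rintro ⟨h1, h2, _⟩
        rw [Fin.lt_def] at h2
        refine ⟨h1, ?_, fun _ _ => ⟨z, ?_, ?_, ?_⟩⟩
        · rw [Fin.lt_def]
          rcases XE2.vals hs hv x with ⟨h5, h6, h7⟩ | ⟨h5, h6, h7⟩ | ⟨h5, h6, h7, h8, h9⟩ <;>
            omega
        · rw [i5] at h1
          exact (hlt.trans h1).le
        · rw [Fin.lt_def, hs.hz]
          omega
        · rw [hs.hz]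
          omega
    · -- other `i`
      have hx : w i < w x ↔ v i < v x := by
        rw [Fin.lt_def, Fin.lt_def]
        rcases XE2.vals hs hv x with ⟨h5, h6, h7⟩ | ⟨h5, h6, h7⟩ | ⟨h5, h6, h7, h8, h9⟩ <;>
          constructor <;> intro h <;> omega
      have h3 : (a ≤ (w i).val → (w i).val < e + 1 →
          ∃ y, y ≤ x ∧ w i < w y ∧ (w y).val < e + 1) ↔
          (a ≤ (v i).val → (v i).val < e → ∃ y, y ≤ x ∧ v i < v y ∧ (v y).val < e) := by
        by_cases hi : (w i).val < e
        · have hE := XE2.exi hs hv x ((w i).val + 1) (by omega) (fun y => w i < w y)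
            (fun y => v i < v y) (fun y => by rw [Fin.lt_def]; exact Nat.succ_le_iff.symm)
            (fun y => by rw [Fin.lt_def, i9]; exact Nat.succ_le_iff.symm)
          rw [hE, i9]
          constructor
          · intro h h4 _
            exact h h4 (by omega)
          · intro h h4 _
            exact h h4 hi
        · constructor
          · intro _ _ h4
            omega
          · intro _ _ h4
            omega
      rw [hx, h3]

end Pool.Agent.Work.MP_ca14f8_co.L3
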