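import Pool.Agent.Work.MP_ca14f8_co.L3.Stmts

/-!
Block L3 of MP_ca14f8_co, item EX: the exchange lemma.
-/

set_option autoImplicit false
open Classical

namespace Pool.Agent.Work.MP_ca14f8_co.L3

namespace XEX

/-- Expansion of `det (T + B)` over the sets of columns, and Laplace. -/
theorem det_add_mem (hL : S_LPL) {κ R : Type} [Fintype κ] [DecidableEq κ] [CommRing R]
    [Algebra ℚ R] (T B : Matrix κ κ R) (A1 A2 : Submodule ℚ R)
    (h1 : ∀ (γ : Type) [Fintype γ] [DecidableEq γ] (f g : γ → κ),
      (Matrix.of fun a b : γ => T (f a) (g b)).det ∈ A1)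
    (h2 : ∀ (γ : Type) [Fintype γ] [DecidableEq γ] (f g : γ → κ),
      (Matrix.of fun a b : γ => B (f a) (g b)).det ∈ A2) :
    (T + B).det ∈ A1 * A2 := by
  have e1 : (T + B).det = ∑ s : Finset κ,
      (Matrix.of fun x b : κ => if b ∈ s then T x b else B x b).det := by
    let tT : κ → κ → R := fun b x => T x b
    let tB : κ → κ → R := fun b x => B x b
    have e2 : (T + B).det =
        (Matrix.detRowAlternating (R := R) (n := κ)).toMultilinearMap (tT + tB) := by
      rw [← Matrix.det_transpose]
      rfl
    rw [e2, MultilinearMap.map_add_univ]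
    refine Finset.sum_congr rfl fun s _ => ?_
    rw [← Matrix.det_transpose]
    have e3 : (Matrix.of fun x b : κ => if b ∈ s then T x b else B x b).transpose =
        s.piecewise tT tB := by
      funext b x
      by_cases hb : b ∈ s
      · simp [Finset.piecewise, hb, Matrix.transpose_apply, tT]
      · simp [Finset.piecewise, hb, Matrix.transpose_apply, tB]
    rw [e3]
    rfl
  rw [e1]
  refine Submodule.sum_mem _ fun s _ => ?_
  have e4 := Matrix.det_submatrix_equiv_self (Equiv.sumCompl fun x : κ => x ∈ s)
    (Matrix.of fun x b : κ => if b ∈ s then T x b else B x b)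
  rw [← e4]
  have h3 := hL {x : κ // x ∈ s} {x : κ // ¬ x ∈ s} R
    ((Matrix.of fun x b : κ => if b ∈ s then T x b else B x b).submatrix
      (Equiv.sumCompl fun x : κ => x ∈ s) (Equiv.sumCompl fun x : κ => x ∈ s))
  refine (Submodule.span_le.2 ?_) h3
  rintro _ ⟨f, g, rfl⟩
  refine Submodule.mul_mem_mul ?_ ?_
  · have h4 := h1 {x : κ // x ∈ s} (fun a => (Equiv.sumCompl fun x : κ => x ∈ s) (f a))
      (fun b => b.1)
    convert h4 using 2
    funext a b
    simp
  · have h4 := h2 {x : κ // ¬ x ∈ s} (fun a => (Equiv.sumCompl fun x : κ => x ∈ s) (g a))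
      (fun b => b.1)
    convert h4 using 2
    funext a b
    simp [b.2]

end XEX

open XEX in
theorem EX_pf (hL : S_LPL) (hM : S_MRM) : S_EX := by
  intro ι R _ _ _ Y P₁ Q₁ P₂ Q₂ PI QI Qb H1 H2 H3
  rw [MR, MR, Submodule.span_mul_span]
  refine Submodule.span_le.2 ?_
  rintro _ ⟨_, ⟨C2, ρ2, hC2, hρ2, rfl⟩, _, ⟨C1, ρ1, hC1, hρ1, rfl⟩, rfl⟩
  -- labels
  let r : C2 ⊕ C1 → ι := Sum.elim (fun a => ρ2 a) (fun a => ρ1 a)
  let c : C2 ⊕ C1 → ι := Sum.elim (fun a => (a : ι)) (fun a => (a : ι))
  let T : Matrix (C2 ⊕ C1) (C2 ⊕ C1) R := Matrix.of fun x b =>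
    if (b.isLeft ∨ c b ∈ Qb) then Y (r x) (c b) else 0
  let B : Matrix (C2 ⊕ C1) (C2 ⊕ C1) R := Matrix.of fun x b =>
    if x.isRight ∧ r x ∈ PI then
      (if b.isLeft then (if c b ∈ QI then - Y (r x) (c b) else 0)
        else (if c b ∈ Qb then 0 else Y (r x) (c b))) else 0
  have hr : ∀ x, r x ∈ P₁ ∪ P₂ := by
    rintro (x | x)
    · exact Finset.mem_union_right _ (hρ2 x x.2)
    · exact Finset.mem_union_left _ (hρ1 x x.2)
  have hD : mr Y C2 ρ2 * mr Y C1 ρ1 = (T + B).det := by
    have e : T + B = Matrix.fromBlocks (Matrix.of fun a b : C2 => Y (ρ2 a) b)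
        (Matrix.of fun (a : C2) (b : C1) => T (Sum.inl a) (Sum.inr b)) 0
        (Matrix.of fun a b : C1 => Y (ρ1 a) b) := by
      ext x b
      rcases x with x | x <;> rcases b with b | b
      · simp [T, B, r, c]
      · simp [T, B, r, c]
      · have h := H1 (ρ1 x) (hρ1 x x.2) b (hC2 b.2)
        simp only [T, B, r, c, Matrix.add_apply, Matrix.of_apply, Sum.isLeft_inl, true_or,
          if_true, Sum.elim_inr, Sum.elim_inl, Sum.isRight_inr, true_and,
          Matrix.fromBlocks_apply₂₁, Matrix.zero_apply]
        by_cases h0 : Y (ρ1 x) b = 0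
        · simp [h0]
        · obtain ⟨h5, h6⟩ := h h0
          simp [h5, h6]
      · have h := H2 b (hC1 b.2)
        simp only [T, B, r, c, Matrix.add_apply, Matrix.of_apply, Sum.isLeft_inr,
          Sum.elim_inr, Sum.isRight_inr, true_and, Matrix.fromBlocks_apply₂₂]
        by_cases hb : (b : ι) ∈ Qb
        · simp [hb]
        · have hq : (b : ι) ∈ QI := h.resolve_right hb
          by_cases hx : ρ1 x ∈ PI
          · simp [hb, hx]
          · have h7 := H3 b hq (ρ1 x) (hρ1 x x.2) hx
            simp [hb, hx, h7]
    rw [e, Matrix.det_fromBlocks_zero₂₁]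
    rfl
  change mr Y C2 ρ2 * mr Y C1 ρ1 ∈ _
  rw [hD]
  refine det_add_mem hL T B _ _ ?_ ?_
  · intro γ _ _ f g
    by_cases hg : ∀ b, ((g b).isLeft = true ∨ c (g b) ∈ Qb)
    · have e : (Matrix.of fun a b : γ => T (f a) (g b)) =
          Matrix.of fun a b : γ => Y (r (f a)) (c (g b)) := by
        ext a b
        simp only [T, Matrix.of_apply]
        rw [if_pos (hg b)]
      rw [e]
      refine hM ι R γ Y _ _ (fun a => r (f a)) (fun b => c (g b)) (fun a => hr _) ?_
      intro b
      rcases hgb : g b with x | x
      · exact Finset.mem_union_left _ (hC2 x.2)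
      · have := hg b
        rw [hgb] at this
        rcases this with h | h
        · simp at h
        · exact Finset.mem_union_right _ h
    · push Not at hg
      obtain ⟨b, hb⟩ := hg
      rw [Matrix.det_eq_zero_of_column_eq_zero b]
      · exact Submodule.zero_mem _
      · intro a
        simp only [T, Matrix.of_apply]
        rw [if_neg]
        tauto
  · intro γ _ _ f g
    by_cases hf : ∀ a, ((f a).isRight = true ∧ r (f a) ∈ PI)
    · by_cases hg : ∀ b, (if (g b).isLeft then c (g b) ∈ QI else c (g b) ∉ Qb)
      · have e : (Matrix.of fun a b : γ => B (f a) (g b)) =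
            Matrix.of fun a b : γ => (algebraMap ℚ R (if (g b).isLeft then (-1 : ℚ) else 1)) *
              (Matrix.of fun a b : γ => Y (r (f a)) (c (g b))) a b := by
          ext a b
          have h8 := hg b
          simp only [B, Matrix.of_apply]
          rw [if_pos (hf a)]
          by_cases hl : (g b).isLeft = true
          · rw [if_pos hl] at h8
            rw [if_pos hl, if_pos h8, if_pos hl]
            simp
          · rw [if_neg hl] at h8
            rw [if_neg hl, if_neg h8, if_neg hl]
            simp
        rw [e, Matrix.det_mul_row, ← map_prod, ← Algebra.smul_def]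
        refine Submodule.smul_mem _ _ ?_
        refine hM ι R γ Y _ _ (fun a => r (f a)) (fun b => c (g b)) (fun a => (hf a).2) ?_
        intro b
        have h8 := hg b
        by_cases hl : (g b).isLeft = true
        · rw [if_pos hl] at h8
          exact h8
        · rw [if_neg hl] at h8
          rcases hgb : g b with x | x
          · rw [hgb] at hl
            simp at hl
          · rw [hgb] at h8
            exact (H2 x (hC1 x.2)).resolve_right h8
      · push Not at hg
        obtain ⟨b, hb⟩ := hg
        rw [Matrix.det_eq_zero_of_column_eq_zero b]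
        · exact Submodule.zero_mem _
        · intro a
          simp only [B, Matrix.of_apply]
          by_cases hl : (g b).isLeft = true
          · rw [if_pos hl] at hb
            simp [hl, hb]
          · rw [if_neg hl] at hb
            have hb' : c (g b) ∈ Qb := by tauto
            simp [hl, hb']
    · push Not at hf
      obtain ⟨a, ha⟩ := hf
      rw [Matrix.det_eq_zero_of_row_eq_zero a]
      · exact Submodule.zero_mem _
      · intro b
        simp only [B, Matrix.of_apply]
        rw [if_neg]
        tauto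

end Pool.Agent.Work.MP_ca14f8_co.L3
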