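import Pool.Agent.Work.MP_ca14f8_co.L3.Stmts

/-!
Item FD of the block L3 of MP_ca14f8_co: finite dimensionality of the spaces `LL` and `LLs`
(finitely many minors), and the step of the lower bound by rank-nullity.
-/

set_option autoImplicit false
open Classical

namespace Pool.Agent.Work.MP_ca14f8_co.L3

namespace XFD

/-- The span of the minors is finitely generated over a finite index type. -/
theorem MR_fg {ι R : Type} [DecidableEq ι] [Fintype ι] [CommRing R] [Algebra ℚ R]
    (Y : Matrix ι ι R) (P Q : Finset ι) : (MR Y P Q).FG := by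
  unfold MR
  apply Submodule.fg_span
  refine (Set.finite_range (fun x : Finset ι × (ι → ι) => mr Y x.1 x.2)).subset ?_
  rintro f ⟨C, ρ, _, _, rfl⟩
  exact ⟨(C, ρ), rfl⟩

/-- Finite products of finitely generated submodules are finitely generated. -/
theorem prod_fg {κ R : Type} [CommRing R] [Algebra ℚ R] (s : Finset κ)
    (f : κ → Submodule ℚ R) (h : ∀ i ∈ s, (f i).FG) : (∏ i ∈ s, f i).FG := by
  induction s using Finset.induction_on with
  | empty =>
    rw [Finset.prod_empty, Submodule.one_eq_span]
    exact Submodule.fg_span (Set.finite_singleton _)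
  | insert i s hi ih =>
    rw [Finset.prod_insert hi]
    exact (h i (Finset.mem_insert_self _ _)).mul
      (ih (fun j hj => h j (Finset.mem_insert_of_mem hj)))

theorem LL_fg {n : ℕ} (w : Equiv.Perm (Fin n)) (a e : ℕ) : (LL w a e).FG := by
  unfold LL
  exact prod_fg _ _ (fun o _ => MR_fg _ _ _)

theorem LLs_fg {n : ℕ} (w : Equiv.Perm (Fin n)) : (LLs w).FG := by
  unfold LLs
  exact prod_fg _ _ (fun o _ => MR_fg _ _ _)

/-- The rank-nullity step in an abstract algebra. -/
theorem step {R : Type} [CommRing R] [IsDomain R] [Algebra ℚ R] (f : R →ₐ[ℚ] R) (y : R)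
    (hy : y ≠ 0) (hfy : f y = 0) (V W W' : Submodule ℚ R) (hV : FiniteDimensional ℚ V)
    (hyl : Submodule.span ℚ {y} * W ≤ V) (hmap : V.map f.toLinearMap = W') :
    Module.finrank ℚ W + Module.finrank ℚ W' ≤ Module.finrank ℚ V := by
  have hmem : ∀ x : W, y * (x : R) ∈ V := by
    intro x
    apply hyl
    exact Submodule.mul_mem_mul (Submodule.subset_span (Set.mem_singleton _)) x.2
  have hrange : LinearMap.range (f.toLinearMap.domRestrict V) = W' := by
    rw [← hmap]
    exact LinearMap.range_domRestrict _ _
  have hker : ∀ x : W, (⟨y * (x : R), hmem x⟩ : V) ∈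
      LinearMap.ker (f.toLinearMap.domRestrict V) := by
    intro x
    rw [LinearMap.mem_ker, LinearMap.domRestrict_apply, AlgHom.toLinearMap_apply, map_mul, hfy,
      zero_mul]
  have hj : ∃ j : W →ₗ[ℚ] LinearMap.ker (f.toLinearMap.domRestrict V),
      Function.Injective j := by
    refine ⟨
      { toFun := fun x => ⟨⟨y * (x : R), hmem x⟩, hker x⟩
        map_add' := by
          intro x z
          apply Subtype.ext
          apply Subtype.ext
          simp [mul_add]
        map_smul' := by
          intro c x
          apply Subtype.ext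
          apply Subtype.ext
          simp }, ?_⟩
    intro x z hxz
    have h3 : y * (x : R) = y * (z : R) :=
      congrArg (fun t : LinearMap.ker (f.toLinearMap.domRestrict V) => ((t : V) : R)) hxz
    exact Subtype.ext (mul_left_cancel₀ hy h3)
  obtain ⟨j, hj⟩ := hj
  have h4 : Module.finrank ℚ W ≤
      Module.finrank ℚ (LinearMap.ker (f.toLinearMap.domRestrict V)) :=
    LinearMap.finrank_le_finrank_of_injective hj
  have h5 := LinearMap.finrank_range_add_finrank_ker (f.toLinearMap.domRestrict V)
  rw [hrange] at h5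
  omega

theorem res_X {n : ℕ} (z zs : Fin n) : res z zs (MvPolynomial.X (z, zs)) = 0 := by
  unfold res
  rw [MvPolynomial.aeval_X]
  simp

end XFD

theorem FD_pf : S_FD := by
  intro n w a e
  exact ⟨Module.Finite.iff_fg.mpr (XFD.LL_fg w a e), Module.Finite.iff_fg.mpr (XFD.LLs_fg w)⟩

theorem LS_pf (hFD : S_FD) (hYL : S_YL) (hLR : S_LR) : S_LS := by
  intro n w a e z zs hst v hv
  exact XFD.step (res z zs) (MvPolynomial.X (z, zs)) (MvPolynomial.X_ne_zero _)
    (XFD.res_X z zs) (LL w a (e + 1)) (LL w a e) (LL v a e) (hFD n w a (e + 1)).1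
    (hYL n w a e z zs hst) (hLR n w a e z zs hst v hv)

end Pool.Agent.Work.MP_ca14f8_co.L3
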