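import Pool.Agent.Work.MP_ca14f8_co.L3.Stmts

/-!
Item LE: the lower bound `Ups w ≤ finrank (LLs w)`.
-/

set_option autoImplicit false
open Classical

namespace Pool.Agent.Work.MP_ca14f8_co.L3

namespace XLE

variable {n : ℕ}

/-- The case `n = 0`. -/
theorem base (w : Equiv.Perm (Fin 0)) : Ups w ≤ ((Module.finrank ℚ (LLs w) : ℕ) : ℚ) := by
  have hw : w = 1 := Subsingleton.elim _ _
  subst hw
  have h1 : LLs (1 : Equiv.Perm (Fin 0)) = Submodule.span ℚ {(1 : PR 0)} := by
    unfold LLs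
    rw [Finset.univ_eq_empty, Finset.prod_empty, Submodule.one_eq_span]
  rw [Ups_one, h1, finrank_span_singleton (one_ne_zero)]
  norm_num

/-- The descent operator at a step. -/
theorem NN_step {w : Equiv.Perm (Fin n)} {a e : ℕ} {z zs : Fin n} (h : Stp w a e z zs)
    (f : Equiv.Perm (Fin n) → ℚ) :
    NN (e - 1) f w = f (Equiv.swap (w zs) (w z) * w) := by
  obtain ⟨hz, hzs, ha, hlt⟩ := h
  have he : e - 1 + 1 < n := by
    have := (w z).isLt
    omega
  have e1 : w zs = ⟨e - 1, Nat.lt_of_succ_lt he⟩ := by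
    apply Fin.ext
    show (w zs).val = e - 1
    omega
  have e2 : w z = ⟨e - 1 + 1, he⟩ := by
    apply Fin.ext
    show (w z).val = e - 1 + 1
    omega
  unfold NN
  rw [dif_pos he, ← e1, ← e2, Equiv.symm_apply_apply, Equiv.symm_apply_apply, if_pos hlt]

/-- The descent operator at a level without step. -/
theorem NN_nostep {w : Equiv.Perm (Fin n)} {a e : ℕ} (ha : a < e)
    (h : ¬ ∃ z zs : Fin n, Stp w a e z zs) (f : Equiv.Perm (Fin n) → ℚ) :
    NN (e - 1) f w = 0 := by
  unfold NN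
  by_cases he : e - 1 + 1 < n
  · rw [dif_pos he, if_neg]
    intro hlt
    refine h ⟨w.symm ⟨e - 1 + 1, he⟩, w.symm ⟨e - 1, Nat.lt_of_succ_lt he⟩, ?_, ?_, ha, hlt⟩
    · rw [Equiv.apply_symm_apply]
      show e - 1 + 1 = e
      omega
    · rw [Equiv.apply_symm_apply]
      show e - 1 + 1 = e
      omega
  · rw [dif_neg he]

/-- The inner induction. -/
theorem inner (h1 : S_LS) (h2 : S_LO) (h3 : S_LN) (h6 : S_FD) (a : ℕ)
    (ih : ∀ w : Equiv.Perm (Fin n), Ups w ≤ ((Module.finrank ℚ (LLs w) : ℕ) : ℚ)) :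
    ∀ e : ℕ, e ≤ n → ∀ w : Equiv.Perm (Fin n),
      HH a e w ≤ ((Module.finrank ℚ (LL w a e) : ℕ) : ℚ) := by
  intro e
  induction e with
  | zero =>
    intro _ w
    show Ups w ≤ _
    rw [(h3 n w).1 a 0 (Nat.zero_le a)]
    exact ih w
  | succ e ihe =>
    intro he w
    have he' : e < n := he
    have f2 := ihe he'.le w
    by_cases hst : ∃ z zs : Fin n, Stp w a e z zs
    · obtain ⟨z, zs, hst⟩ := hst
      have v2 := ihe he'.le (Equiv.swap (w zs) (w z) * w)
      have g2 := h1 n w a e z zs hst _ rfl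
      have hH : HH a (e + 1) w = HH a e w + NN (e - 1) (HH a e) w := by
        show (if a < e then HH a e w + NN (e - 1) (HH a e) w else HH a e w) = _
        rw [if_pos hst.ha]
      rw [hH, NN_step hst]
      have g3 : ((Module.finrank ℚ (LL w a e) : ℕ) : ℚ) +
          ((Module.finrank ℚ (LL (Equiv.swap (w zs) (w z) * w) a e) : ℕ) : ℚ) ≤
          ((Module.finrank ℚ (LL w a (e + 1)) : ℕ) : ℚ) := by
        exact_mod_cast g2
      linarith
    · have hfd : FiniteDimensional ℚ (LL w a (e + 1)) := (h6 n w a (e + 1)).1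
      have g2 : Module.finrank ℚ (LL w a e) ≤ Module.finrank ℚ (LL w a (e + 1)) :=
        Submodule.finrank_mono (h2 n w a e he' hst)
      have hH : HH a (e + 1) w = HH a e w := by
        show (if a < e then HH a e w + NN (e - 1) (HH a e) w else HH a e w) = _
        split_ifs with ha
        · rw [NN_nostep ha hst, add_zero]
        · rfl
      rw [hH]
      have g3 : ((Module.finrank ℚ (LL w a e) : ℕ) : ℚ) ≤
        ((Module.finrank ℚ (LL w a (e + 1)) : ℕ) : ℚ) := by exact_mod_cast g2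
      exact f2.trans g3

end XLE

/-- Item LE. -/
theorem LE_pf (h1 : S_LS) (h2 : S_LO) (h3 : S_LN) (h4 : S_CNS) (h5 : S_FIN1) (h6 : S_FD) :
    S_LE := by
  intro n
  induction n with
  | zero => exact fun w => XLE.base w
  | succ n ih =>
    intro v
    obtain ⟨w, hw⟩ := (h4 n).2 v
    have f2 := XLE.inner h1 h2 h3 h6 (v 0).val ih n le_rfl w
    have g2 := (h3 n w).2 (v 0)
    rw [← hw] at g2
    have h7 := h5 n w (v 0).val (Nat.le_of_lt_succ (v 0).isLt)
    rw [← h7] at f2
    have h8 : UU (v 0).val w = Ups v := by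
      unfold UU
      rw [dif_pos (v 0).isLt]
      show Ups (cns (v 0) w) = Ups v
      rw [← hw]
    rw [h8] at f2
    have g3 : ((Module.finrank ℚ (LL w (v 0).val n) : ℕ) : ℚ) ≤
      ((Module.finrank ℚ (LLs v) : ℕ) : ℚ) := by exact_mod_cast g2
    exact f2.trans g3

end Pool.Agent.Work.MP_ca14f8_co.L3
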