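import Pool.Agent.Work.MP_ca14f8_co.L3.Stmts

/-! Item LN of the block L3. -/

set_option autoImplicit false
open Classical

namespace Pool.Agent.Work.MP_ca14f8_co.L3

theorem XLN.MR_empty {ι R : Type} [DecidableEq ι] [CommRing R] [Algebra ℚ R]
    (Y : Matrix ι ι R) : MR Y ∅ ∅ = 1 := by
  unfold MR
  rw [Submodule.one_eq_span]
  congr 1
  ext f
  constructor
  · rintro ⟨C, ρ, hC, _, rfl⟩
    have hC' : C = ∅ := Finset.subset_empty.mp hC
    subst hC'
    have : mr Y ∅ ρ = 1 := by
      unfold mr
      exact Matrix.det_isEmpty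
    rw [this]
    exact Set.mem_singleton _
  · intro hf
    rw [Set.mem_singleton_iff] at hf
    subst hf
    refine ⟨∅, id, Finset.Subset.refl _, ?_, ?_⟩
    · intro q hq
      exact absurd hq (Finset.notMem_empty q)
    · unfold mr
      exact Matrix.det_isEmpty.symm

theorem XLN.map_prod {ι A B : Type} [CommRing A] [Algebra ℚ A] [CommRing B] [Algebra ℚ B]
    (φ : A →ₐ[ℚ] B) (s : Finset ι) (f : ι → Submodule ℚ A) :
    (∏ i ∈ s, f i).map φ.toLinearMap = ∏ i ∈ s, (f i).map φ.toLinearMap := by
  induction s using Finset.induction_on with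
  | empty => rw [Finset.prod_empty, Finset.prod_empty, Submodule.map_one]
  | insert a s ha ih =>
    rw [Finset.prod_insert ha, Finset.prod_insert ha, Submodule.map_mul, ih]

theorem XLN.prod_mono {ι A : Type} [CommRing A] [Algebra ℚ A]
    (s : Finset ι) (f g : ι → Submodule ℚ A) (h : ∀ i ∈ s, f i ≤ g i) :
    (∏ i ∈ s, f i) ≤ ∏ i ∈ s, g i := by
  induction s using Finset.induction_on with
  | empty => exact le_refl _
  | insert a s ha ih =>
    rw [Finset.prod_insert ha, Finset.prod_insert ha]
    exact mul_le_mul' (h a (Finset.mem_insert_self a s))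
      (ih (fun i hi => h i (Finset.mem_insert_of_mem hi)))

/-- The map `rename (succ, succ)`. -/
noncomputable def XLN.rn (n : ℕ) : PR n →ₐ[ℚ] PR (n + 1) :=
  MvPolynomial.rename (Prod.map Fin.succ Fin.succ)

theorem XLN.rn_inj (n : ℕ) : Function.Injective (XLN.rn n) := by
  unfold XLN.rn
  exact MvPolynomial.rename_injective _
    (Function.Injective.prodMap (Fin.succ_injective n) (Fin.succ_injective n))

theorem XLN.rn_YY (h1 : S_CNS) (n : ℕ) (a : Fin (n + 1)) (w : Equiv.Perm (Fin n))
    (j q : Fin n) : XLN.rn n (YY w j q) = YY (cns a w) j.succ q.succ := by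
  unfold YY XLN.rn
  rw [Matrix.of_apply, Matrix.of_apply, ((h1 n).1 a w).2 j, ((h1 n).1 a w).2 q]
  have hc : (j < q ∧ w q < w j) ↔ (j.succ < q.succ ∧ a.succAbove (w q) < a.succAbove (w j)) := by
    rw [Fin.succ_lt_succ_iff, Fin.succAbove_lt_succAbove_iff]
  by_cases h : j < q ∧ w q < w j
  · rw [if_pos h, if_pos (hc.mp h), MvPolynomial.rename_X]
    rfl
  · rw [if_neg h, if_neg (fun h' => h (hc.mpr h')), map_zero]

theorem XLN.mr_reindex {ι κ R : Type} [DecidableEq ι] [DecidableEq κ] [CommRing R]
    (Y : Matrix κ κ R) (f : ι ↪ κ) (g : κ → ι) (hg : ∀ x, g (f x) = x)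
    (C : Finset ι) (ρ : ι → ι) :
    (Matrix.of (fun (a b : C) => Y (f (ρ a)) (f b))).det = mr Y (C.map f) (fun y => f (ρ (g y))) := by
  unfold mr
  let e : C ≃ (C.map f : Finset κ) :=
    { toFun := fun x => ⟨f x.1, Finset.mem_map_of_mem f x.2⟩
      invFun := fun y => ⟨g y.1, by
        obtain ⟨x, hx, hxy⟩ := Finset.mem_map.mp y.2
        rw [← hxy, hg]; exact hx⟩
      left_inv := fun x => by
        apply Subtype.ext
        exact hg x.1
      right_inv := fun y => by
        apply Subtype.ext
        obtain ⟨x, hx, hxy⟩ := Finset.mem_map.mp y.2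
        show f (g y.1) = y.1
        rw [← hxy, hg] }
  rw [← Matrix.det_submatrix_equiv_self e]
  congr 1
  ext a b
  show Y (f (ρ a)) (f b) = Y (f (ρ (g (f a)))) (f b)
  rw [hg]

theorem XLN.map_MM (h1 : S_CNS) (n : ℕ) (a : Fin (n + 1)) (w : Equiv.Perm (Fin n))
    (S : Finset (Fin n)) (T : Finset (Fin (n + 1))) (hST : ∀ x ∈ S, x.succ ∈ T) :
    (MM w S).map (XLN.rn n).toLinearMap ≤ MM (cns a w) T := by
  unfold MM MR
  rw [Submodule.map_span, Submodule.span_le]
  rintro _ ⟨_, ⟨C, ρ, hC, hρ, rfl⟩, rfl⟩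
  apply Submodule.subset_span
  by_cases hn : n = 0
  · subst hn
    refine ⟨∅, id, Finset.empty_subset _, ?_, ?_⟩
    · intro q hq
      exact absurd hq (Finset.notMem_empty q)
    · have hC0 : C = ∅ := by
        apply Finset.eq_empty_of_forall_notMem
        intro x _
        exact x.elim0
      subst hC0
      have e1 : mr (YY w) ∅ ρ = 1 := by
        unfold mr
        exact Matrix.det_isEmpty
      have e2 : mr (YY (cns a w)) ∅ id = 1 := by
        unfold mr
        exact Matrix.det_isEmpty
      rw [e1, e2]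
      exact map_one (XLN.rn 0)
  · obtain ⟨m, rfl⟩ := Nat.exists_eq_succ_of_ne_zero hn
    let g : Fin (m + 1 + 1) → Fin (m + 1) := Fin.cases 0 id
    have hg : ∀ x : Fin (m + 1), g (Fin.succEmb (m + 1) x) = x := by
      intro x
      show g x.succ = x
      rfl
    refine ⟨C.map (Fin.succEmb (m + 1)), fun y => Fin.succEmb (m + 1) (ρ (g y)), ?_, ?_, ?_⟩
    · intro y hy
      obtain ⟨x, hx, hxy⟩ := Finset.mem_map.mp hy
      rw [← hxy]
      exact hST x (hC hx)
    · intro y hy
      obtain ⟨x, hx, hxy⟩ := Finset.mem_map.mp hy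
      rw [← hxy]
      show (ρ (g ((Fin.succEmb (m + 1)) x))).succ ∈ T
      rw [hg]
      exact hST _ (hρ x hx)
    · rw [← XLN.mr_reindex (YY (cns a w)) (Fin.succEmb (m + 1)) g hg C ρ]
      unfold mr
      show XLN.rn (m + 1) (Matrix.det _) = _
      rw [AlgHom.map_det]
      congr 1
      apply Matrix.ext
      intro x y
      show XLN.rn (m + 1) (YY w (ρ x) y) = YY (cns a w) (ρ x).succ (y : Fin (m + 1)).succ
      exact XLN.rn_YY h1 (m + 1) a w _ _

theorem LN_pf (h1 : S_CNS) (h2 : S_FD) : S_LN := by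
  intro n w
  constructor
  · intro a e hea
    unfold LL LLs
    rw [Fintype.prod_option]
    have e0 : St w a e none = ∅ := by
      show Finset.univ.filter (fun x => a ≤ (w x).val ∧
        ∃ y, y ≤ x ∧ a ≤ (w y).val ∧ (w y).val < e) = ∅
      apply Finset.filter_eq_empty_iff.mpr
      rintro x _ ⟨_, y, _, h3, h4⟩
      omega
    have e1 : ∀ i : Fin n, St w a e (some i) = Gs w i := by
      intro i
      show Finset.univ.filter (fun x => i < x ∧ w i < w x ∧
        (a ≤ (w i).val → (w i).val < e → ∃ y, y ≤ x ∧ w i < w y ∧ (w y).val < e)) =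
        Finset.univ.filter (fun x => i < x ∧ w i < w x)
      apply Finset.filter_congr
      intro x _
      constructor
      · rintro ⟨h3, h4, _⟩
        exact ⟨h3, h4⟩
      · rintro ⟨h3, h4⟩
        refine ⟨h3, h4, ?_⟩
        intro h5 h6
        omega
    rw [e0]
    have e2 : MM w ∅ = 1 := XLN.MR_empty _
    rw [e2, one_mul]
    apply Finset.prod_congr rfl
    intro i _
    rw [e1]
  · intro a
    have := (h2 (n + 1) (cns a w) 0 0).2
    have hle : (LL w a n).map (XLN.rn n).toLinearMap ≤ LLs (cns a w) := by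
      unfold LL LLs
      rw [XLN.map_prod, Fintype.prod_option, Fin.prod_univ_succ]
      apply mul_le_mul'
      · apply XLN.map_MM h1
        intro x hx
        have hx' : a.val ≤ (w x).val := by
          have := (Finset.mem_filter.mp hx).2
          exact this.1
        unfold Gs
        rw [Finset.mem_filter, ((h1 n).1 a w).2 x, ((h1 n).1 a w).1]
        refine ⟨Finset.mem_univ _, Fin.succ_pos x, ?_⟩
        rw [Fin.lt_succAbove_iff_le_castSucc]
        exact hx'
      · apply XLN.prod_mono
        intro i _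
        apply XLN.map_MM h1
        intro x hx
        have hx' : i < x ∧ w i < w x := by
          have := (Finset.mem_filter.mp hx).2
          exact ⟨this.1, this.2.1⟩
        unfold Gs
        rw [Finset.mem_filter, ((h1 n).1 a w).2 x, ((h1 n).1 a w).2 i]
        refine ⟨Finset.mem_univ _, Fin.succ_lt_succ_iff.mpr hx'.1, ?_⟩
        rw [Fin.succAbove_lt_succAbove_iff]
        exact hx'.2
    calc Module.finrank ℚ (LL w a n)
        = Module.finrank ℚ ((LL w a n).map (XLN.rn n).toLinearMap) :=
          (LinearEquiv.finrank_eq (Submodule.equivMapOfInjective (XLN.rn n).toLinearMap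
            (XLN.rn_inj n) (LL w a n)))
      _ ≤ Module.finrank ℚ (LLs (cns a w)) := Submodule.finrank_mono hle

end Pool.Agent.Work.MP_ca14f8_co.L3
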