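import Pool.Agent.Work.MP_ca14f8_co.L3.Stmts

/-!
Item LO of the block L3 of MP_ca14f8_co: `LL w a e ≤ LL w a (e + 1)` in the steps which are not of
the form `z < zs`.
-/

set_option autoImplicit false
open Classical

namespace Pool.Agent.Work.MP_ca14f8_co.L3

namespace XLO

theorem MM_mono {n : ℕ} (w : Equiv.Perm (Fin n)) {S T : Finset (Fin n)} (h : S ⊆ T) :
    MM w S ≤ MM w T := by
  unfold MM MR
  apply Submodule.span_mono
  rintro f ⟨C, ρ, h1, h2, h3⟩
  exact ⟨C, ρ, h1.trans h, fun q hq => h (h2 q hq), h3⟩

theorem prod_mono {n : ℕ} {ι : Type} (s : Finset ι) (f g : ι → Submodule ℚ (PR n))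
    (h : ∀ i ∈ s, f i ≤ g i) : ∏ i ∈ s, f i ≤ ∏ i ∈ s, g i := by
  induction s using Finset.induction_on with
  | empty => simp
  | insert i s hi ih =>
    rw [Finset.prod_insert hi, Finset.prod_insert hi]
    exact mul_le_mul' (h i (Finset.mem_insert_self i s))
      (ih (fun j hj => h j (Finset.mem_insert_of_mem hj)))

theorem LL_le {n : ℕ} (w : Equiv.Perm (Fin n)) (a e e' : ℕ)
    (σ : Equiv.Perm (Option (Fin n)))
    (h : ∀ o, St w a e (σ o) ⊆ St w a e' o) : LL w a e ≤ LL w a e' := by
  unfold LL
  rw [← Equiv.prod_comp σ (fun o => MM w (St w a e o))]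
  exact prod_mono _ _ _ (fun o _ => MM_mono w (h o))

end XLO

open XLO

theorem LO_pf : S_LO := by
  intro n w a e he hno
  obtain ⟨z, hz⟩ : ∃ z : Fin n, (w z).val = e := ⟨w.symm ⟨e, he⟩, by simp⟩
  rcases lt_trichotomy e a with hea | hea | hea
  · -- `e < a`
    apply LL_le w a e (e + 1) (Equiv.refl _)
    rintro (_ | i)
    · intro x hx
      simp only [Equiv.refl_apply, St, Finset.mem_filter, Finset.mem_univ, true_and] at hx
      obtain ⟨_, y, _, h1, h2⟩ := hx
      omega
    · intro x hx
      simp only [Equiv.refl_apply, St, Finset.mem_filter, Finset.mem_univ, true_and] at hx ⊢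
      refine ⟨hx.1, hx.2.1, ?_⟩
      intro h1 h2
      omega
  · -- `e = a`
    subst hea
    apply LL_le w e e (e + 1) (Equiv.swap none (some z))
    rintro (_ | i)
    · intro x hx
      simp only [Equiv.swap_apply_left, St, Finset.mem_filter, Finset.mem_univ, true_and] at hx ⊢
      have h1 : (w z).val < (w x).val := hx.2.1
      exact ⟨by omega, z, hx.1.le, by omega, by omega⟩
    · by_cases hi : i = z
      · subst hi
        intro x hx
        simp only [Equiv.swap_apply_right, St, Finset.mem_filter, Finset.mem_univ, true_and] at hx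
        obtain ⟨_, y, _, h1, h2⟩ := hx
        omega
      · have h0 : (some i : Option (Fin n)) ≠ some z := fun h => hi (Option.some.inj h)
        intro x hx
        rw [Equiv.swap_apply_of_ne_of_ne (by simp) h0] at hx
        simp only [St, Finset.mem_filter, Finset.mem_univ, true_and] at hx ⊢
        refine ⟨hx.1, hx.2.1, ?_⟩
        intro h1 h2
        exfalso
        apply hi
        apply w.injective
        apply Fin.ext
        omega
  · -- `a < e`
    obtain ⟨zs, hzs⟩ : ∃ zs : Fin n, (w zs).val + 1 = e :=
      ⟨w.symm ⟨e - 1, by omega⟩, by simp; omega⟩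
    have hne : z ≠ zs := by
      rintro rfl
      omega
    have hlt : zs < z := by
      rcases lt_trichotomy z zs with h | h | h
      · exact absurd ⟨z, zs, ⟨hz, hzs, hea, h⟩⟩ hno
      · exact absurd h hne
      · exact h
    have hval : ∀ y : Fin n, (w y).val = e → y = z := by
      intro y hy
      apply w.injective
      apply Fin.ext
      omega
    apply LL_le w a e (e + 1) (Equiv.swap (some zs) (some z))
    rintro (_ | i)
    · intro x hx
      rw [Equiv.swap_apply_of_ne_of_ne (by simp) (by simp)] at hx
      simp only [St, Finset.mem_filter, Finset.mem_univ, true_and] at hx ⊢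
      obtain ⟨h1, y, h2, h3, h4⟩ := hx
      exact ⟨h1, y, h2, h3, by omega⟩
    · by_cases hi : i = zs
      · subst hi
        intro x hx
        simp only [Equiv.swap_apply_left, St, Finset.mem_filter, Finset.mem_univ, true_and] at hx ⊢
        have h1 : (w z).val < (w x).val := hx.2.1
        refine ⟨hlt.trans hx.1, ?_, ?_⟩
        · rw [Fin.lt_def]
          omega
        · intro _ _
          refine ⟨z, hx.1.le, ?_, by omega⟩
          rw [Fin.lt_def]
          omega
      · by_cases hi' : i = z
        · subst hi'
          intro x hx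
          simp only [Equiv.swap_apply_right, St, Finset.mem_filter, Finset.mem_univ,
            true_and] at hx
          obtain ⟨_, _, h3⟩ := hx
          obtain ⟨y, _, h4, h5⟩ := h3 (by omega) (by omega)
          rw [Fin.lt_def] at h4
          omega
        · have h0 : (some i : Option (Fin n)) ≠ some zs := fun h => hi (Option.some.inj h)
          have h0' : (some i : Option (Fin n)) ≠ some z := fun h => hi' (Option.some.inj h)
          intro x hx
          rw [Equiv.swap_apply_of_ne_of_ne h0 h0'] at hx
          simp only [St, Finset.mem_filter, Finset.mem_univ, true_and] at hx ⊢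
          refine ⟨hx.1, hx.2.1, ?_⟩
          intro h1 h2
          have h3 : (w i).val ≠ e := fun h => hi' (hval i h)
          obtain ⟨y, hy1, hy2, hy3⟩ := hx.2.2 h1 (by omega)
          exact ⟨y, hy1, hy2, by omega⟩

end Pool.Agent.Work.MP_ca14f8_co.L3
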