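import Pool.Agent.Work.MP_ca14f8_co.L3.Stmts

set_option autoImplicit false
open Classical

namespace Pool.Agent.Work.MP_ca14f8_co.L3

namespace XLR

variable {n : ℕ}

theorem ent {w : Equiv.Perm (Fin n)} {a e : ℕ} {z zs : Fin n} (h : Stp w a e z zs)
    {v : Equiv.Perm (Fin n)} (hv : v = Equiv.swap (w zs) (w z) * w) (j q : Fin n) :
    res z zs (YY w j q) = YY v j q := by
  obtain ⟨hz, hzs, ha, hlt⟩ := h
  have hvx : ∀ x, v x = if x = zs then w z else if x = z then w zs else w x := by
    intro x
    rw [hv, Equiv.Perm.mul_apply]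
    by_cases h1 : x = zs
    · rw [if_pos h1, h1, Equiv.swap_apply_left]
    · rw [if_neg h1]
      by_cases h2 : x = z
      · rw [if_pos h2, h2, Equiv.swap_apply_right]
      · rw [if_neg h2]
        exact Equiv.swap_apply_of_ne_of_ne (fun h => h1 (w.injective h))
          (fun h => h2 (w.injective h))
  have hval : ∀ x, x ≠ z → x ≠ zs → (w x).val ≠ e ∧ (w x).val + 1 ≠ e := by
    intro x h1 h2
    constructor
    · intro h3
      apply h1
      apply w.injective
      apply Fin.ext
      omega
    · intro h3
      apply h2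
      apply w.injective
      apply Fin.ext
      omega
  have key : (j < q ∧ v q < v j) ↔ ((j < q ∧ w q < w j) ∧ (j, q) ≠ (z, zs)) := by
    rw [hvx q, hvx j]
    simp only [Fin.lt_def, ne_eq, Prod.mk.injEq, not_and]
    rw [Fin.lt_def] at hlt
    by_cases hj : j = z
    · subst hj
      have hjz : ¬ j = zs := by
        intro h3
        rw [h3] at hlt
        omega
      by_cases hq : q = zs
      · subst hq
        simp [hjz]
        omega
      · by_cases hq2 : q = j
        · subst hq2
          simp
        · have := hval q hq2 hq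
          simp [hjz, hq, hq2]
          omega
    · by_cases hj2 : j = zs
      · subst hj2
        by_cases hq : q = j
        · subst hq
          simp
        · by_cases hq2 : q = z
          · subst hq2
            simp [hj, hq]
            omega
          · have := hval q hq2 hq
            simp [hj, hq, hq2]
            omega
      · have hjv := hval j hj hj2
        by_cases hq : q = zs
        · subst hq
          simp [hj, hj2]
          omega
        · by_cases hq2 : q = z
          · subst hq2
            simp [hj, hj2, hq]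
            omega
          · simp [hj, hj2, hq, hq2]
  unfold YY
  simp only [Matrix.of_apply]
  by_cases h1 : j < q ∧ w q < w j
  · rw [if_pos h1]
    unfold res
    rw [MvPolynomial.aeval_X]
    by_cases h2 : (j, q) = (z, zs)
    · rw [if_pos h2, if_neg]
      rw [key]
      tauto
    · rw [if_neg h2, if_pos]
      rw [key]
      exact ⟨h1, h2⟩
  · rw [if_neg h1, if_neg, map_zero]
    rw [key]
    tauto

theorem mrmap {w : Equiv.Perm (Fin n)} {a e : ℕ} {z zs : Fin n} (h : Stp w a e z zs)
    {v : Equiv.Perm (Fin n)} (hv : v = Equiv.swap (w zs) (w z) * w) (C : Finset (Fin n))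
    (ρ : Fin n → Fin n) : res z zs (mr (YY w) C ρ) = mr (YY v) C ρ := by
  unfold mr
  rw [AlgHom.map_det]
  congr 1
  ext1 x y
  exact ent h hv _ _

theorem MMmap {w : Equiv.Perm (Fin n)} {a e : ℕ} {z zs : Fin n} (h : Stp w a e z zs)
    {v : Equiv.Perm (Fin n)} (hv : v = Equiv.swap (w zs) (w z) * w) (S : Finset (Fin n)) :
    (MM w S).map (res z zs).toLinearMap = MM v S := by
  unfold MM MR
  rw [Submodule.map_span]
  congr 1
  ext f
  constructor
  · rintro ⟨g, ⟨C, ρ, h1, h2, rfl⟩, rfl⟩
    exact ⟨C, ρ, h1, h2, mrmap h hv C ρ⟩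
  · rintro ⟨C, ρ, h1, h2, rfl⟩
    exact ⟨_, ⟨C, ρ, h1, h2, rfl⟩, mrmap h hv C ρ⟩

theorem prodmap (f : PR n →ₐ[ℚ] PR n) {ι : Type} (s : Finset ι) (M : ι → Submodule ℚ (PR n)) :
    (∏ i ∈ s, M i).map f.toLinearMap = ∏ i ∈ s, (M i).map f.toLinearMap := by
  induction s using Finset.induction_on with
  | empty =>
    rw [Finset.prod_empty, Finset.prod_empty, Submodule.map_one]
  | insert i s hi ih =>
    rw [Finset.prod_insert hi, Finset.prod_insert hi, Submodule.map_mul, ih]

end XLR

theorem LR_pf (h1 : S_E2) : S_LR := by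
  intro n w a e z zs h v hv
  unfold LL
  rw [XLR.prodmap]
  refine Finset.prod_congr rfl fun o _ => ?_
  rw [h1 n w a e z zs h v hv o]
  exact XLR.MMmap h hv _

end Pool.Agent.Work.MP_ca14f8_co.L3
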