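import Pool.Agent.Work.MP_ca14f8_co.L3.Stmts

/-!
Lemma Y of the block L3 (see the docstring of `S_LY`).
-/

set_option autoImplicit false
open Classical

namespace Pool.Agent.Work.MP_ca14f8_co.L3

namespace XLY

lemma MR_mono {ι R : Type} [DecidableEq ι] [CommRing R] [Algebra ℚ R]
    (Y : Matrix ι ι R) {P P' Q Q' : Finset ι} (hP : P ⊆ P') (hQ : Q ⊆ Q') :
    MR Y P Q ≤ MR Y P' Q' := by
  unfold MR
  apply Submodule.span_mono
  rintro f ⟨C, ρ, h1, h2, h3⟩
  exact ⟨C, ρ, h1.trans hQ, fun q hq => hP (h2 q hq), h3⟩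

lemma YY_ne {n : ℕ} (w : Equiv.Perm (Fin n)) {j q : Fin n} (h : YY w j q ≠ 0) :
    j < q ∧ w q < w j := by
  by_contra h1
  exact h (by simp only [YY, Matrix.of_apply, if_neg h1])

lemma mem_Gs {n : ℕ} (w : Equiv.Perm (Fin n)) (i x : Fin n) :
    x ∈ Gs w i ↔ i < x ∧ w i < w x := by
  simp [Gs]

lemma mem_QsFr {n : ℕ} (w : Equiv.Perm (Fin n)) (p x : Fin n) (θ : ℕ) :
    x ∈ Qs w (Fr p) θ ↔ p ≤ x ∧ θ ≤ (w x).val := by
  simp [Qs, Fr]

/-- Adding the row `z` and the column `zs` to a minor of the window of `z`. -/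
lemma add_row {n : ℕ} (w : Equiv.Perm (Fin n)) (a e : ℕ) (z zs : Fin n)
    (hS : Stp w a e z zs) (h2 : S_MRM) :
    Submodule.span ℚ {(MvPolynomial.X (z, zs) : PR n)} * MM w (Gs w z) ≤
      MR (YY w) (insert z (Gs w z)) (insert zs (Gs w z)) := by
  obtain ⟨hz, hzs, ha, hlt⟩ := hS
  unfold MM
  conv_lhs => unfold MR
  rw [Submodule.span_mul_span, Submodule.span_le]
  rintro x ⟨y, hy, f, ⟨C, ρ, hC, hρ, hf⟩, hx⟩
  rw [Set.mem_singleton_iff] at hy
  subst hy
  subst hf
  simp only at hx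
  subst hx
  have key := h2 (Fin n) (PR n) (C ⊕ Unit) (YY w) (insert z (Gs w z)) (insert zs (Gs w z))
    (Sum.elim (fun q => ρ q) (fun _ => z)) (Sum.elim (fun q => (q : Fin n)) (fun _ => zs))
    (by
      rintro (q | _)
      · exact Finset.mem_insert_of_mem (hρ q q.2)
      · exact Finset.mem_insert_self _ _)
    (by
      rintro (q | _)
      · exact Finset.mem_insert_of_mem (hC q.2)
      · exact Finset.mem_insert_self _ _)
  have hM : (Matrix.of (fun a b : C ⊕ Unit =>
      YY w (Sum.elim (fun q : C => ρ q) (fun _ => z) a)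
        (Sum.elim (fun q : C => (q : Fin n)) (fun _ => zs) b))) =
      Matrix.fromBlocks (Matrix.of (fun (a b : C) => YY w (ρ a) b))
        (Matrix.of (fun (a : C) (_ : Unit) => YY w (ρ a) zs)) 0
        (Matrix.of (fun (_ _ : Unit) => YY w z zs)) := by
    refine Matrix.ext (fun a b => ?_)
    rcases a with a | a <;> rcases b with b | b
    · rfl
    · rfl
    · simp only [Matrix.of_apply, Sum.elim_inr, Sum.elim_inl, Matrix.fromBlocks_apply₂₁,
        Matrix.zero_apply]
      by_contra h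
      have h3 := YY_ne w h
      have h4 := (mem_Gs w z b).1 (hC b.2)
      exact absurd (h3.2.trans h4.2) (lt_irrefl _)
    · rfl
  rw [hM, Matrix.det_fromBlocks_zero₂₁] at key
  have hX : (Matrix.of (fun (_ _ : Unit) => YY w z zs)).det =
      (MvPolynomial.X (z, zs) : PR n) := by
    rw [Matrix.det_unique]
    have h5 : z < zs ∧ w zs < w z := by
      refine ⟨hlt, ?_⟩
      rw [Fin.lt_def]
      omega
    simp only [YY, Matrix.of_apply, if_pos h5]
  rw [hX, mul_comm] at key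
  exact key

lemma erase_col {n : ℕ} (w : Equiv.Perm (Fin n)) (zs : Fin n) (θ : ℕ) :
    MM w (Qs w (Fr zs) θ) ≤
      MR (YY w) (Qs w (Fr zs) θ) ((Qs w (Fr zs) θ).erase zs) := by
  unfold MM
  conv_lhs => unfold MR
  rw [Submodule.span_le]
  rintro f ⟨C, ρ, hC, hρ, hf⟩
  subst hf
  by_cases h : zs ∈ C
  · have h0 : mr (YY w) C ρ = 0 := by
      unfold mr
      apply Matrix.det_eq_zero_of_column_eq_zero (⟨zs, h⟩ : C)
      intro i
      simp only [Matrix.of_apply]
      by_contra h1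
      have h2 := YY_ne w h1
      have h3 := (mem_QsFr w zs _ θ).1 (hρ i i.2)
      exact absurd (lt_of_lt_of_le h2.1 h3.1) (lt_irrefl _)
    rw [h0]
    exact Submodule.zero_mem _
  · apply Submodule.subset_span
    refine ⟨C, ρ, ?_, hρ, rfl⟩
    intro x hx
    rw [Finset.mem_erase]
    exact ⟨fun h1 => h (h1 ▸ hx), hC hx⟩

end XLY

open XLY in
theorem LY_pf (h1 : S_EX) (h2 : S_MRM) : S_LY := by
  intro n w a e z zs θ hS hθ
  have hz := hS.hz
  have hzs := hS.hzs
  have hlt := hS.hlt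
  have e1 := add_row w a e z zs hS h2
  have e2 := erase_col w zs θ
  refine (mul_le_mul' e1 e2).trans ?_
  refine (h1 (Fin n) (PR n) (YY w) (Qs w (Fr zs) θ) ((Qs w (Fr zs) θ).erase zs)
    (insert z (Gs w z)) (insert zs (Gs w z)) (Qs w (Fr zs) e) (Qs w (Fr zs) e)
    ((Qs w (Fr zs) θ).erase zs) ?_ ?_ ?_).trans ?_
  · intro r hr c hc hrc
    have h3 := YY_ne w hrc
    rw [mem_QsFr] at hr
    rw [Finset.mem_insert] at hc
    rcases hc with hc | hc
    · subst hc
      exact absurd (lt_of_lt_of_le h3.1 hr.1) (lt_irrefl _)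
    · rw [mem_Gs] at hc
      have h4 := h3.2
      have h5 := hc.2
      rw [Fin.lt_def] at h4 h5
      rw [mem_QsFr, mem_QsFr]
      refine ⟨⟨hr.1, by omega⟩, ⟨hr.1.trans h3.1.le, by omega⟩⟩
  · intro c hc
    exact Or.inr hc
  · intro c hc r hr hr2
    rw [mem_QsFr] at hc hr hr2
    by_contra h3
    have h4 := (YY_ne w h3).2
    rw [Fin.lt_def] at h4
    exact hr2 ⟨hr.1, by omega⟩
  · refine mul_le_mul' ?_ le_rfl
    unfold MM
    apply MR_mono
    · intro x hx
      rw [Finset.mem_union, Finset.mem_insert, mem_Gs, mem_QsFr] at hx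
      rw [mem_QsFr]
      rcases hx with hx | hx | hx
      · exact ⟨hlt.le.trans hx.1, hx.2⟩
      · subst hx
        exact ⟨le_rfl, by omega⟩
      · have h5 := hx.2
        rw [Fin.lt_def] at h5
        exact ⟨hx.1.le, by omega⟩
    · intro x hx
      rw [Finset.mem_union, Finset.mem_insert, mem_Gs, Finset.mem_erase, mem_QsFr] at hx
      rw [mem_QsFr]
      rcases hx with (hx | hx) | hx
      · subst hx
        exact ⟨hlt.le, by omega⟩
      · have h5 := hx.2
        rw [Fin.lt_def] at h5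
        exact ⟨hx.1.le, by omega⟩
      · exact ⟨hlt.le.trans hx.2.1, hx.2.2⟩

end Pool.Agent.Work.MP_ca14f8_co.L3
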