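import Pool.Agent.Work.MP_ca14f8_co.L3.Stmts

/-!
Item M1 of the block L3 of MP_ca14f8_co: `S_R1` (rank one perturbations) and `S_M1` (one window).
-/

set_option autoImplicit false
open Classical

namespace Pool.Agent.Work.MP_ca14f8_co.L3

namespace XM1

theorem natDegree_det_map_C {γ R : Type} [Fintype γ] [DecidableEq γ] [CommRing R]
    (M : Matrix γ γ R) :
    (Matrix.of (fun a b => Polynomial.C (M a b) : γ → γ → Polynomial R)).det.natDegree = 0 := by
  have h : (Matrix.of (fun a b => Polynomial.C (M a b) : γ → γ → Polynomial R)) =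
      (Polynomial.C : R →+* Polynomial R).mapMatrix M := by
    ext a b : 2
    rfl
  rw [h, ← RingHom.map_det]
  exact Polynomial.natDegree_C _

end XM1

theorem R1_pf : S_R1 := by
  intro γ R _ _ _ M u v
  -- the bordered matrix
  set N : (γ ⊕ Unit → Polynomial R) → Matrix (γ ⊕ Unit) (γ ⊕ Unit) (Polynomial R) := fun c =>
    (Matrix.fromBlocks (Matrix.of fun a b => Polynomial.C (M a b)) 0
      (Matrix.of fun (_ : Unit) b => Polynomial.C (v b)) 1).updateCol (Sum.inr ()) c with hN
  set c1 : γ ⊕ Unit → R := Sum.elim (fun a => -u a) 0 with hc1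
  set c2 : γ ⊕ Unit → R := Sum.elim 0 1 with hc2
  have hdet : (Matrix.of (fun a b => Polynomial.C (M a b) +
      Polynomial.X * Polynomial.C (u a * v b) : γ → γ → Polynomial R)).det =
      (N ((Polynomial.X : Polynomial R) • (fun s => Polynomial.C (c1 s)) +
        fun s => Polynomial.C (c2 s))).det := by
    have h1 : N ((Polynomial.X : Polynomial R) • (fun s => Polynomial.C (c1 s)) +
        fun s => Polynomial.C (c2 s)) =
        Matrix.fromBlocks (Matrix.of fun a b => Polynomial.C (M a b))
          (Matrix.of fun a (_ : Unit) => - (Polynomial.X * Polynomial.C (u a)))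
          (Matrix.of fun (_ : Unit) b => Polynomial.C (v b)) 1 := by
      ext s t : 2
      rcases s with s | s <;> rcases t with t | t <;> simp [hN, hc1, hc2]
    rw [h1, Matrix.det_fromBlocks_one₂₂]
    congr 1
    ext a b : 2
    simp only [Matrix.of_apply, Matrix.sub_apply, Matrix.mul_apply, Finset.univ_unique,
      Finset.sum_singleton, map_mul]
    ring_nf
  have hconst : ∀ c : γ ⊕ Unit → R, (N fun s => Polynomial.C (c s)).det.natDegree = 0 := by
    intro c
    have h2 : N (fun s => Polynomial.C (c s)) = Matrix.of (fun s t => Polynomial.C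
        (((Matrix.fromBlocks (Matrix.of fun a b => M a b) 0
          (Matrix.of fun (_ : Unit) b => v b) 1).updateCol (Sum.inr ()) c) s t)) := by
      ext s t : 2
      rcases s with s | s <;> rcases t with t | t <;> simp [hN, Matrix.updateCol_apply]
    rw [h2]
    exact XM1.natDegree_det_map_C _
  rw [hdet, hN]
  simp only []
  rw [Matrix.det_updateCol_add, Matrix.det_updateCol_smul]
  refine (Polynomial.natDegree_add_le _ _).trans (max_le ?_ ?_)
  · refine Polynomial.natDegree_mul_le.trans ?_
    have h3 := hconst c1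
    have h4 : (Polynomial.X : Polynomial R).natDegree ≤ 1 := Polynomial.natDegree_X_le
    have h5 : ((Matrix.fromBlocks (Matrix.of fun a b => Polynomial.C (M a b)) 0
      (Matrix.of fun (_ : Unit) b => Polynomial.C (v b)) 1).updateCol (Sum.inr ())
      (fun s => Polynomial.C (c1 s))).det.natDegree = 0 := h3
    rw [h5]
    omega
  · exact (hconst c2).le.trans (Nat.zero_le _)

namespace XM1

variable {n : ℕ}

theorem cell_of_mem {w : Equiv.Perm (Fin n)} {α q j b : Fin n} (hj : j ∈ AA w α q)
    (hb : b ∈ BB w α q) : j < b ∧ w b < w j := by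
  simp only [AA, BB, Finset.mem_filter, Finset.mem_univ, true_and] at hj hb
  exact ⟨lt_of_le_of_lt hj.1 hb.1, lt_of_le_of_lt hb.2 hj.2⟩

/-- the entries after the substitution -/
theorem phi_entry (w : Equiv.Perm (Fin n)) (α q j b : Fin n) :
    Phi (AA w α q) (BB w α q) (YY w j b) =
      Polynomial.C ((if j < b ∧ w b < w j then MvPolynomial.X (Sum.inl (j, b)) else 0 : QR n)) +
        Polynomial.X * Polynomial.C
          ((if j ∈ AA w α q then MvPolynomial.X (Sum.inr (Sum.inl j)) else 0 : QR n) *
            (if b ∈ BB w α q then MvPolynomial.X (Sum.inr (Sum.inr b)) else 0 : QR n)) := by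
  unfold YY Phi
  rw [Matrix.of_apply]
  by_cases hc : j < b ∧ w b < w j
  · rw [if_pos hc, if_pos hc, MvPolynomial.aeval_X]
    congr 1
    by_cases h1 : j ∈ AA w α q
    · by_cases h2 : b ∈ BB w α q
      · rw [if_pos ⟨h1, h2⟩, if_pos h1, if_pos h2]
      · rw [if_neg (fun h => h2 h.2), if_neg h2, mul_zero, map_zero, mul_zero]
    · rw [if_neg (fun h => h1 h.1), if_neg h1, zero_mul, map_zero, mul_zero]
  · rw [if_neg hc, if_neg hc, map_zero, map_zero]
    by_cases h1 : j ∈ AA w α q
    · by_cases h2 : b ∈ BB w α q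
      · exact absurd (cell_of_mem h1 h2) hc
      · rw [if_neg h2, mul_zero, map_zero, mul_zero, add_zero]
    · rw [if_neg h1, zero_mul, map_zero, mul_zero, add_zero]

theorem phi_mr (w : Equiv.Perm (Fin n)) (α q : Fin n) (C : Finset (Fin n)) (ρ : Fin n → Fin n) :
    Phi (AA w α q) (BB w α q) (mr (YY w) C ρ) =
      (Matrix.of (fun (a b : C) => Phi (AA w α q) (BB w α q) (YY w (ρ a) b))).det := by
  unfold mr
  rw [AlgHom.map_det]
  congr 1

theorem not_both {w : Equiv.Perm (Fin n)} {i α q : Fin n} (h1 : α < q) (h2 : w q < w α)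
    (h : ¬ (α ∈ Gs w i ∧ q ∈ Gs w i)) {j b : Fin n} (hj : j ∈ Gs w i) (hb : b ∈ Gs w i) :
    ¬ (j ∈ AA w α q ∧ b ∈ BB w α q) := by
  rintro ⟨h3, h4⟩
  simp only [AA, BB, Gs, Finset.mem_filter, Finset.mem_univ, true_and] at h hj hb h3 h4
  have h5 : i < α := lt_of_lt_of_le hj.1 h3.1
  have h6 : w i < w q := lt_of_lt_of_le hb.2 h4.2
  exact h ⟨⟨h5, h6.trans h2⟩, h5.trans h1, h6⟩

end XM1

open XM1 in
theorem M1_pf (hR1 : S_R1) : S_M1 := by
  intro n w i α q h1 h2 F hF
  unfold MM MR at hF
  induction hF using Submodule.span_induction with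
  | mem F hF =>
    obtain ⟨C, ρ, hC, hρ, rfl⟩ := hF
    rw [phi_mr]
    by_cases h : α ∈ Gs w i ∧ q ∈ Gs w i
    · rw [if_pos h]
      simp only [phi_entry]
      exact hR1 C (QR n)
        (Matrix.of fun a b : C => (if ρ a < b ∧ w b < w (ρ a) then
          MvPolynomial.X (Sum.inl (ρ a, (b : Fin n))) else 0 : QR n))
        (fun a => (if ρ a ∈ AA w α q then MvPolynomial.X (Sum.inr (Sum.inl (ρ a))) else 0 : QR n))
        (fun b => (if (b : Fin n) ∈ BB w α q then MvPolynomial.X (Sum.inr (Sum.inr (b : Fin n)))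
          else 0 : QR n))
    · rw [if_neg h]
      have h3 : (Matrix.of (fun (a b : C) => Phi (AA w α q) (BB w α q) (YY w (ρ a) b))) =
          Matrix.of (fun (a b : C) => Polynomial.C (Matrix.of (fun (a b : C) =>
            (if ρ a < b ∧ w b < w (ρ a) then
              MvPolynomial.X (Sum.inl (ρ a, (b : Fin n))) else 0 : QR n)) a b)) := by
        ext a b : 2
        rw [Matrix.of_apply, Matrix.of_apply, Matrix.of_apply, phi_entry]
        have h4 := not_both h1 h2 h (hρ a a.2) (hC b.2)
        have h5 : ((if ρ a ∈ AA w α q then MvPolynomial.X (Sum.inr (Sum.inl (ρ a))) else 0 : QR n) *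
            (if (b : Fin n) ∈ BB w α q then MvPolynomial.X (Sum.inr (Sum.inr (b : Fin n)))
              else 0 : QR n)) = 0 := by
          by_cases h6 : ρ a ∈ AA w α q
          · rw [if_neg (fun h7 => h4 ⟨h6, h7⟩), mul_zero]
          · rw [if_neg h6, zero_mul]
        rw [h5, map_zero, mul_zero, add_zero]
      rw [h3]
      exact (natDegree_det_map_C _).le
  | zero => simp
  | add F G _ _ hF hG =>
    rw [map_add]
    exact (Polynomial.natDegree_add_le _ _).trans (max_le hF hG)
  | smul c F _ hF =>
    rw [map_smul]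
    exact (Polynomial.natDegree_smul_le _ _).trans hF

end Pool.Agent.Work.MP_ca14f8_co.L3
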