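import Pool.Agent.Work.MP_ca14f8_co.L3.Stmts

set_option autoImplicit false
open Classical

namespace Pool.Agent.Work.MP_ca14f8_co.L3

namespace XME

variable {n : ℕ}

lemma MM_supp (w : Equiv.Perm (Fin n)) (S : Finset (Fin n)) (F : PR n) (hF : F ∈ MM w S) :
    F ∈ MvPolynomial.supported ℚ {p : Fin n × Fin n | p.1 < p.2 ∧ w p.2 < w p.1} := by
  unfold MM MR at hF
  induction hF using Submodule.span_induction with
  | mem x hx =>
    obtain ⟨C, ρ, -, -, rfl⟩ := hx
    unfold mr
    rw [Matrix.det_apply]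
    refine Subalgebra.sum_mem _ (fun σ _ => ?_)
    rw [Units.smul_def, zsmul_eq_mul]
    refine Subalgebra.mul_mem _ (intCast_mem _ _) (Subalgebra.prod_mem _ (fun a _ => ?_))
    simp only [Matrix.of_apply, YY]
    split_ifs with h
    · exact MvPolynomial.X_mem_supported.mpr h
    · exact Subalgebra.zero_mem _
  | zero => exact Subalgebra.zero_mem _
  | add x y _ _ hx hy => exact Subalgebra.add_mem _ hx hy
  | smul a x _ hx => exact Subalgebra.smul_mem _ hx a

lemma aux (hM1 : S_M1) (w : Equiv.Perm (Fin n)) (s : Finset (Fin n)) :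
    ∀ F ∈ ∏ i ∈ s, MM w (Gs w i),
      F ∈ MvPolynomial.supported ℚ {p : Fin n × Fin n | p.1 < p.2 ∧ w p.2 < w p.1} ∧
      ∀ α q : Fin n, α < q → w q < w α → (Phi (AA w α q) (BB w α q) F).natDegree ≤
        ∑ i ∈ s, if α ∈ Gs w i ∧ q ∈ Gs w i then 1 else 0 := by
  induction s using Finset.induction_on with
  | empty =>
    intro F hF
    rw [Finset.prod_empty, Submodule.mem_one] at hF
    obtain ⟨c, rfl⟩ := hF
    refine ⟨Subalgebra.algebraMap_mem _ c, ?_⟩
    intro α q _ _
    rw [AlgHom.commutes]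
    rw [Polynomial.algebraMap_apply]
    simp
  | insert i s hi ih =>
    intro F hF
    rw [Finset.prod_insert hi] at hF
    refine Submodule.mul_induction_on hF ?_ ?_
    · intro A hA B hB
      obtain ⟨h1, h2⟩ := ih B hB
      refine ⟨Subalgebra.mul_mem _ (MM_supp w _ A hA) h1, ?_⟩
      intro α q h3 h4
      rw [map_mul, Finset.sum_insert hi]
      refine Polynomial.natDegree_mul_le.trans (add_le_add ?_ (h2 α q h3 h4))
      exact hM1 n w i α q h3 h4 A hA
    · rintro A B ⟨h1, h2⟩ ⟨h3, h4⟩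
      refine ⟨Subalgebra.add_mem _ h1 h3, ?_⟩
      intro α q h5 h6
      rw [map_add]
      exact (Polynomial.natDegree_add_le _ _).trans (max_le (h2 α q h5 h6) (h4 α q h5 h6))

end XME

theorem ME_pf (hM1 : S_M1) : S_ME := by
  intro n w F hF
  obtain ⟨h1, h2⟩ := XME.aux hM1 w Finset.univ F hF
  refine ⟨h1, ?_⟩
  intro α q h3 h4
  refine (h2 α q h3 h4).trans ?_
  unfold cc
  refine le_trans ?_ (Nat.le_add_right _ _)
  rw [← Finset.card_filter]
  refine Finset.card_le_card ?_
  intro i hi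
  simp only [Gs, Finset.mem_filter, Finset.mem_univ, true_and] at hi ⊢
  exact ⟨hi.1.1, hi.2.2⟩

end Pool.Agent.Work.MP_ca14f8_co.L3
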