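import Pool.Agent.Work.MP_ca14f8_co.L3.Stmts

/-!
Item MRM of the block L3 of MP_ca14f8_co: minors with labels and Lemma X.
-/

set_option autoImplicit false
open Classical

namespace Pool.Agent.Work.MP_ca14f8_co.L3

namespace XMRM

/-- The span of the minors is monotone in the sets of rows and columns. -/
theorem MR_mono {ι R : Type} [DecidableEq ι] [CommRing R] [Algebra ℚ R]
    (Y : Matrix ι ι R) {P P' Q Q' : Finset ι} (hP : P ⊆ P') (hQ : Q ⊆ Q') :
    MR Y P Q ≤ MR Y P' Q' := by
  unfold MR
  apply Submodule.span_mono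
  rintro f ⟨C, ρ, hC, hρ, hf⟩
  exact ⟨C, ρ, hC.trans hQ, fun q hq => hP (hρ q hq), hf⟩

end XMRM

theorem MRM_pf : S_MRM := by
  intro ι R γ _ _ _ _ _ Y P Q r c hr hc
  by_cases hinj : Function.Injective c
  · -- reindex by the image of `c`
    let C : Finset ι := Finset.univ.image c
    have hmem : ∀ x, c x ∈ C := fun x => Finset.mem_image_of_mem c (Finset.mem_univ x)
    let f : γ → C := fun x => ⟨c x, hmem x⟩
    have hf : Function.Bijective f := by
      constructor
      · intro x y hxy
        exact hinj (congrArg Subtype.val hxy)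
      · rintro ⟨q, hq⟩
        obtain ⟨x, _, hx⟩ := Finset.mem_image.1 hq
        exact ⟨x, Subtype.ext hx⟩
    let e : γ ≃ C := Equiv.ofBijective f hf
    let ρ : ι → ι := fun q => if h : q ∈ C then r (e.symm ⟨q, h⟩) else q
    have hρ : ∀ x, ρ (c x) = r x := by
      intro x
      have h1 : e.symm ⟨c x, hmem x⟩ = x := by
        rw [Equiv.symm_apply_eq]
        rfl
      simp only [ρ]
      rw [dif_pos (hmem x), h1]
    have hkey : (Matrix.of (fun a b : γ => Y (r a) (c b))).det = mr Y C ρ := by
      unfold mr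
      rw [← Matrix.det_submatrix_equiv_self e]
      congr 1
      ext a b
      simp only [Matrix.submatrix_apply, Matrix.of_apply]
      have h1 : ((e a : C) : ι) = c a := rfl
      have h2 : ((e b : C) : ι) = c b := rfl
      rw [h1, h2, hρ]
    rw [hkey]
    unfold MR
    apply Submodule.subset_span
    refine ⟨C, ρ, ?_, ?_, rfl⟩
    · intro q hq
      obtain ⟨x, _, hx⟩ := Finset.mem_image.1 hq
      rw [← hx]
      exact hc x
    · intro q hq
      obtain ⟨x, _, hx⟩ := Finset.mem_image.1 hq
      rw [← hx, hρ]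
      exact hr x
  · -- two equal columns
    have h1 : ∃ x y, c x = c y ∧ x ≠ y := by
      by_contra hcon
      apply hinj
      intro x y hxy
      by_contra hne
      exact hcon ⟨x, y, hxy, hne⟩
    obtain ⟨x, y, hxy, hne⟩ := h1
    have h2 : (Matrix.of (fun a b : γ => Y (r a) (c b))).det = 0 := by
      apply Matrix.det_zero_of_column_eq hne
      intro k
      simp only [Matrix.of_apply]
      rw [hxy]
    rw [h2]
    exact Submodule.zero_mem _

theorem LX_pf (hEX : S_EX) : S_LX := by
  intro n w U U' θ θ' hU hU' hUU hθ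
  have hne : ∀ r c : Fin n, YY w r c ≠ 0 → r < c ∧ w c < w r := by
    intro r c h
    by_contra hcon
    apply h
    simp only [YY, Matrix.of_apply]
    rw [if_neg hcon]
  have h1 := hEX (Fin n) (PR n) (YY w) (Qs w U θ) (Qs w U θ) (Qs w U' θ') (Qs w U' θ')
    (Qs w U θ') (Qs w U θ') (Qs w U θ) ?_ ?_ ?_
  · have h2 : Qs w U θ ∪ Qs w U' θ' ⊆ Qs w U' θ := by
      intro x hx
      rw [Finset.mem_union] at hx
      simp only [Qs, Finset.mem_filter] at hx ⊢
      rcases hx with hx | hx
      · exact ⟨hUU hx.1, hx.2⟩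
      · exact ⟨hx.1, hθ.trans hx.2⟩
    have h3 : Qs w U' θ' ∪ Qs w U θ ⊆ Qs w U' θ := by
      rw [Finset.union_comm]
      exact h2
    unfold MM
    rw [mul_comm]
    exact h1.trans (mul_le_mul' (XMRM.MR_mono (YY w) h2 h3) le_rfl)
  · intro r hr c hc hrc
    obtain ⟨h4, h5⟩ := hne r c hrc
    simp only [Qs, Finset.mem_filter] at hr hc ⊢
    have h6 : (w c).val < (w r).val := h5
    refine ⟨⟨hr.1, ?_⟩, ⟨hU r hr.1 c h4.le, hc.2⟩⟩
    omega
  · intro c hc
    exact Or.inr hc
  · intro c hc r hr hr'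
    by_contra hcon
    obtain ⟨h4, h5⟩ := hne r c hcon
    apply hr'
    simp only [Qs, Finset.mem_filter] at hr hc ⊢
    have h6 : (w c).val < (w r).val := h5
    refine ⟨hr.1, ?_⟩
    omega

end Pool.Agent.Work.MP_ca14f8_co.L3
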