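import Pool.Agent.Work.MP_ca14f8_co.L3.Stmts

/-!
Item PM of the block L3: smaller directions, and the vanishing of a variable in a direction of
degree zero.
-/

set_option autoImplicit false
open Classical

namespace Pool.Agent.Work.MP_ca14f8_co.L3

namespace XPM

/-- The specialisation of the coefficients. -/
noncomputable def sg {n : ℕ} (A B : Finset (Fin n)) : QR n →ₐ[ℚ] QR n :=
  MvPolynomial.aeval (fun s : (Fin n × Fin n) ⊕ (Fin n ⊕ Fin n) =>
    match s with
    | Sum.inl p => MvPolynomial.X (Sum.inl p)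
    | Sum.inr (Sum.inl j) => if j ∈ A then MvPolynomial.X (Sum.inr (Sum.inl j)) else 0
    | Sum.inr (Sum.inr q) => if q ∈ B then MvPolynomial.X (Sum.inr (Sum.inr q)) else 0)

lemma sg_inl {n : ℕ} (A B : Finset (Fin n)) (p : Fin n × Fin n) :
    sg A B (MvPolynomial.X (Sum.inl p)) = MvPolynomial.X (Sum.inl p) := by
  simp [sg]

lemma sg_u {n : ℕ} (A B : Finset (Fin n)) (j : Fin n) :
    sg A B (MvPolynomial.X (Sum.inr (Sum.inl j))) =
      if j ∈ A then MvPolynomial.X (Sum.inr (Sum.inl j)) else 0 := by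
  simp [sg]

lemma sg_v {n : ℕ} (A B : Finset (Fin n)) (q : Fin n) :
    sg A B (MvPolynomial.X (Sum.inr (Sum.inr q))) =
      if q ∈ B then MvPolynomial.X (Sum.inr (Sum.inr q)) else 0 := by
  simp [sg]

lemma Phi_X {n : ℕ} (A B : Finset (Fin n)) (p : Fin n × Fin n) :
    Phi A B (MvPolynomial.X p) = Polynomial.C (MvPolynomial.X (Sum.inl p)) +
      if p.1 ∈ A ∧ p.2 ∈ B then
        Polynomial.X * Polynomial.C (MvPolynomial.X (Sum.inr (Sum.inl p.1)) *
          MvPolynomial.X (Sum.inr (Sum.inr p.2)))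
      else 0 := by
  simp only [Phi, MvPolynomial.aeval_X]

lemma comp_eq {n : ℕ} (A B A' B' : Finset (Fin n)) (hA : A ⊆ A') (hB : B ⊆ B') :
    (Polynomial.mapAlgHom (sg A B)).comp (Phi A' B') = Phi A B := by
  apply MvPolynomial.algHom_ext
  intro p
  rw [AlgHom.comp_apply, Phi_X, Phi_X]
  simp only [Polynomial.coe_mapAlgHom, Polynomial.map_add, Polynomial.map_C]
  congr 1
  · congr 1
    exact sg_inl A B p
  · by_cases h1 : p.1 ∈ A ∧ p.2 ∈ B
    · rw [if_pos h1, if_pos ⟨hA h1.1, hB h1.2⟩]
      rw [Polynomial.map_mul, Polynomial.map_X, Polynomial.map_C]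
      congr 2
      change (sg A B) _ = _
      rw [map_mul, sg_u, sg_v, if_pos h1.1, if_pos h1.2]
    · rw [if_neg h1]
      by_cases h2 : p.1 ∈ A' ∧ p.2 ∈ B'
      · rw [if_pos h2, Polynomial.map_mul, Polynomial.map_X, Polynomial.map_C]
        have : (sg A B) (MvPolynomial.X (Sum.inr (Sum.inl p.1)) *
            MvPolynomial.X (Sum.inr (Sum.inr p.2))) = 0 := by
          rw [map_mul, sg_u, sg_v]
          by_cases h3 : p.1 ∈ A
          · have h4 : p.2 ∉ B := fun h => h1 ⟨h3, h⟩
            rw [if_neg h4, mul_zero]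
          · rw [if_neg h3, zero_mul]
        have h5 : ((sg A B : QR n →ₐ[ℚ] QR n) : QR n →+* QR n)
            (MvPolynomial.X (Sum.inr (Sum.inl p.1)) *
            MvPolynomial.X (Sum.inr (Sum.inr p.2))) = 0 := this
        rw [h5, map_zero, mul_zero]
      · rw [if_neg h2, Polynomial.map_zero]

/-- The evaluation of the coefficients at `u, v = 1`, `y_(α,q) = 0`. -/
noncomputable def et {n : ℕ} (a : Fin n × Fin n) : QR n →ₐ[ℚ] PR n :=
  MvPolynomial.aeval (fun s : (Fin n × Fin n) ⊕ (Fin n ⊕ Fin n) =>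
    match s with
    | Sum.inl p => if p = a then 0 else MvPolynomial.X p
    | Sum.inr _ => 1)

lemma et_inl {n : ℕ} (a p : Fin n × Fin n) :
    et a (MvPolynomial.X (Sum.inl p)) = if p = a then 0 else MvPolynomial.X p := by
  simp [et]

lemma et_inr {n : ℕ} (a : Fin n × Fin n) (p : Fin n ⊕ Fin n) :
    et a (MvPolynomial.X (Sum.inr p)) = 1 := by
  simp [et]

/-- The substitution `T ↦ t`. -/
noncomputable def ps {n : ℕ} (a : Fin n × Fin n) (t : PR n) : Polynomial (QR n) →+* PR n :=
  Polynomial.eval₂RingHom ((et a : QR n →ₐ[ℚ] PR n) : QR n →+* PR n) t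

lemma ps_C {n : ℕ} (a : Fin n × Fin n) (t : PR n) (c : QR n) :
    ps a t (Polynomial.C c) = et a c := by
  simp [ps]

lemma ps_X {n : ℕ} (a : Fin n × Fin n) (t : PR n) : ps a t Polynomial.X = t := by
  simp [ps]

lemma ps_Phi {n : ℕ} (α q : Fin n) (t : PR n) (F : PR n) :
    ps (α, q) t (Phi {α} {q} F) =
      MvPolynomial.aeval (fun p => if p = (α, q) then t else MvPolynomial.X p) F := by
  have h : (ps (α, q) t).comp ((Phi {α} {q} : PR n →ₐ[ℚ] Polynomial (QR n)) :
        PR n →+* Polynomial (QR n)) =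
      ((MvPolynomial.aeval (fun p => if p = (α, q) then t else MvPolynomial.X p) :
        PR n →ₐ[ℚ] PR n) : PR n →+* PR n) := by
    apply MvPolynomial.ringHom_ext
    · intro r
      simp only [RingHom.comp_apply, RingHom.coe_coe]
      have h1 : Phi {α} {q} (MvPolynomial.C r : PR n) =
          Polynomial.C (MvPolynomial.C r) := by
        rw [Phi, ← MvPolynomial.algebraMap_eq, AlgHom.commutes]
        rfl
      rw [h1, ps_C]
      rw [← MvPolynomial.algebraMap_eq, ← MvPolynomial.algebraMap_eq, AlgHom.commutes,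
        AlgHom.commutes]
    · intro p
      simp only [RingHom.comp_apply, RingHom.coe_coe]
      rw [Phi_X, map_add, ps_C, et_inl, MvPolynomial.aeval_X]
      by_cases hp : p = (α, q)
      · rw [if_pos hp, if_pos hp]
        subst hp
        rw [if_pos ⟨Finset.mem_singleton_self _, Finset.mem_singleton_self _⟩, map_mul, ps_X, ps_C,
          map_mul, et_inr, et_inr, zero_add, mul_one, mul_one]
      · rw [if_neg hp, if_neg hp]
        have h2 : ¬ (p.1 ∈ ({α} : Finset (Fin n)) ∧ p.2 ∈ ({q} : Finset (Fin n))) := by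
          rintro ⟨h3, h4⟩
          rw [Finset.mem_singleton] at h3 h4
          exact hp (Prod.ext h3 h4)
        rw [if_neg h2, map_zero, add_zero]
  exact RingHom.congr_fun h F

end XPM

open XPM in
/-- Smaller direction. -/
theorem PM_pf : S_PM := by
  intro n A B A' B' hA hB F
  have h : Phi A B F = (Phi A' B' F).map ((sg A B : QR n →ₐ[ℚ] QR n) : QR n →+* QR n) := by
    rw [← comp_eq A B A' B' hA hB]
    rfl
  rw [h]
  exact Polynomial.natDegree_map_le

open XPM in
/-- Degree zero. -/
theorem PZ_pf : S_PZ := by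
  intro n A B α q F hα hq hd
  have h1 : (Phi {α} {q} F).natDegree = 0 := by
    have := PM_pf n {α} {q} A B (by simpa using hα) (by simpa using hq) F
    omega
  obtain ⟨c, hc⟩ := Polynomial.natDegree_eq_zero.mp h1
  have h2 : ∀ t : PR n, MvPolynomial.aeval
      (fun p => if p = (α, q) then t else MvPolynomial.X p) F = et (α, q) c := by
    intro t
    rw [← ps_Phi, ← hc, ps_C]
  have h3 : F = MvPolynomial.aeval
      (fun p => if p = (α, q) then (0 : PR n) else MvPolynomial.X p) F := by
    rw [h2 0, ← h2 (MvPolynomial.X (α, q))]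
    have h4 : (fun p : Fin n × Fin n => if p = (α, q) then (MvPolynomial.X (α, q) : PR n)
        else MvPolynomial.X p) = MvPolynomial.X := by
      funext p
      by_cases hp : p = (α, q)
      · rw [if_pos hp, hp]
      · rw [if_neg hp]
    rw [h4, MvPolynomial.aeval_X_left_apply]
  rw [h3]
  generalize F = G
  induction G using MvPolynomial.induction_on with
  | C r =>
    rw [MvPolynomial.aeval_C]
    exact Subalgebra.algebraMap_mem _ r
  | add p q' hp hq' =>
    rw [map_add]
    exact Subalgebra.add_mem _ hp hq'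
  | mul_X p x hp =>
    rw [map_mul, MvPolynomial.aeval_X]
    refine Subalgebra.mul_mem _ hp ?_
    by_cases hx : x = (α, q)
    · rw [if_pos hx]
      exact Subalgebra.zero_mem _
    · rw [if_neg hx]
      exact MvPolynomial.X_mem_supported.mpr hx

end Pool.Agent.Work.MP_ca14f8_co.L3
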