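import Pool.Agent.Work.MP_ca14f8_co.L3.Stmts

/-!
Item REC: the recursion of `Ups (cns a w)`.
-/

set_option autoImplicit false
open Classical

namespace Pool.Agent.Work.MP_ca14f8_co.L3

namespace XREC

variable {n : ℕ}

/-- The recursion of `Ups` in terms of `NN`. -/
theorem Ups_rec' (v : Equiv.Perm (Fin n)) :
    ((inv v).card : ℚ) * Ups v = ∑ k ∈ Finset.range (n - 1), ((k : ℚ) + 1) * NN k Ups v := by
  rw [Ups_rec]
  have h0 : ∑ k ∈ Finset.range (n - 1), ((k : ℚ) + 1) * NN k Ups v =
      ∑ k ∈ (Finset.range (n - 1)).filter (fun k => ∃ h : k + 1 < n,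
        v.symm ⟨k + 1, h⟩ < v.symm ⟨k, Nat.lt_of_succ_lt h⟩), ((k : ℚ) + 1) * NN k Ups v := by
    rw [Finset.sum_filter]
    refine Finset.sum_congr rfl fun k _ => ?_
    by_cases h : ∃ h : k + 1 < n, v.symm ⟨k + 1, h⟩ < v.symm ⟨k, Nat.lt_of_succ_lt h⟩
    · rw [if_pos h]
    · rw [if_neg h]
      have : NN k Ups v = 0 := by
        unfold NN
        by_cases h1 : k + 1 < n
        · rw [dif_pos h1, if_neg]
          exact fun h2 => h ⟨h1, h2⟩
        · rw [dif_neg h1]
      rw [this, mul_zero]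
  rw [h0]
  refine Finset.sum_bij (fun p _ => p.1.val) ?_ ?_ ?_ ?_
  · intro p hp
    rw [mem_Desc] at hp
    have h1 : p.1.val + 1 < n := by have := p.2.isLt; omega
    rw [Finset.mem_filter, Finset.mem_range]
    refine ⟨by omega, h1, ?_⟩
    have h2 : (⟨p.1.val + 1, h1⟩ : Fin n) = p.2 := Fin.ext hp.1.symm
    rw [h2]
    exact hp.2
  · intro p hp q hq h
    rw [mem_Desc] at hp hq
    have h1 : p.1 = q.1 := Fin.ext h
    have h2 : p.2 = q.2 := Fin.ext (by rw [hp.1, hq.1, h1])
    exact Prod.ext h1 h2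
  · intro k hk
    rw [Finset.mem_filter] at hk
    obtain ⟨_, h1, h2⟩ := hk
    refine ⟨(⟨k, Nat.lt_of_succ_lt h1⟩, ⟨k + 1, h1⟩), ?_, rfl⟩
    rw [mem_Desc]
    exact ⟨rfl, h2⟩
  · intro p hp
    rw [mem_Desc] at hp
    have h1 : p.1.val + 1 < n := by have := p.2.isLt; omega
    have h2 : (⟨p.1.val + 1, h1⟩ : Fin n) = p.2 := Fin.ext hp.1.symm
    congr 1
    unfold NN
    rw [dif_pos h1, h2, if_pos hp.2]

theorem symm_self (hC : S_CNS) (a : Fin (n + 1)) (w : Equiv.Perm (Fin n)) :
    (cns a w).symm a = 0 := by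
  rw [Equiv.symm_apply_eq]
  exact (((hC n).1 a w).1).symm

theorem symm_succAbove (hC : S_CNS) (a : Fin (n + 1)) (w : Equiv.Perm (Fin n)) (y : Fin n) :
    (cns a w).symm (a.succAbove y) = (w.symm y).succ := by
  rw [Equiv.symm_apply_eq, ((hC n).1 a w).2, Equiv.apply_symm_apply]

theorem swap_cns (hC : S_CNS) (a : Fin (n + 1)) (w : Equiv.Perm (Fin n)) (x y : Fin n) :
    Equiv.swap (a.succAbove x) (a.succAbove y) * cns a w = cns a (Equiv.swap x y * w) := by
  refine Equiv.ext fun z => ?_
  rw [Equiv.Perm.mul_apply]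
  refine Fin.cases ?_ (fun z => ?_) z
  · rw [((hC n).1 a w).1, ((hC n).1 a _).1]
    exact Equiv.swap_apply_of_ne_of_ne (Fin.succAbove_ne a x).symm (Fin.succAbove_ne a y).symm
  · rw [((hC n).1 a w).2, ((hC n).1 a _).2, Equiv.Perm.mul_apply]
    exact Function.Injective.swap_apply Fin.succAbove_right_injective x y (w z)

theorem succAbove_val (a : Fin (n + 1)) (y : Fin n) :
    (a.succAbove y).val = if y.val < a.val then y.val else y.val + 1 := by
  unfold Fin.succAbove
  by_cases h : y.castSucc < a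
  · rw [if_pos h, if_pos (by simpa [Fin.lt_def] using h)]
    rfl
  · rw [if_neg h, if_neg (by simpa [Fin.lt_def] using h)]
    rfl

theorem swap_cns_pred (hC : S_CNS) (a b : Fin (n + 1)) (h : b.val + 1 = a.val)
    (w : Equiv.Perm (Fin n)) : Equiv.swap b a * cns a w = cns b w := by
  refine Equiv.ext fun z => ?_
  rw [Equiv.Perm.mul_apply]
  refine Fin.cases ?_ (fun z => ?_) z
  · rw [((hC n).1 a w).1, ((hC n).1 b w).1]
    exact Equiv.swap_apply_right b a
  · rw [((hC n).1 a w).2, ((hC n).1 b w).2]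
    have h1 := succAbove_val a (w z)
    have h2 := succAbove_val b (w z)
    rw [Equiv.swap_apply_def]
    split_ifs with h3 h4
    · apply Fin.ext
      rw [h2]
      have h5 : (a.succAbove (w z)).val = b.val := by rw [h3]
      rw [h1] at h5
      split_ifs at h5 ⊢ <;> omega
    · exact absurd h4 (Fin.succAbove_ne a (w z))
    · apply Fin.ext
      have h5 : (a.succAbove (w z)).val ≠ b.val := fun h6 => h3 (Fin.ext h6)
      rw [h1] at h5
      rw [h1, h2]
      split_ifs at h5 ⊢ <;> omega

/-- The number of inversions of `cns a w`. -/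
theorem card_inv_cns (hC : S_CNS) (a : Fin (n + 1)) (w : Equiv.Perm (Fin n)) :
    (inv (cns a w)).card = (inv w).card + a.val := by
  have h1 : inv (cns a w) = (inv w).image (fun p => (p.1.succ, p.2.succ)) ∪
      (Finset.univ.filter (fun x : Fin n => (w x).val < a.val)).image
        (fun x => ((0 : Fin (n + 1)), x.succ)) := by
    ext ⟨i, j⟩
    rw [mem_inv, Finset.mem_union, Finset.mem_image, Finset.mem_image]
    refine Fin.cases ?_ (fun i => ?_) i <;> refine Fin.cases ?_ (fun j => ?_) j
    · constructor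
      · rintro ⟨h, _⟩
        exact absurd h (lt_irrefl _)
      · rintro (⟨p, _, hp⟩ | ⟨x, _, hx⟩)
        · exact absurd (congrArg Prod.fst hp) (Fin.succ_ne_zero _)
        · exact absurd (congrArg Prod.snd hx) (Fin.succ_ne_zero _)
    · dsimp only
      rw [((hC n).1 a w).1, ((hC n).1 a w).2, Fin.lt_def, Fin.lt_def, succAbove_val]
      constructor
      · rintro ⟨_, h⟩
        right
        refine ⟨j, ?_, rfl⟩
        rw [Finset.mem_filter]
        refine ⟨Finset.mem_univ _, ?_⟩
        split_ifs at h with h2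
        · exact h2
        · omega
      · rintro (⟨p, _, hp⟩ | ⟨x, hx, hx2⟩)
        · exact absurd (congrArg Prod.fst hp) (Fin.succ_ne_zero _)
        · have h3 : x = j := Fin.succ_injective _ (congrArg Prod.snd hx2)
          rw [Finset.mem_filter] at hx
          subst h3
          refine ⟨by simp, ?_⟩
          rw [if_pos hx.2]
          exact hx.2
    · constructor
      · rintro ⟨h, _⟩
        exact absurd h (by simp)
      · rintro (⟨p, _, hp⟩ | ⟨x, _, hx⟩)
        · exact absurd (congrArg Prod.snd hp) (Fin.succ_ne_zero _)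
        · exact absurd (congrArg Prod.snd hx) (Fin.succ_ne_zero _)
    · dsimp only
      rw [((hC n).1 a w).2, ((hC n).1 a w).2, Fin.succ_lt_succ_iff,
        Fin.succAbove_lt_succAbove_iff]
      constructor
      · rintro ⟨h, h'⟩
        left
        refine ⟨(i, j), ?_, rfl⟩
        rw [mem_inv]
        exact ⟨h, h'⟩
      · rintro (⟨p, hp, hp2⟩ | ⟨x, _, hx⟩)
        · rw [mem_inv] at hp
          have h3 : p.1 = i := Fin.succ_injective _ (congrArg Prod.fst hp2)
          have h4 : p.2 = j := Fin.succ_injective _ (congrArg Prod.snd hp2)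
          rw [← h3, ← h4]
          exact hp
        · exact absurd (congrArg Prod.fst hx).symm (Fin.succ_ne_zero _)
  rw [h1, Finset.card_union_of_disjoint, Finset.card_image_of_injective,
    Finset.card_image_of_injective]
  · congr 1
    have h2 : (Finset.univ.filter (fun x : Fin n => (w x).val < a.val)).card =
        (Finset.univ.filter (fun y : Fin n => y.val < a.val)).card := by
      refine Finset.card_bij (fun x _ => w x) ?_ ?_ ?_
      · intro x hx
        rw [Finset.mem_filter] at hx ⊢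
        exact ⟨Finset.mem_univ _, hx.2⟩
      · intro x _ y _ h
        exact w.injective h
      · intro y hy
        rw [Finset.mem_filter] at hy
        refine ⟨w.symm y, ?_, w.apply_symm_apply y⟩
        rw [Finset.mem_filter]
        exact ⟨Finset.mem_univ _, by rw [w.apply_symm_apply]; exact hy.2⟩
    rw [h2]
    have h3 : (Finset.univ.filter (fun y : Fin n => y.val < a.val)).image (fun y => y.val) =
        Finset.range a.val := by
      ext m
      rw [Finset.mem_image, Finset.mem_range]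
      constructor
      · rintro ⟨y, hy, rfl⟩
        exact (Finset.mem_filter.1 hy).2
      · intro hm
        have h4 : m < n := by have := a.isLt; omega
        exact ⟨⟨m, h4⟩, by rw [Finset.mem_filter]; exact ⟨Finset.mem_univ _, hm⟩, rfl⟩
    rw [← Finset.card_image_of_injective _ Fin.val_injective, h3, Finset.card_range]
  · intro x y h
    exact Fin.succ_injective _ (congrArg Prod.snd h)
  · intro p q h
    exact Prod.ext (Fin.succ_injective _ (congrArg Prod.fst h))
      (Fin.succ_injective _ (congrArg Prod.snd h))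
  · rw [Finset.disjoint_left]
    rintro p hp hq
    rw [Finset.mem_image] at hp hq
    obtain ⟨p', _, rfl⟩ := hp
    obtain ⟨x, _, hx⟩ := hq
    exact absurd (congrArg Prod.fst hx).symm (Fin.succ_ne_zero _)

theorem UU_val (a : Fin (n + 1)) (w : Equiv.Perm (Fin n)) : UU a.val w = Ups (cns a w) := by
  unfold UU
  rw [dif_pos a.isLt]

/-- Values below `a`. -/
theorem NN_low (hC : S_CNS) (a : Fin (n + 1)) (w : Equiv.Perm (Fin n)) (k : ℕ)
    (hk : k + 2 ≤ a.val) : NN k Ups (cns a w) = NN k (UU a.val) w := by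
  have ha := a.isLt
  have h1 : k + 1 < n + 1 := by omega
  have h2 : k + 1 < n := by omega
  have e1 : (⟨k + 1, h1⟩ : Fin (n + 1)) = a.succAbove ⟨k + 1, h2⟩ := by
    apply Fin.ext
    rw [succAbove_val, if_pos (by show k + 1 < a.val; omega)]
  have e2 : (⟨k, Nat.lt_of_succ_lt h1⟩ : Fin (n + 1)) =
      a.succAbove ⟨k, Nat.lt_of_succ_lt h2⟩ := by
    apply Fin.ext
    rw [succAbove_val, if_pos (by show k < a.val; omega)]
  unfold NN
  rw [dif_pos h1, dif_pos h2, e1, e2, symm_succAbove hC, symm_succAbove hC, swap_cns hC,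
    UU_val]
  simp only [Fin.succ_lt_succ_iff]

/-- The value just below `a`. -/
theorem NN_pred (hC : S_CNS) (a : Fin (n + 1)) (w : Equiv.Perm (Fin n)) (k : ℕ)
    (hk : k + 1 = a.val) : NN k Ups (cns a w) = UU k w := by
  have ha := a.isLt
  have h1 : k + 1 < n + 1 := by omega
  have e1 : (⟨k + 1, h1⟩ : Fin (n + 1)) = a := Fin.ext hk
  have h3 : k < n := by omega
  have e2 : (⟨k, Nat.lt_of_succ_lt h1⟩ : Fin (n + 1)) = a.succAbove ⟨k, h3⟩ := by
    apply Fin.ext
    rw [succAbove_val, if_pos (by show k < a.val; omega)]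
  have h4 : (cns a w).symm a < (cns a w).symm ⟨k, Nat.lt_of_succ_lt h1⟩ := by
    rw [symm_self hC, e2, symm_succAbove hC]
    exact Fin.succ_pos _
  unfold NN
  rw [dif_pos h1, e1, if_pos h4, swap_cns_pred hC a ⟨k, Nat.lt_of_succ_lt h1⟩ hk]
  exact (UU_val ⟨k, Nat.lt_of_succ_lt h1⟩ w).symm

/-- The value `a`. -/
theorem NN_at (hC : S_CNS) (a : Fin (n + 1)) (w : Equiv.Perm (Fin n)) :
    NN a.val Ups (cns a w) = 0 := by
  unfold NN
  by_cases h1 : a.val + 1 < n + 1
  · have e1 : (⟨a.val, Nat.lt_of_succ_lt h1⟩ : Fin (n + 1)) = a := rfl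
    rw [dif_pos h1, e1, symm_self hC, if_neg (Fin.not_lt_zero _)]
  · rw [dif_neg h1]

/-- Values above `a`. -/
theorem NN_high (hC : S_CNS) (a : Fin (n + 1)) (w : Equiv.Perm (Fin n)) (k : ℕ)
    (hk : a.val ≤ k) (hkn : k + 1 < n) : NN (k + 1) Ups (cns a w) = NN k (UU a.val) w := by
  have ha := a.isLt
  have h1 : k + 1 + 1 < n + 1 := by omega
  have e1 : (⟨k + 1 + 1, h1⟩ : Fin (n + 1)) = a.succAbove ⟨k + 1, hkn⟩ := by
    apply Fin.ext
    rw [succAbove_val, if_neg (by show ¬ k + 1 < a.val; omega)]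
  have e2 : (⟨k + 1, Nat.lt_of_succ_lt h1⟩ : Fin (n + 1)) =
      a.succAbove ⟨k, Nat.lt_of_succ_lt hkn⟩ := by
    apply Fin.ext
    rw [succAbove_val, if_neg (by show ¬ k < a.val; omega)]
  unfold NN
  rw [dif_pos h1, dif_pos hkn, e1, e2, symm_succAbove hC, symm_succAbove hC, swap_cns hC,
    UU_val]
  simp only [Fin.succ_lt_succ_iff]

end XREC

open XREC in
theorem REC_pf (hC : S_CNS) : S_REC := by
  intro n w a0 ha0
  obtain ⟨a, rfl⟩ : ∃ a : Fin (n + 1), a.val = a0 := ⟨⟨a0, by omega⟩, rfl⟩
  have h1 := Ups_rec' (cns a w)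
  rw [card_inv_cns hC, ← UU_val] at h1
  push_cast at h1
  rw [h1]
  rcases Nat.eq_zero_or_pos n with hn | hn
  · subst hn
    simp
  obtain ⟨m, rfl⟩ : ∃ m, n = m + 1 := ⟨n - 1, by omega⟩
  rw [Nat.add_sub_cancel]
  have h2 : ∀ k ∈ Finset.range (m + 1), ((k : ℚ) + 1) * NN k Ups (cns a w) =
      (if k + 2 ≤ a.val then ((k : ℚ) + 1) * NN k (UU a.val) w else 0) +
      (if k + 1 = a.val then (a.val : ℚ) * UU (a.val - 1) w else 0) +
      (if a.val + 1 ≤ k then ((k : ℚ) + 1) * NN (k - 1) (UU a.val) w else 0) := by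
    intro k hk
    rw [Finset.mem_range] at hk
    rcases lt_trichotomy k a.val with h | h | h
    · rcases Nat.lt_or_ge (k + 1) a.val with h3 | h3
      · rw [if_pos (by omega), if_neg (by omega), if_neg (by omega), NN_low hC a w k (by omega),
          add_zero, add_zero]
      · have h4 : k + 1 = a.val := by omega
        rw [if_neg (by omega), if_pos h4, if_neg (by omega), NN_pred hC a w k h4, ← h4]
        push_cast
        ring
    · subst h
      rw [NN_at hC, if_neg (by omega), if_neg (by omega), if_neg (by omega)]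
      ring
    · obtain ⟨j, rfl⟩ : ∃ j, k = j + 1 := ⟨k - 1, by omega⟩
      rw [if_neg (by omega), if_neg (by omega), if_pos (by omega),
        NN_high hC a w j (by omega) (by omega), Nat.add_sub_cancel]
      ring
  rw [Finset.sum_congr rfl h2, Finset.sum_add_distrib, Finset.sum_add_distrib]
  have h3 : ∑ k ∈ Finset.range (m + 1),
      (if k + 2 ≤ a.val then ((k : ℚ) + 1) * NN k (UU a.val) w else 0) =
      ∑ k ∈ Finset.range m,
      (if k + 2 ≤ a.val then ((k : ℚ) + 1) * NN k (UU a.val) w else 0) := by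
    rw [Finset.sum_range_succ, if_neg (by omega), add_zero]
  have h4 : ∑ k ∈ Finset.range (m + 1),
      (if k + 1 = a.val then (a.val : ℚ) * UU (a.val - 1) w else 0) =
      (a.val : ℚ) * UU (a.val - 1) w := by
    rcases Nat.eq_zero_or_pos a.val with h0 | h0
    · rw [h0]
      simp
    · rw [Finset.sum_eq_single (a.val - 1)]
      · rw [if_pos (by omega)]
      · intro b _ hb
        rw [if_neg (by omega)]
      · intro hb
        exact absurd (Finset.mem_range.2 (by omega)) hb
  have h5 : ∑ k ∈ Finset.range (m + 1),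
      (if a.val + 1 ≤ k then ((k : ℚ) + 1) * NN (k - 1) (UU a.val) w else 0) =
      ∑ k ∈ Finset.range m,
      (if a.val ≤ k then ((k : ℚ) + 2) * NN k (UU a.val) w else 0) := by
    rw [Finset.sum_range_succ', if_neg (by omega), add_zero]
    refine Finset.sum_congr rfl fun k _ => ?_
    by_cases h : a.val ≤ k
    · rw [if_pos (by omega), if_pos h, Nat.add_sub_cancel]
      push_cast
      ring
    · rw [if_neg (by omega), if_neg h]
  rw [h3, h4, h5]
  have h6 : ∀ x y z : ℚ, x + y + z = (x + z) + y := fun x y z => by ring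
  rw [h6, ← Finset.sum_add_distrib]
  congr 1
  refine Finset.sum_congr rfl fun k _ => ?_
  by_cases h : k + 2 ≤ a.val
  · rw [if_pos h, if_neg (by omega), if_pos h, add_zero]
  · rw [if_neg h, if_neg h, zero_add]
    by_cases h7 : a.val ≤ k
    · rw [if_pos h7, if_pos h7]
    · rw [if_neg h7, if_neg h7, zero_mul]

end Pool.Agent.Work.MP_ca14f8_co.L3
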