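import Pool.Agent.Work.MP_ca14f8_co.L3.Stmts

/-!
Item SIT: the sites in a step.
-/

set_option autoImplicit false
open Classical

namespace Pool.Agent.Work.MP_ca14f8_co.L3

namespace XSIT

theorem mem_some {n : ℕ} (w : Equiv.Perm (Fin n)) (a e : ℕ) (i x : Fin n) :
    x ∈ St w a e (some i) ↔ i < x ∧ (w i).val < (w x).val ∧
      (a ≤ (w i).val → (w i).val < e → ∃ y, y ≤ x ∧ (w i).val < (w y).val ∧ (w y).val < e) := by
  simp only [St, Finset.mem_filter, Finset.mem_univ, true_and]
  exact Iff.rfl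

theorem mem_none {n : ℕ} (w : Equiv.Perm (Fin n)) (a e : ℕ) (x : Fin n) :
    x ∈ St w a e none ↔ a ≤ (w x).val ∧ ∃ y, y ≤ x ∧ a ≤ (w y).val ∧ (w y).val < e := by
  simp [St]

theorem mem_Gs {n : ℕ} (w : Equiv.Perm (Fin n)) (i x : Fin n) :
    x ∈ Gs w i ↔ i < x ∧ (w i).val < (w x).val := by
  simp only [Gs, Finset.mem_filter, Finset.mem_univ, true_and]
  exact Iff.rfl

theorem mem_Qs {n : ℕ} (w : Equiv.Perm (Fin n)) (U : Finset (Fin n)) (θ : ℕ) (x : Fin n) :
    x ∈ Qs w U θ ↔ x ∈ U ∧ θ ≤ (w x).val := by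
  simp [Qs]

theorem mem_Fr {n : ℕ} (p x : Fin n) : x ∈ Fr p ↔ p ≤ x := by
  simp [Fr]

theorem mem_Vs {n : ℕ} (w : Equiv.Perm (Fin n)) (lo hi : ℕ) (x : Fin n) :
    x ∈ Vs w lo hi ↔ ∃ y, y ≤ x ∧ lo ≤ (w y).val ∧ (w y).val < hi := by
  simp [Vs]

theorem eq_of_val {n : ℕ} (w : Equiv.Perm (Fin n)) {x y : Fin n}
    (h : (w x).val = (w y).val) : x = y := w.injective (Fin.ext h)

end XSIT

open XSIT

theorem SIT_pf : S_SIT := by
  intro n w a e z zs h
  obtain ⟨hz, hzs, ha, hlt⟩ := h
  refine ⟨?_, ⟨?_, ?_⟩, ⟨?_, ?_⟩, ?_, ?_, ?_, ?_⟩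
  · -- (1)
    intro i hi
    ext x
    rw [mem_some, mem_some]
    refine and_congr_right fun _ => and_congr_right fun _ => ?_
    constructor
    · intro _ h2 h3
      omega
    · intro _ h2 h3
      omega
  · ext x
    rw [mem_some, mem_Gs]
    constructor
    · exact fun h => ⟨h.1, h.2.1⟩
    · exact fun h => ⟨h.1, h.2, fun _ h3 => by omega⟩
  · rw [Finset.eq_empty_iff_forall_notMem]
    intro x hx
    rw [mem_some] at hx
    obtain ⟨_, _, h3⟩ := hx
    obtain ⟨y, _, h5, h6⟩ := h3 (by omega) (by omega)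
    omega
  · rw [Finset.eq_empty_iff_forall_notMem]
    intro x hx
    rw [mem_some] at hx
    obtain ⟨_, _, h3⟩ := hx
    obtain ⟨y, _, h5, h6⟩ := h3 (by omega) (by omega)
    omega
  · ext x
    rw [mem_some, mem_Qs, mem_Fr]
    constructor
    · exact fun h => ⟨h.1.le, by omega⟩
    · rintro ⟨h1, h2⟩
      have hne : zs ≠ x := by
        rintro rfl
        omega
      refine ⟨lt_of_le_of_ne h1 hne, by omega, fun _ _ => ⟨z, (hlt.le.trans h1), by omega, by omega⟩⟩
  · -- (4)
    intro i hia hie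
    refine ⟨?_, ?_, ?_⟩
    · intro hn
      push Not at hn
      obtain ⟨y0, h1, h2, h3⟩ := hn
      rw [Fin.lt_def] at h1
      ext x
      rw [mem_some, mem_some]
      refine and_congr_right fun hx => and_congr_right fun _ => ?_
      constructor
      · exact fun _ _ _ => ⟨y0, h3.trans hx.le, h1, h2⟩
      · exact fun _ _ _ => ⟨y0, h3.trans hx.le, h1, by omega⟩
    · intro hall
      refine ⟨?_, ?_, ?_⟩
      · ext x
        rw [mem_some, mem_Qs, mem_Vs]
        constructor
        · rintro ⟨h1, h2, h3⟩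
          obtain ⟨y, h4, h5, h6⟩ := h3 hia (by omega)
          exact ⟨⟨y, h4, by omega, h6⟩, by omega⟩
        · rintro ⟨⟨y, h4, h5, h6⟩, h7⟩
          have h8 := hall y (by rw [Fin.lt_def]; omega) h6
          exact ⟨lt_of_lt_of_le h8 h4, by omega, fun _ _ => ⟨y, h4, by omega, h6⟩⟩
      · intro hzi
        ext x
        rw [mem_some, mem_Qs, mem_Fr]
        constructor
        · exact fun h => ⟨h.1.le, by omega⟩
        · rintro ⟨h1, h2⟩
          have hne : i ≠ x := by
            rintro rfl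
            omega
          exact ⟨lt_of_le_of_ne h1 hne, by omega,
            fun _ _ => ⟨z, hzi.le.trans h1, by omega, by omega⟩⟩
      · intro hiz hall2
        ext x
        rw [mem_some, mem_Qs, mem_Fr]
        constructor
        · rintro ⟨h1, h2, h3⟩
          obtain ⟨y, h4, h5, h6⟩ := h3 hia (by omega)
          refine ⟨?_, by omega⟩
          by_cases h7 : (w y).val = e
          · have h8 : y = z := eq_of_val w (by omega)
            rw [← h8]
            exact h4
          · exact (hall2 y (by rw [Fin.lt_def]; omega) (by omega)).le.trans h4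
        · rintro ⟨h1, h2⟩
          exact ⟨lt_of_lt_of_le hiz h1, by omega, fun _ _ => ⟨z, h1, by omega, by omega⟩⟩
    · intro hn
      push Not at hn
      obtain ⟨y0, h1, h2, h3⟩ := hn
      rw [Fin.lt_def] at h1
      ext x
      rw [mem_some, mem_some]
      refine and_congr_right fun hx => and_congr_right fun _ => ?_
      constructor
      · intro h4 _ _
        obtain ⟨y, h5, h6, h7⟩ := h4 hia (by omega)
        by_cases h8 : (w y).val = e
        · have h9 : y = z := eq_of_val w (by omega)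
          exact ⟨y0, h3.trans (by rw [← h9]; exact h5), h1, h2⟩
        · exact ⟨y, h5, h6, by omega⟩
      · intro h4 _ _
        obtain ⟨y, h5, h6, h7⟩ := h4 hia (by omega)
        exact ⟨y, h5, h6, by omega⟩
  · ext x
    rw [mem_none, mem_Qs, mem_Vs]
    exact and_comm
  · intro hall
    ext x
    rw [mem_none, mem_Qs, mem_Fr]
    constructor
    · rintro ⟨h1, y, h2, h3, h4⟩
      refine ⟨?_, h1⟩
      by_cases h7 : (w y).val = e
      · have h8 : y = z := eq_of_val w (by omega)
        rw [← h8]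
        exact h2
      · exact (hall y h3 (by omega)).le.trans h2
    · rintro ⟨h1, h2⟩
      exact ⟨h2, z, h1, by omega, by omega⟩
  · intro hn
    push Not at hn
    obtain ⟨y0, h1, h2, h3⟩ := hn
    ext x
    rw [mem_none, mem_none]
    refine and_congr_right fun hx => ?_
    constructor
    · rintro ⟨y, h5, h6, h7⟩
      by_cases h8 : (w y).val = e
      · have h9 : y = z := eq_of_val w (by omega)
        exact ⟨y0, h3.trans (by rw [← h9]; exact h5), h1, h2⟩
      · exact ⟨y, h5, h6, by omega⟩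
    · rintro ⟨y, h5, h6, h7⟩
      exact ⟨y, h5, h6, by omega⟩

end Pool.Agent.Work.MP_ca14f8_co.L3
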