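import Pool.Agent.Work.MP_ca14f8_co.L3.Stmts
import Pool.Agent.Work.MP_ca14f8_co.Bd.B02

/-!
Assembly lemma of the block L3 of MP_ca14f8_co.
-/

set_option autoImplicit false
open Classical

namespace Pool.Agent.Work.MP_ca14f8_co.L3

namespace XTHM

variable {n : ℕ}

theorem one_mem_MR {ι R : Type} [DecidableEq ι] [CommRing R] [Algebra ℚ R]
    (Y : Matrix ι ι R) (P Q : Finset ι) : (1 : R) ∈ MR Y P Q := by
  refine Submodule.subset_span ⟨∅, id, Finset.empty_subset _, ?_, ?_⟩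
  · intro q hq; exact absurd hq (Finset.notMem_empty _)
  · unfold mr
    rw [Matrix.det_isEmpty]

theorem one_mem_prod {κ R : Type} [CommRing R] [Algebra ℚ R] (s : Finset κ)
    (M : κ → Submodule ℚ R) (h : ∀ i, (1 : R) ∈ M i) : (1 : R) ∈ ∏ i ∈ s, M i := by
  have : (1 : Submodule ℚ R) ≤ ∏ i ∈ s, M i := by
    refine Finset.induction_on s ?_ ?_
    · simp
    · intro i s hi ih
      rw [Finset.prod_insert hi]
      calc (1 : Submodule ℚ R) = 1 * 1 := (one_mul 1).symm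
        _ ≤ M i * ∏ i ∈ s, M i := mul_le_mul' (Submodule.one_le.mpr (h i)) ih
  exact Submodule.one_le.mp this

end XTHM

theorem THM_pf (hFD : S_FD) (hLE : S_LE) (hD2 : S_D2) (hME : S_ME) (hUE : S_UE) : S_THM := by
  intro n k w
  set N := Module.finrank ℚ (LLs w) with hN
  have : FiniteDimensional ℚ (LLs w) := (hFD n w 0 0).2
  have hN1 : 1 ≤ N := by
    have h1 : (1 : PR n) ∈ LLs w := XTHM.one_mem_prod _ _ (fun i => XTHM.one_mem_MR _ _ _)
    have h2 : Nontrivial (LLs w) := by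
      refine ⟨⟨⟨1, h1⟩, 0, ?_⟩⟩
      intro h
      exact one_ne_zero (congrArg Subtype.val h)
    exact Module.finrank_pos
  have h1 : Ups w ≤ (N : ℚ) := hLE n w
  have h0 : 0 ≤ Ups w := Ups_nonneg w
  set σ : Fin k → ℤ := fun γ : Fin k => ((γ.val : ℤ) - (((k - 1) / 2 : ℕ) : ℤ)) with hσ
  have hinj : Function.Injective σ := by
    intro a b hab
    have h : (a.val : ℤ) - (((k - 1) / 2 : ℕ) : ℤ) = (b.val : ℤ) - (((k - 1) / 2 : ℕ) : ℤ) := hab
    exact Fin.ext (by omega)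
  have h2 : N ^ (QE.Gam k σ).card ≤ Module.finrank ℚ (LLs (Bl k w)) := hD2 n k w σ hinj
  have h3 : 3 * k ^ 2 ≤ 4 * (QE.Gam k σ).card := QE.XC1.card_Gam_ge k
  have : FiniteDimensional ℚ (EE (Bl k w) 0 0) := (hUE _ (Bl k w)).1
  have h4 : Module.finrank ℚ (LLs (Bl k w)) ≤ Module.finrank ℚ (EE (Bl k w) 0 0) :=
    Submodule.finrank_mono (hME _ (Bl k w))
  have h5 : ((Module.finrank ℚ (EE (Bl k w) 0 0) : ℕ) : ℚ) ≤ Ups (Bl k w) := (hUE _ (Bl k w)).2
  calc Ups w ^ ((3 * k ^ 2 + 3) / 4) ≤ (N : ℚ) ^ ((3 * k ^ 2 + 3) / 4) :=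
        pow_le_pow_left₀ h0 h1 _
    _ ≤ (N : ℚ) ^ (QE.Gam k σ).card :=
        pow_le_pow_right₀ (by exact_mod_cast hN1) (by omega)
    _ = ((N ^ (QE.Gam k σ).card : ℕ) : ℚ) := by push_cast; rfl
    _ ≤ ((Module.finrank ℚ (EE (Bl k w) 0 0) : ℕ) : ℚ) := by exact_mod_cast h2.trans h4
    _ ≤ Ups (Bl k w) := h5

end Pool.Agent.Work.MP_ca14f8_co.L3
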