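import Pool.Agent.Work.MP_ca14f8_co.L3.Stmts

/-!
Item UC1 of the block L3 of MP_ca14f8_co: combinatorics of the restriction.
-/

set_option autoImplicit false
open Classical

namespace Pool.Agent.Work.MP_ca14f8_co.L3

namespace XUC1

variable {n : ℕ}

theorem val_v (w : Equiv.Perm (Fin n)) (a e : ℕ) (z zs : Fin n) (h : Stp w a e z zs)
    (x : Fin n) : ((Equiv.swap (w zs) (w z) * w) x).val =
      if x = z then e - 1 else if x = zs then e else (w x).val := by
  have h1 := h.hz
  have h2 := h.hzs
  have h3 := h.hlt
  rw [Equiv.Perm.mul_apply]
  by_cases hx : x = z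
  · subst hx
    rw [Equiv.swap_apply_right, if_pos rfl]
    omega
  · rw [if_neg hx]
    by_cases hy : x = zs
    · subst hy
      rw [Equiv.swap_apply_left, if_pos rfl]
      exact h1
    · rw [if_neg hy, Equiv.swap_apply_of_ne_of_ne]
      · exact fun h4 => hy (w.injective h4)
      · exact fun h4 => hx (w.injective h4)

end XUC1

theorem UC1_pf : S_UC1 := by
  intro n w a e z zs h v hv α q haq hvq
  have hval : ∀ x, (v x).val = if x = z then e - 1 else if x = zs then e else (w x).val := by
    intro x
    rw [hv]
    exact XUC1.val_v w a e z zs h x
  have hz := h.hz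
  have hzs := h.hzs
  have hae := h.ha
  have hlt := h.hlt
  have hiz : ∀ x, (w x).val = e → x = z := fun x hx => w.injective (Fin.ext (by rw [hx, hz]))
  have hizs : ∀ x, (w x).val + 1 = e → x = zs := fun x hx =>
    w.injective (Fin.ext (by omega))
  have hne : z ≠ zs := ne_of_lt hlt
  have hvz : (v z).val = e - 1 := by rw [hval, if_pos rfl]
  have hvzs : (v zs).val = e := by rw [hval, if_neg hne.symm, if_pos rfl]
  have hvo : ∀ x, x ≠ z → x ≠ zs → (v x).val = (w x).val := by
    intro x h1 h2
    rw [hval, if_neg h1, if_neg h2]
  have hwo : ∀ x, x ≠ z → x ≠ zs → (w x).val ≠ e ∧ (w x).val + 1 ≠ e := by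
    intro x h1 h2
    exact ⟨fun h3 => h1 (hiz x h3), fun h3 => h2 (hizs x h3)⟩
  have hvqn : (v q).val < (v α).val := hvq
  by_cases hq : q = z
  · -- q = z
    subst hq
    have hα1 : α ≠ q := ne_of_lt haq
    have hα2 : α ≠ zs := ne_of_lt (haq.trans hlt)
    have h5 := hvo α hα1 hα2
    have h6 := hwo α hα1 hα2
    have hbelow : ∀ y, y ≤ α → y ≠ q ∧ y ≠ zs := fun y hy =>
      ⟨ne_of_lt (lt_of_le_of_lt hy haq), ne_of_lt (lt_of_le_of_lt hy (haq.trans hlt))⟩
    refine ⟨q, haq, ?_, ?_, ?_, ?_⟩
    · rw [Fin.lt_def]; omega
    · intro j hj
      simp only [AA, Finset.mem_filter, Finset.mem_univ, true_and, Fin.lt_def] at hj ⊢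
      obtain ⟨h7, h8⟩ := hbelow j hj.1
      have := hvo j h7 h8
      have := hwo j h7 h8
      refine ⟨hj.1, ?_⟩
      omega
    · intro x hx
      simp only [BB, Finset.mem_filter, Finset.mem_univ, true_and, Fin.lt_def, Fin.le_def] at hx ⊢
      refine ⟨hx.1, ?_⟩
      by_cases h7 : x = q
      · subst h7; omega
      by_cases h8 : x = zs
      · subst h8; omega
      have := hvo x h7 h8
      omega
    · unfold cc
      have hc : (Finset.univ.filter (fun y => y < α ∧ w y < w q)) =
          (Finset.univ.filter (fun y => y < α ∧ v y < v q)) := by
        ext y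
        simp only [Finset.mem_filter, Finset.mem_univ, true_and, Fin.lt_def]
        constructor
        · rintro ⟨h7, h8⟩
          obtain ⟨h9, h10⟩ := hbelow y (le_of_lt h7)
          have := hvo y h9 h10
          have := hwo y h9 h10
          refine ⟨h7, ?_⟩
          omega
        · rintro ⟨h7, h8⟩
          obtain ⟨h9, h10⟩ := hbelow y (le_of_lt h7)
          have := hvo y h9 h10
          have := hwo y h9 h10
          refine ⟨h7, ?_⟩
          omega
      rw [hc, if_neg]
      · omega
      · rintro ⟨_, y, _, h7, h8⟩
        rw [Fin.lt_def] at h7
        omega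
  · by_cases hq2 : q = zs
    · subst hq2
      -- q = zs
      have hα0 : e < (v α).val := by omega
      have hαz : α ≠ z := by rintro rfl; omega
      have hαzs : α ≠ q := ne_of_lt haq
      have h5 := hvo α hαz hαzs
      by_cases hzα : z ≤ α
      · have hzα' : z < α := lt_of_le_of_ne hzα (Ne.symm hαz)
        refine ⟨q, haq, ?_, ?_, ?_, ?_⟩
        · rw [Fin.lt_def]; omega
        · intro j hj
          simp only [AA, Finset.mem_filter, Finset.mem_univ, true_and, Fin.lt_def] at hj ⊢
          refine ⟨hj.1, ?_⟩
          by_cases h7 : j = z
          · subst h7; omega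
          by_cases h8 : j = q
          · subst h8; omega
          have := hvo j h7 h8
          omega
        · intro x hx
          simp only [BB, Finset.mem_filter, Finset.mem_univ, true_and, Fin.lt_def,
            Fin.le_def] at hx ⊢
          refine ⟨hx.1, ?_⟩
          by_cases h7 : x = z
          · subst h7
            exact absurd hzα (not_le.mpr hx.1)
          by_cases h8 : x = q
          · subst h8; omega
          have := hvo x h7 h8
          have := hwo x h7 h8
          omega
        · unfold cc
          have hc : (Finset.univ.filter (fun y => y < α ∧ v y < v q)) =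
              insert z (Finset.univ.filter (fun y => y < α ∧ w y < w q)) := by
            ext y
            simp only [Finset.mem_filter, Finset.mem_univ, true_and, Fin.lt_def,
              Finset.mem_insert]
            constructor
            · rintro ⟨h7, h8⟩
              by_cases h9 : y = z
              · exact Or.inl h9
              · have h10 : y ≠ q := ne_of_lt (lt_trans h7 haq)
                have := hvo y h9 h10
                have := hwo y h9 h10
                refine Or.inr ⟨h7, ?_⟩
                omega
            · rintro (h7 | ⟨h7, h8⟩)
              · subst h7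
                refine ⟨hzα', ?_⟩
                omega
              · have h10 : y ≠ q := ne_of_lt (lt_trans h7 haq)
                have h9 : y ≠ z := by rintro rfl; omega
                have := hvo y h9 h10
                refine ⟨h7, ?_⟩
                omega
          rw [hc, Finset.card_insert_of_notMem]
          · split_ifs <;> omega
          · simp only [Finset.mem_filter, Finset.mem_univ, true_and, Fin.lt_def]
            rintro ⟨_, h8⟩
            omega
      · rw [not_le] at hzα
        have hbelow : ∀ y, y ≤ α → y ≠ z ∧ y ≠ q := fun y hy =>
          ⟨ne_of_lt (lt_of_le_of_lt hy hzα), ne_of_lt (lt_of_le_of_lt hy haq)⟩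
        refine ⟨z, hzα, ?_, ?_, ?_, ?_⟩
        · rw [Fin.lt_def]; omega
        · intro j hj
          simp only [AA, Finset.mem_filter, Finset.mem_univ, true_and, Fin.lt_def] at hj ⊢
          obtain ⟨h7, h8⟩ := hbelow j hj.1
          have := hvo j h7 h8
          refine ⟨hj.1, ?_⟩
          omega
        · intro x hx
          simp only [BB, Finset.mem_filter, Finset.mem_univ, true_and, Fin.lt_def,
            Fin.le_def] at hx ⊢
          refine ⟨hx.1, ?_⟩
          by_cases h7 : x = z
          · subst h7; omega
          by_cases h8 : x = q
          · subst h8; omega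
          have := hvo x h7 h8
          omega
        · unfold cc
          have hc : (Finset.univ.filter (fun y => y < α ∧ w y < w z)) =
              (Finset.univ.filter (fun y => y < α ∧ v y < v q)) := by
            ext y
            simp only [Finset.mem_filter, Finset.mem_univ, true_and, Fin.lt_def]
            constructor
            · rintro ⟨h7, h8⟩
              obtain ⟨h9, h10⟩ := hbelow y (le_of_lt h7)
              have := hvo y h9 h10
              refine ⟨h7, ?_⟩
              omega
            · rintro ⟨h7, h8⟩
              obtain ⟨h9, h10⟩ := hbelow y (le_of_lt h7)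
              have := hvo y h9 h10
              refine ⟨h7, ?_⟩
              omega
          rw [hc, if_neg]
          · omega
          · rintro ⟨_, y, _, h7, h8⟩
            rw [Fin.lt_def] at h7
            omega
    · -- q different from both
      have hwq := hwo q hq hq2
      have hvq' := hvo q hq hq2
      -- comparison
      have hcmp1 : ∀ x, (v q).val < (v x).val ↔ (w q).val < (w x).val := by
        intro x
        by_cases h7 : x = z
        · subst h7; omega
        by_cases h8 : x = zs
        · subst h8; omega
        have := hvo x h7 h8
        omega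
      have hcmp2 : ∀ x, (v x).val < (v q).val ↔ (w x).val < (w q).val := by
        intro x
        by_cases h7 : x = z
        · subst h7; omega
        by_cases h8 : x = zs
        · subst h8; omega
        have := hvo x h7 h8
        omega
      refine ⟨q, haq, ?_, ?_, ?_, ?_⟩
      · rw [Fin.lt_def]
        exact (hcmp1 α).mp hvqn
      · intro j hj
        simp only [AA, Finset.mem_filter, Finset.mem_univ, true_and, Fin.lt_def] at hj ⊢
        exact ⟨hj.1, (hcmp1 j).mp hj.2⟩
      · intro x hx
        simp only [BB, Finset.mem_filter, Finset.mem_univ, true_and, Fin.lt_def,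
          Fin.le_def] at hx ⊢
        refine ⟨hx.1, ?_⟩
        have := hcmp1 x
        omega
      · unfold cc
        have hc : (Finset.univ.filter (fun y => y < α ∧ w y < w q)) =
            (Finset.univ.filter (fun y => y < α ∧ v y < v q)) := by
          ext y
          simp only [Finset.mem_filter, Finset.mem_univ, true_and, Fin.lt_def]
          rw [hcmp2 y]
        rw [hc]
        refine Nat.add_le_add_left ?_ _
        by_cases hi : a ≤ (w q).val ∧ ∃ y, y ≤ α ∧ w q < w y ∧ (w y).val < e + 1
        · rw [if_pos hi, if_pos]
          obtain ⟨h7, y, h8, h9, h10⟩ := hi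
          rw [Fin.lt_def] at h9
          refine ⟨by omega, ?_⟩
          by_cases hyz : y = z
          · subst hyz
            refine ⟨y, h8, ?_, ?_⟩
            · rw [Fin.lt_def]; omega
            · omega
          by_cases hyzs : y = zs
          · subst hyzs
            refine ⟨z, le_trans (le_of_lt hlt) h8, ?_, ?_⟩
            · rw [Fin.lt_def]; omega
            · omega
          · refine ⟨y, h8, ?_, ?_⟩
            · rw [Fin.lt_def, hcmp1 y]; exact h9
            · have := hvo y hyz hyzs
              have := hwo y hyz hyzs
              omega
        · rw [if_neg hi]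
          exact Nat.zero_le _

end Pool.Agent.Work.MP_ca14f8_co.L3
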