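import Pool.Agent.Work.MP_ca14f8_co.L3.Stmts

/-!
Item UC2 of the block L3 of MP_ca14f8_co.
-/

set_option autoImplicit false
open Classical

namespace Pool.Agent.Work.MP_ca14f8_co.L3

theorem UC2_pf : S_UC2 := by
  intro n w a e z zs hS α q hαq hwq
  obtain ⟨hz, hzs, hae, hlt⟩ := hS
  by_cases hI : a ≤ (w q).val ∧ ∃ y, y ≤ α ∧ w q < w y ∧ (w y).val < e
  · left
    unfold cc
    rw [if_pos hI]
    split_ifs <;> omega
  by_cases hJ : a ≤ (w q).val ∧ ∃ y, y ≤ α ∧ w q < w y ∧ (w y).val < e + 1
  · right
    obtain ⟨haq, y, hyα, hqy, hye⟩ := hJ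
    have hno : ∀ y, y ≤ α → w q < w y → e ≤ (w y).val := by
      intro y h1 h2
      by_contra h3
      exact hI ⟨haq, y, h1, h2, not_le.mp h3⟩
    have hye2 : (w y).val = e := by
      have := hno y hyα hqy
      omega
    have hyz : y = z := w.injective (Fin.ext (by rw [hye2, hz]))
    subst hyz
    have hqy' := Fin.lt_def.mp hqy
    have hαzs : α < zs := by
      by_contra h
      have h1 : zs ≤ α := not_lt.mp h
      by_cases h2 : w q < w zs
      · have := hno zs h1 h2
        omega
      · have h3 : (w zs).val ≤ (w q).val := Fin.le_def.mp (not_lt.mp h2)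
        have h4 : w q = w zs := Fin.ext (by omega)
        have h5 := w.injective h4
        rw [← h5] at h1
        exact absurd hαq (not_lt.mpr h1)
    have hwα : e ≤ (w α).val := hno α le_rfl hwq
    refine ⟨zs, hαzs, Fin.lt_def.mpr (by omega), ?_, ?_, ?_, ?_, ?_⟩
    · intro j hj
      simp only [AA, Finset.mem_filter, Finset.mem_univ, true_and] at hj ⊢
      have := hno j hj.1 hj.2
      exact ⟨hj.1, Fin.lt_def.mpr (by omega)⟩
    · intro x hx
      simp only [BB, Finset.mem_filter, Finset.mem_univ, true_and] at hx ⊢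
      have := Fin.le_def.mp hx.2
      exact ⟨hx.1, Fin.le_def.mpr (by omega)⟩
    · simp only [AA, Finset.mem_filter, Finset.mem_univ, true_and]
      exact ⟨hyα, Fin.lt_def.mpr (by omega)⟩
    · simp only [BB, Finset.mem_filter, Finset.mem_univ, true_and]
      exact ⟨hαzs, le_rfl⟩
    · have hsub : (Finset.univ.filter (fun y => y < α ∧ w y < w zs)) ⊆
          (Finset.univ.filter (fun y => y < α ∧ w y < w q)) := by
        intro x hx
        simp only [Finset.mem_filter, Finset.mem_univ, true_and] at hx ⊢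
        refine ⟨hx.1, ?_⟩
        rcases lt_trichotomy (w x) (w q) with h | h | h
        · exact h
        · have := w.injective h
          rw [this] at hx
          exact absurd hαq (not_lt.mpr hx.1.le)
        · have h1 := hno x hx.1.le h
          have h2 := Fin.lt_def.mp hx.2
          omega
      have hc := Finset.card_le_card hsub
      unfold cc
      rw [if_neg hI]
      split_ifs <;> omega
  · left
    unfold cc
    rw [if_neg hI, if_neg hJ]

theorem UC3_pf : S_UC3 := by
  intro n w a e hen hno α q hαq hwq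
  have key : (a ≤ (w q).val ∧ ∃ y, y ≤ α ∧ w q < w y ∧ (w y).val < e + 1) →
      (a ≤ (w q).val ∧ ∃ y, y ≤ α ∧ w q < w y ∧ (w y).val < e) := by
    rintro ⟨haq, y, hyα, hqy, hye⟩
    refine ⟨haq, ?_⟩
    by_cases h : (w y).val < e
    · exact ⟨y, hyα, hqy, h⟩
    have hye2 : (w y).val = e := by omega
    have hqy' := Fin.lt_def.mp hqy
    have he1 : e - 1 < n := by omega
    obtain ⟨zs, hzs⟩ : ∃ zs : Fin n, (w zs).val = e - 1 := ⟨w.symm ⟨e - 1, he1⟩, by simp⟩
    have hle : zs ≤ y := by
      by_contra hc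
      exact hno ⟨y, zs, ⟨hye2, by omega, by omega, not_le.mp hc⟩⟩
    refine ⟨zs, hle.trans hyα, ?_, by omega⟩
    rw [Fin.lt_def]
    by_contra hc
    have h4 : w q = w zs := Fin.ext (by omega)
    have h5 := w.injective h4
    rw [h5] at hαq
    exact absurd (hle.trans hyα) (not_le.mpr hαq)
  unfold cc
  by_cases h1 : (a ≤ (w q).val ∧ ∃ y, y ≤ α ∧ w q < w y ∧ (w y).val < e + 1)
  · rw [if_pos h1, if_pos (key h1)]
  · rw [if_neg h1]
    omega

end Pool.Agent.Work.MP_ca14f8_co.L3
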