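import Pool.Agent.Work.MP_ca14f8_co.L3.Stmts

/-!
Item UE: the upper bound `finrank (EE w 0 0) ≤ Ups w`.
-/

set_option autoImplicit false
open Classical

namespace Pool.Agent.Work.MP_ca14f8_co.L3

namespace XUE

variable {n : ℕ}

/-- Monotonicity of the spaces in the degree bounds. -/
theorem EE_mono {w : Equiv.Perm (Fin n)} {a e a' e' : ℕ}
    (h : ∀ α q : Fin n, α < q → w q < w α → cc w a e α q ≤ cc w a' e' α q) :
    EE w a e ≤ EE w a' e' := by
  rintro F ⟨h1, h2⟩
  exact ⟨h1, fun α q h3 h4 => (h2 α q h3 h4).trans (h α q h3 h4)⟩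

theorem cc_zero (w : Equiv.Perm (Fin n)) (a : ℕ) (α q : Fin n) :
    cc w a 0 α q = (Finset.univ.filter (fun y => y < α ∧ w y < w q)).card := by
  unfold cc
  rw [if_neg]
  · rfl
  · rintro ⟨-, y, -, -, hy⟩
    exact absurd hy (Nat.not_lt_zero _)

theorem EE_zero (w : Equiv.Perm (Fin n)) (a : ℕ) : EE w a 0 ≤ EE w 0 0 :=
  EE_mono fun α q _ _ => by rw [cc_zero, cc_zero]

/-- Finite dimension and dimension bound pass to smaller spaces. -/
theorem fin_le {V : Type} [AddCommGroup V] [Module ℚ V] {S T : Submodule ℚ V} (h : S ≤ T)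
    (hT : FiniteDimensional ℚ T) :
    FiniteDimensional ℚ S ∧ Module.finrank ℚ S ≤ Module.finrank ℚ T :=
  ⟨Submodule.finiteDimensional_of_le h, Submodule.finrank_mono h⟩

/-- The case `n = 0`. -/
theorem base (w : Equiv.Perm (Fin 0)) : FiniteDimensional ℚ (EE w 0 0) ∧
    ((Module.finrank ℚ (EE w 0 0) : ℕ) : ℚ) ≤ Ups w := by
  have hw : w = 1 := Subsingleton.elim _ _
  have he : PR 0 ≃ₗ[ℚ] ℚ := (MvPolynomial.isEmptyAlgEquiv ℚ (Fin 0 × Fin 0)).toLinearEquiv
  have hfd : FiniteDimensional ℚ (PR 0) := Module.Finite.equiv he.symm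
  have h1 : Module.finrank ℚ (PR 0) = 1 := by
    rw [he.finrank_eq]
    exact Module.finrank_self ℚ
  refine ⟨inferInstance, ?_⟩
  rw [hw, Ups_one]
  have h2 : Module.finrank ℚ (EE (1 : Equiv.Perm (Fin 0)) 0 0) ≤ 1 := by
    rw [← h1]
    exact Submodule.finrank_le _
  exact_mod_cast h2

/-- The descent operator at a step. -/
theorem NN_step {w : Equiv.Perm (Fin n)} {a e : ℕ} {z zs : Fin n} (h : Stp w a e z zs)
    (f : Equiv.Perm (Fin n) → ℚ) :
    NN (e - 1) f w = f (Equiv.swap (w zs) (w z) * w) := by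
  obtain ⟨hz, hzs, ha, hlt⟩ := h
  have he : e - 1 + 1 < n := by
    have := (w z).isLt
    omega
  have e1 : w zs = ⟨e - 1, Nat.lt_of_succ_lt he⟩ := by
    apply Fin.ext
    show (w zs).val = e - 1
    omega
  have e2 : w z = ⟨e - 1 + 1, he⟩ := by
    apply Fin.ext
    show (w z).val = e - 1 + 1
    omega
  unfold NN
  rw [dif_pos he, ← e1, ← e2, Equiv.symm_apply_apply, Equiv.symm_apply_apply, if_pos hlt]

/-- The descent operator at a level without step. -/
theorem NN_nostep {w : Equiv.Perm (Fin n)} {a e : ℕ} (ha : a < e)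
    (h : ¬ ∃ z zs : Fin n, Stp w a e z zs) (f : Equiv.Perm (Fin n) → ℚ) :
    NN (e - 1) f w = 0 := by
  unfold NN
  by_cases he : e - 1 + 1 < n
  · rw [dif_pos he, if_neg]
    intro hlt
    refine h ⟨w.symm ⟨e - 1 + 1, he⟩, w.symm ⟨e - 1, Nat.lt_of_succ_lt he⟩, ?_, ?_, ha, hlt⟩
    · rw [Equiv.apply_symm_apply]
      show e - 1 + 1 = e
      omega
    · rw [Equiv.apply_symm_apply]
      show e - 1 + 1 = e
      omega
  · rw [dif_neg he]

/-- The inner induction. -/
theorem inner (h1 : S_US) (h2 : S_UC3) (a : ℕ)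
    (ih : ∀ w : Equiv.Perm (Fin n), FiniteDimensional ℚ (EE w 0 0) ∧
      ((Module.finrank ℚ (EE w 0 0) : ℕ) : ℚ) ≤ Ups w) :
    ∀ e : ℕ, e ≤ n → ∀ w : Equiv.Perm (Fin n), FiniteDimensional ℚ (EE w a e) ∧
      ((Module.finrank ℚ (EE w a e) : ℕ) : ℚ) ≤ HH a e w := by
  intro e
  induction e with
  | zero =>
    intro _ w
    obtain ⟨f1, f2⟩ := ih w
    obtain ⟨g1, g2⟩ := fin_le (EE_zero w a) f1
    refine ⟨g1, ?_⟩
    show _ ≤ Ups w
    have g3 : ((Module.finrank ℚ (EE w a 0) : ℕ) : ℚ) ≤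
      ((Module.finrank ℚ (EE w 0 0) : ℕ) : ℚ) := by exact_mod_cast g2
    exact g3.trans f2
  | succ e ihe =>
    intro he w
    have he' : e < n := he
    obtain ⟨f1, f2⟩ := ihe he'.le w
    by_cases hst : ∃ z zs : Fin n, Stp w a e z zs
    · obtain ⟨z, zs, hst⟩ := hst
      obtain ⟨v1, v2⟩ := ihe he'.le (Equiv.swap (w zs) (w z) * w)
      obtain ⟨g1, g2⟩ := h1 n w a e z zs hst _ rfl f1 v1
      refine ⟨g1, ?_⟩
      have hH : HH a (e + 1) w = HH a e w + NN (e - 1) (HH a e) w := by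
        show (if a < e then HH a e w + NN (e - 1) (HH a e) w else HH a e w) = _
        rw [if_pos hst.ha]
      rw [hH, NN_step hst]
      have g3 : ((Module.finrank ℚ (EE w a (e + 1)) : ℕ) : ℚ) ≤
          ((Module.finrank ℚ (EE w a e) : ℕ) : ℚ) +
          ((Module.finrank ℚ (EE (Equiv.swap (w zs) (w z) * w) a e) : ℕ) : ℚ) := by
        exact_mod_cast g2
      linarith
    · obtain ⟨g1, g2⟩ := fin_le (EE_mono (h2 n w a e he' hst)) f1
      refine ⟨g1, ?_⟩
      have hH : HH a (e + 1) w = HH a e w := by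
        show (if a < e then HH a e w + NN (e - 1) (HH a e) w else HH a e w) = _
        split_ifs with ha
        · rw [NN_nostep ha hst, add_zero]
        · rfl
      rw [hH]
      have g3 : ((Module.finrank ℚ (EE w a (e + 1)) : ℕ) : ℚ) ≤
        ((Module.finrank ℚ (EE w a e) : ℕ) : ℚ) := by exact_mod_cast g2
      exact g3.trans f2

end XUE

/-- Item UE. -/
theorem UE_pf (h1 : S_US) (h2 : S_UC3) (h3 : S_UN) (h4 : S_CNS) (h5 : S_FIN1) : S_UE := by
  intro n
  induction n with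
  | zero => exact fun w => XUE.base w
  | succ n ih =>
    intro v
    obtain ⟨w, hw⟩ := (h4 n).2 v
    obtain ⟨f1, f2⟩ := XUE.inner h1 h2 (v 0).val ih n le_rfl w
    obtain ⟨g1, g2⟩ := h3 n (v 0) w f1
    rw [← hw] at g1 g2
    refine ⟨g1, ?_⟩
    have h6 := h5 n w (v 0).val (Nat.le_of_lt_succ (v 0).isLt)
    rw [← h6] at f2
    have h7 : UU (v 0).val w = Ups v := by
      unfold UU
      rw [dif_pos (v 0).isLt]
      show Ups (cns (v 0) w) = Ups v
      rw [← hw]
    rw [h7] at f2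
    have g3 : ((Module.finrank ℚ (EE v 0 0) : ℕ) : ℚ) ≤
      ((Module.finrank ℚ (EE w (v 0).val n) : ℕ) : ℚ) := by exact_mod_cast g2
    exact g3.trans f2

end Pool.Agent.Work.MP_ca14f8_co.L3
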