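import Pool.Agent.Work.MP_ca14f8_co.L3.Stmts

set_option autoImplicit false
open Classical

namespace Pool.Agent.Work.MP_ca14f8_co.L3

namespace XUK

/-- A polynomial whose product with a variable of `S` is supported in `S` is supported in `S`. -/
theorem supp_of_mul {σ : Type} (S : Set σ) (p : σ) (hp : p ∈ S) (F : MvPolynomial σ ℚ)
    (h : MvPolynomial.X p * F ∈ MvPolynomial.supported ℚ S) :
    F ∈ MvPolynomial.supported ℚ S := by
  set r : MvPolynomial σ ℚ →ₐ[ℚ] MvPolynomial σ ℚ :=
    MvPolynomial.aeval (fun x => if x ∈ S then MvPolynomial.X x else 0) with hr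
  have hfix : ∀ G ∈ MvPolynomial.supported ℚ S, r G = G := by
    intro G hG
    have h1 : MvPolynomial.supported ℚ S ≤ AlgHom.equalizer r (AlgHom.id ℚ _) := by
      rw [MvPolynomial.supported, Algebra.adjoin_le_iff]
      rintro _ ⟨x, hx, rfl⟩
      simp only [SetLike.mem_coe, AlgHom.mem_equalizer, AlgHom.id_apply]
      rw [hr, MvPolynomial.aeval_X, if_pos hx]
    exact h1 hG
  have hran : ∀ G, r G ∈ MvPolynomial.supported ℚ S := by
    intro G
    induction G using MvPolynomial.induction_on with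
    | C a => rw [MvPolynomial.algHom_C]; exact Subalgebra.algebraMap_mem _ a
    | add p q h1 h2 => rw [map_add]; exact Subalgebra.add_mem _ h1 h2
    | mul_X p i h1 =>
      rw [map_mul]
      refine Subalgebra.mul_mem _ h1 ?_
      rw [hr, MvPolynomial.aeval_X]
      split_ifs with h2
      · exact MvPolynomial.X_mem_supported.2 h2
      · exact Subalgebra.zero_mem _
  have h2 := hfix _ h
  rw [map_mul, hr, MvPolynomial.aeval_X, if_pos hp, ← hr] at h2
  have h3 := mul_left_cancel₀ (MvPolynomial.X_ne_zero p) h2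
  rw [← h3]
  exact hran F

end XUK

theorem UK_pf (hUC2 : S_UC2) (hPM : S_PM) : S_UK := by
  intro n w a e z zs hS F1 hF
  obtain ⟨h1, h2⟩ := hF
  have hcell : z < zs ∧ w zs < w z := by
    refine ⟨hS.hlt, ?_⟩
    have := hS.hz
    have := hS.hzs
    exact Fin.lt_def.2 (by omega)
  have hX : ∀ A B : Finset (Fin n), Phi A B (MvPolynomial.X (z, zs)) ≠ 0 := by
    intro A B h
    rw [Phi, MvPolynomial.aeval_X] at h
    have h3 := congrArg (fun f : Polynomial (QR n) => f.coeff 0) h
    simp only [Polynomial.coeff_add, Polynomial.coeff_C_zero, Polynomial.coeff_zero] at h3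
    split_ifs at h3
    · simp at h3
    · simp at h3
  refine ⟨XUK.supp_of_mul _ (z, zs) hcell F1 h1, ?_⟩
  intro α q hαq hwq
  rcases hUC2 n w a e z zs hS α q hαq hwq with hc | ⟨q', hq1, hq2, hA, hB, hzA, hzB, hc⟩
  · have h3 := h2 α q hαq hwq
    rw [map_mul] at h3
    by_cases h0 : Phi (AA w α q) (BB w α q) F1 = 0
    · rw [h0, Polynomial.natDegree_zero]; exact Nat.zero_le _
    rw [Polynomial.natDegree_mul (hX _ _) h0] at h3
    omega
  · refine (hPM n _ _ _ _ hA hB F1).trans ?_
    have h3 := h2 α q' hq1 hq2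
    rw [map_mul] at h3
    by_cases h0 : Phi (AA w α q') (BB w α q') F1 = 0
    · rw [h0, Polynomial.natDegree_zero]; exact Nat.zero_le _
    rw [Polynomial.natDegree_mul (hX _ _) h0] at h3
    have h4 : 1 ≤ (Phi (AA w α q') (BB w α q') (MvPolynomial.X (z, zs))).natDegree := by
      apply Polynomial.le_natDegree_of_ne_zero
      rw [Phi, MvPolynomial.aeval_X, if_pos ⟨hzA, hzB⟩]
      rw [Polynomial.coeff_add, Polynomial.coeff_C_of_ne_zero (by norm_num), zero_add,
        Polynomial.coeff_X_mul, Polynomial.coeff_C_zero]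
      exact mul_ne_zero (MvPolynomial.X_ne_zero _) (MvPolynomial.X_ne_zero _)
    omega

end Pool.Agent.Work.MP_ca14f8_co.L3
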