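import Pool.Agent.Work.MP_ca14f8_co.L3.Stmts

/-!
Item UN of the block L3 of MP_ca14f8_co: from `cns a w` to `w`.
-/

set_option autoImplicit false
open Classical

namespace Pool.Agent.Work.MP_ca14f8_co.L3

namespace XUN

/-- The shift of the cells. -/
def fs (n : ℕ) : Fin n × Fin n → Fin (n + 1) × Fin (n + 1) := Prod.map Fin.succ Fin.succ

theorem fs_inj (n : ℕ) : Function.Injective (fs n) :=
  Function.Injective.prodMap (Fin.succ_injective n) (Fin.succ_injective n)

/-- The shift of the variables of the coefficients. -/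
def gs (n : ℕ) : (Fin n × Fin n) ⊕ (Fin n ⊕ Fin n) →
    (Fin (n + 1) × Fin (n + 1)) ⊕ (Fin (n + 1) ⊕ Fin (n + 1)) :=
  Sum.map (fs n) (Sum.map Fin.succ Fin.succ)

theorem gs_inj (n : ℕ) : Function.Injective (gs n) :=
  Function.Injective.sumMap (fs_inj n)
    (Function.Injective.sumMap (Fin.succ_injective n) (Fin.succ_injective n))

theorem phi_rename (n : ℕ) (A B : Finset (Fin n)) (F : PR n) :
    Phi (A.map (Fin.succEmb n)) (B.map (Fin.succEmb n)) (MvPolynomial.rename (fs n) F) =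
      Polynomial.mapAlgHom (MvPolynomial.rename (R := ℚ) (gs n)) (Phi A B F) := by
  have h : ((Phi (A.map (Fin.succEmb n)) (B.map (Fin.succEmb n))).comp
      (MvPolynomial.rename (R := ℚ) (fs n))) =
      (Polynomial.mapAlgHom (MvPolynomial.rename (R := ℚ) (gs n))).comp (Phi A B) := by
    apply MvPolynomial.algHom_ext
    rintro ⟨i, j⟩
    simp only [AlgHom.comp_apply, MvPolynomial.rename_X, Phi, MvPolynomial.aeval_X, fs,
      Prod.map_apply, map_add]
    congr 1
    · simp [Polynomial.mapAlgHom, gs, fs]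
    · have e1 : (Fin.succ i ∈ A.map (Fin.succEmb n)) ↔ i ∈ A := by
        rw [← Fin.coe_succEmb]; exact Finset.mem_map' _
      have e2 : (Fin.succ j ∈ B.map (Fin.succEmb n)) ↔ j ∈ B := by
        rw [← Fin.coe_succEmb]; exact Finset.mem_map' _
      by_cases h : i ∈ A ∧ j ∈ B
      · rw [if_pos h, if_pos ⟨e1.mpr h.1, e2.mpr h.2⟩]
        simp [Polynomial.mapAlgHom, gs, fs]
      · rw [if_neg h, if_neg (fun h' => h ⟨e1.mp h'.1, e2.mp h'.2⟩)]
        simp
  exact DFunLike.congr_fun h F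

theorem natDegree_phi_rename (n : ℕ) (A B : Finset (Fin n)) (F : PR n) :
    (Phi (A.map (Fin.succEmb n)) (B.map (Fin.succEmb n))
      (MvPolynomial.rename (fs n) F)).natDegree = (Phi A B F).natDegree := by
  rw [phi_rename]
  change (Polynomial.map (MvPolynomial.rename (R := ℚ) (gs n)).toRingHom (Phi A B F)).natDegree = _
  apply Polynomial.natDegree_map_eq_of_injective
  exact MvPolynomial.rename_injective _ (gs_inj n)

theorem cc_cns {n : ℕ} (h1 : S_CNS) (a : Fin (n + 1)) (w : Equiv.Perm (Fin n)) (α q : Fin n)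
    (h2 : w q < w α) : cc (cns a w) 0 0 α.succ q.succ ≤ cc w a n α q := by
  obtain ⟨h0, hs⟩ := (h1 n).1 a w
  unfold cc
  have hno : ¬ (0 ≤ ((cns a w) q.succ).val ∧ ∃ y, y ≤ α.succ ∧ (cns a w) q.succ < (cns a w) y ∧
      ((cns a w) y).val < 0) := by
    rintro ⟨_, y, _, _, hy⟩
    exact Nat.not_lt_zero _ hy
  rw [if_neg hno, add_zero]
  by_cases ha : a.val ≤ (w q).val
  · have hyes : a.val ≤ (w q).val ∧ ∃ y, y ≤ α ∧ w q < w y ∧ (w y).val < n :=
      ⟨ha, α, le_rfl, h2, (w α).isLt⟩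
    rw [if_pos hyes]
    have hsub : (Finset.univ.filter (fun y => y < α.succ ∧ (cns a w) y < (cns a w) q.succ)) ⊆
        insert 0 ((Finset.univ.filter (fun y => y < α ∧ w y < w q)).map (Fin.succEmb n)) := by
      intro y hy
      rw [Finset.mem_filter] at hy
      obtain ⟨_, hy1, hy2⟩ := hy
      rcases Fin.eq_zero_or_eq_succ y with rfl | ⟨y', rfl⟩
      · exact Finset.mem_insert_self _ _
      · apply Finset.mem_insert_of_mem
        rw [Finset.mem_map]
        refine ⟨y', ?_, rfl⟩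
        rw [Finset.mem_filter]
        refine ⟨Finset.mem_univ _, Fin.succ_lt_succ_iff.mp hy1, ?_⟩
        rw [hs, hs] at hy2
        exact (Fin.strictMono_succAbove a).lt_iff_lt.mp hy2
    refine (Finset.card_le_card hsub).trans ?_
    refine (Finset.card_insert_le _ _).trans ?_
    rw [Finset.card_map]
  · have hneg : ¬ (a.val ≤ (w q).val ∧ ∃ y, y ≤ α ∧ w q < w y ∧ (w y).val < n) := by
      rintro ⟨h, _⟩
      exact ha h
    rw [if_neg hneg, add_zero]
    have hsub : (Finset.univ.filter (fun y => y < α.succ ∧ (cns a w) y < (cns a w) q.succ)) ⊆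
        ((Finset.univ.filter (fun y => y < α ∧ w y < w q)).map (Fin.succEmb n)) := by
      intro y hy
      rw [Finset.mem_filter] at hy
      obtain ⟨_, hy1, hy2⟩ := hy
      rcases Fin.eq_zero_or_eq_succ y with rfl | ⟨y', rfl⟩
      · exfalso
        rw [h0, hs] at hy2
        have hlt : (w q).castSucc < a := by
          rw [Fin.lt_def, Fin.val_castSucc]
          omega
        rw [Fin.succAbove_of_castSucc_lt _ _ hlt] at hy2
        exact absurd hy2 (not_lt.mpr hlt.le)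
      · rw [Finset.mem_map]
        refine ⟨y', ?_, rfl⟩
        rw [Finset.mem_filter]
        refine ⟨Finset.mem_univ _, Fin.succ_lt_succ_iff.mp hy1, ?_⟩
        rw [hs, hs] at hy2
        exact (Fin.strictMono_succAbove a).lt_iff_lt.mp hy2
    refine (Finset.card_le_card hsub).trans ?_
    rw [Finset.card_map]

theorem AA_sub {n : ℕ} (h1 : S_CNS) (a : Fin (n + 1)) (w : Equiv.Perm (Fin n)) (α q : Fin n) :
    (AA w α q).map (Fin.succEmb n) ⊆ AA (cns a w) α.succ q.succ := by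
  obtain ⟨h0, hs⟩ := (h1 n).1 a w
  intro x hx
  rw [Finset.mem_map] at hx
  obtain ⟨y, hy, rfl⟩ := hx
  unfold AA at hy ⊢
  rw [Finset.mem_filter] at hy ⊢
  obtain ⟨_, hy1, hy2⟩ := hy
  refine ⟨Finset.mem_univ _, Fin.succ_le_succ_iff.mpr hy1, ?_⟩
  rw [Fin.coe_succEmb, hs, hs]
  exact (Fin.strictMono_succAbove a) hy2

theorem BB_sub {n : ℕ} (h1 : S_CNS) (a : Fin (n + 1)) (w : Equiv.Perm (Fin n)) (α q : Fin n) :
    (BB w α q).map (Fin.succEmb n) ⊆ BB (cns a w) α.succ q.succ := by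
  obtain ⟨h0, hs⟩ := (h1 n).1 a w
  intro x hx
  rw [Finset.mem_map] at hx
  obtain ⟨y, hy, rfl⟩ := hx
  unfold BB at hy ⊢
  rw [Finset.mem_filter] at hy ⊢
  obtain ⟨_, hy1, hy2⟩ := hy
  refine ⟨Finset.mem_univ _, Fin.succ_lt_succ_iff.mpr hy1, ?_⟩
  rw [Fin.coe_succEmb, hs, hs]
  exact (Fin.strictMono_succAbove a).monotone hy2

theorem vars_sub {n : ℕ} (h3 : S_PZ) (a : Fin (n + 1)) (w : Equiv.Perm (Fin n))
    (F : PR (n + 1)) (hF : F ∈ EE (cns a w) 0 0) : (↑F.vars : Set _) ⊆ Set.range (fs n) := by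
  have hF' : F ∈ MvPolynomial.supported ℚ {p : Fin (n + 1) × Fin (n + 1) | p.1 < p.2 ∧
      (cns a w) p.2 < (cns a w) p.1} ∧
    ∀ α q : Fin (n + 1), α < q → (cns a w) q < (cns a w) α →
      (Phi (AA (cns a w) α q) (BB (cns a w) α q) F).natDegree ≤ cc (cns a w) 0 0 α q := hF
  obtain ⟨hsup, hdeg⟩ := hF'
  rw [MvPolynomial.mem_supported] at hsup
  rintro ⟨i, j⟩ hp
  obtain ⟨hp1, hp2⟩ := hsup hp
  simp only at hp1 hp2
  rcases Fin.eq_zero_or_eq_succ i with rfl | ⟨i', rfl⟩
  · exfalso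
    have hd := hdeg 0 j hp1 hp2
    have hc : cc (cns a w) 0 0 0 j = 0 := by
      unfold cc
      have hno : ¬ (0 ≤ ((cns a w) j).val ∧ ∃ y, y ≤ (0 : Fin (n + 1)) ∧
          (cns a w) j < (cns a w) y ∧ ((cns a w) y).val < 0) := by
        rintro ⟨_, y, _, _, hy⟩
        exact Nat.not_lt_zero _ hy
      rw [if_neg hno, add_zero, Finset.card_eq_zero, Finset.filter_eq_empty_iff]
      rintro y _ ⟨hy, _⟩
      exact absurd hy (Fin.not_lt_zero y)
    rw [hc, Nat.le_zero] at hd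
    have hA : (0 : Fin (n + 1)) ∈ AA (cns a w) 0 j := by
      unfold AA
      rw [Finset.mem_filter]
      exact ⟨Finset.mem_univ _, le_rfl, hp2⟩
    have hB : j ∈ BB (cns a w) 0 j := by
      unfold BB
      rw [Finset.mem_filter]
      exact ⟨Finset.mem_univ _, hp1, le_rfl⟩
    have hz := h3 (n + 1) _ _ 0 j F hA hB hd
    rw [MvPolynomial.mem_supported] at hz
    exact hz hp rfl
  · rcases Fin.eq_zero_or_eq_succ j with rfl | ⟨j', rfl⟩
    · exact absurd hp1 (Fin.not_lt_zero _)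
    · exact ⟨(i', j'), rfl⟩

theorem le_map {n : ℕ} (h1 : S_CNS) (h2 : S_PM) (h3 : S_PZ) (a : Fin (n + 1))
    (w : Equiv.Perm (Fin n)) :
    EE (cns a w) 0 0 ≤ (EE w a n).map (MvPolynomial.rename (R := ℚ) (fs n)).toLinearMap := by
  intro F hF
  obtain ⟨G, rfl⟩ := MvPolynomial.exists_rename_eq_of_vars_subset_range F (fs n) (fs_inj n)
    (vars_sub h3 a w F hF)
  obtain ⟨h0, hs⟩ := (h1 n).1 a w
  have hF' : MvPolynomial.rename (fs n) G ∈
      MvPolynomial.supported ℚ {p : Fin (n + 1) × Fin (n + 1) | p.1 < p.2 ∧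
        (cns a w) p.2 < (cns a w) p.1} ∧
    ∀ α q : Fin (n + 1), α < q → (cns a w) q < (cns a w) α →
      (Phi (AA (cns a w) α q) (BB (cns a w) α q) (MvPolynomial.rename (fs n) G)).natDegree ≤
        cc (cns a w) 0 0 α q := hF
  obtain ⟨hsup, hdeg⟩ := hF'
  refine ⟨G, ?_, rfl⟩
  refine ⟨?_, ?_⟩
  · rw [MvPolynomial.mem_supported] at hsup ⊢
    rintro ⟨i, j⟩ hp
    have hv : fs n (i, j) ∈ (MvPolynomial.rename (fs n) G).vars := by
      rw [Finset.mem_coe, MvPolynomial.mem_vars_iff_mem_support] at hp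
      rw [MvPolynomial.mem_vars_iff_mem_support]
      obtain ⟨d, hd, hd2⟩ := hp
      refine ⟨d.mapDomain (fs n), ?_, ?_⟩
      · rw [MvPolynomial.support_rename_of_injective (fs_inj n)]
        exact Finset.mem_image_of_mem _ hd
      · rw [Finsupp.mem_support_iff, Finsupp.mapDomain_apply (fs_inj n)]
        exact Finsupp.mem_support_iff.mp hd2
    obtain ⟨hp1, hp2⟩ := hsup hv
    simp only [fs, Prod.map_apply] at hp1 hp2
    rw [hs, hs] at hp2
    exact ⟨Fin.succ_lt_succ_iff.mp hp1, (Fin.strictMono_succAbove a).lt_iff_lt.mp hp2⟩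
  · intro α q hαq hw
    rw [← natDegree_phi_rename]
    refine (h2 (n + 1) _ _ _ _ (AA_sub h1 a w α q) (BB_sub h1 a w α q) _).trans ?_
    refine (hdeg α.succ q.succ (Fin.succ_lt_succ_iff.mpr hαq) ?_).trans (cc_cns h1 a w α q hw)
    rw [hs, hs]
    exact (Fin.strictMono_succAbove a) hw

end XUN

theorem UN_pf (h1 : S_CNS) (h2 : S_PM) (h3 : S_PZ) : S_UN := by
  intro n a w hfd
  have hle := XUN.le_map h1 h2 h3 a w
  have : FiniteDimensional ℚ (EE w a n) := hfd
  have : FiniteDimensional ℚ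
      ((EE w a n).map (MvPolynomial.rename (R := ℚ) (XUN.fs n)).toLinearMap) :=
    inferInstance
  refine ⟨Submodule.finiteDimensional_of_le hle, ?_⟩
  refine (Submodule.finrank_mono hle).trans ?_
  exact Submodule.finrank_map_le _ _

end Pool.Agent.Work.MP_ca14f8_co.L3
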