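import Pool.Agent.Work.MP_ca14f8_co.L3.Stmts

/-!
Item US of the block L3 of MP_ca14f8_co.
-/

set_option autoImplicit false
open Classical

namespace Pool.Agent.Work.MP_ca14f8_co.L3

namespace XUS

theorem step {R : Type} [CommRing R] [IsDomain R] [Algebra ℚ R] (f : R →ₐ[ℚ] R) (y : R)
    (V W W' : Submodule ℚ R) (hmap : ∀ F ∈ V, f F ∈ W')
    (hker : ∀ F ∈ V, f F = 0 → ∃ F1 ∈ W, F = y * F1)
    (hW : FiniteDimensional ℚ W) (hW' : FiniteDimensional ℚ W') :
    FiniteDimensional ℚ V ∧ Module.finrank ℚ V ≤ Module.finrank ℚ W + Module.finrank ℚ W' := by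
  have hrange : (LinearMap.range (f.toLinearMap.domRestrict V)) ≤ W' := by
    rintro x ⟨F, rfl⟩
    exact hmap F.1 F.2
  have hk : (LinearMap.ker (f.toLinearMap.domRestrict V)).map V.subtype ≤
      W.map (LinearMap.mulLeft ℚ y) := by
    rintro x ⟨F, hF, rfl⟩
    obtain ⟨F1, h1, h2⟩ := hker F.1 F.2 hF
    exact ⟨F1, h1, h2.symm⟩
  have h1 : Module.rank ℚ (LinearMap.range (f.toLinearMap.domRestrict V)) ≤
      Module.rank ℚ W' := Submodule.rank_mono hrange
  have h2 : Module.rank ℚ (LinearMap.ker (f.toLinearMap.domRestrict V)) ≤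
      Module.rank ℚ W := by
    have e := (Submodule.equivMapOfInjective V.subtype V.injective_subtype
      (LinearMap.ker (f.toLinearMap.domRestrict V))).rank_eq
    rw [e]
    exact (Submodule.rank_mono hk).trans (rank_map_le _ _)
  have h3 := LinearMap.rank_range_add_rank_ker (f.toLinearMap.domRestrict V)
  have h4 : Module.rank ℚ V ≤ Module.rank ℚ W' + Module.rank ℚ W := by
    rw [← h3]
    exact add_le_add h1 h2
  have h5 : Module.rank ℚ V ≤ ((Module.finrank ℚ W + Module.finrank ℚ W' : ℕ) : Cardinal) := by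
    rw [← Module.finrank_eq_rank ℚ W, ← Module.finrank_eq_rank ℚ W'] at h4
    rw [add_comm]
    exact_mod_cast h4
  have h6 : FiniteDimensional ℚ V := by
    rw [FiniteDimensional, ← Module.rank_lt_aleph0_iff]
    exact h5.trans_lt (Cardinal.natCast_lt_aleph0)
  refine ⟨h6, ?_⟩
  rw [← Module.finrank_eq_rank ℚ V] at h5
  exact_mod_cast h5

theorem dvd_of_res {n : ℕ} (z zs : Fin n) (F : PR n) (h : res z zs F = 0) :
    ∃ F1, F = MvPolynomial.X (z, zs) * F1 := by
  have h1 : (Ideal.Quotient.mkₐ ℚ (Ideal.span {(MvPolynomial.X (z, zs) : PR n)})).comp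
      (res z zs) = Ideal.Quotient.mkₐ ℚ (Ideal.span {(MvPolynomial.X (z, zs) : PR n)}) := by
    apply MvPolynomial.algHom_ext
    intro p
    unfold res
    rw [AlgHom.comp_apply, MvPolynomial.aeval_X]
    by_cases hp : p = (z, zs)
    · rw [if_pos hp, map_zero, hp]
      symm
      rw [Ideal.Quotient.mkₐ_eq_mk, Ideal.Quotient.eq_zero_iff_mem]
      exact Ideal.mem_span_singleton_self _
    · rw [if_neg hp]
  have h2 := DFunLike.congr_fun h1 F
  rw [AlgHom.comp_apply, h, map_zero] at h2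
  have h3 := h2.symm
  rw [Ideal.Quotient.mkₐ_eq_mk, Ideal.Quotient.eq_zero_iff_mem, Ideal.mem_span_singleton] at h3
  exact h3

end XUS

theorem US_pf (hUR : S_UR) (hUK : S_UK) : S_US := by
  intro n w a e z zs hS v hv hW hW'
  refine XUS.step (res z zs) (MvPolynomial.X (z, zs)) _ _ _ (hUR n w a e z zs hS v hv) ?_ hW hW'
  intro F hF h0
  obtain ⟨F1, h1⟩ := XUS.dvd_of_res z zs F h0
  refine ⟨F1, hUK n w a e z zs hS F1 ?_, h1⟩
  rw [← h1]
  exact hF

end Pool.Agent.Work.MP_ca14f8_co.L3
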