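import Pool.Agent.Work.MP_ca14f8_co.L3.Stmts

/-!
Block L3 of MP_ca14f8_co, item YL: `y LL w a e ≤ LL w a (e + 1)`.
-/

set_option autoImplicit false
open Classical

namespace Pool.Agent.Work.MP_ca14f8_co.L3

namespace XYL

variable {n : ℕ}

theorem MM_empty (w : Equiv.Perm (Fin n)) : MM w ∅ = 1 := by
  unfold MM MR
  rw [Submodule.one_eq_span]
  congr 1
  ext f
  constructor
  · rintro ⟨C, ρ, hC, _, rfl⟩
    have hC' : C = ∅ := Finset.subset_empty.1 hC
    subst hC'
    have : mr (YY w) (∅ : Finset (Fin n)) ρ = 1 := by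
      unfold mr
      exact Matrix.det_isEmpty
    rw [this]
    rfl
  · intro hf
    have hf' : f = 1 := hf
    refine ⟨∅, id, Finset.Subset.refl _, by simp, ?_⟩
    rw [hf']
    unfold mr
    exact Matrix.det_isEmpty.symm

theorem LL_eq (w : Equiv.Perm (Fin n)) (a e : ℕ) (z : Fin n) (S : Finset (Fin n)) (hz : z ∉ S) :
    LL w a e = MM w (St w a e none) * (MM w (St w a e (some z)) *
      (∏ i ∈ S, MM w (St w a e (some i))) * ∏ i ∈ (insert z S)ᶜ, MM w (St w a e (some i))) := by
  unfold LL
  rw [Fintype.prod_option, ← Finset.prod_mul_prod_compl (insert z S), Finset.prod_insert hz]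

end XYL

open XYL in
theorem YL_pf (h1 : S_CH) (h2 : S_SIT) : S_YL := by
  intro n w a e z zs hs
  obtain ⟨sA, ⟨sz1, sz2⟩, _, s4, s5a, s5b, s5c⟩ := h2 n w a e z zs hs
  have hne : ∀ i, i ≠ z → (w i).val ≠ e := by
    intro i hi h
    apply hi
    apply w.injective
    apply Fin.ext
    rw [h, hs.hz]
  by_cases hall : ∀ y, a ≤ (w y).val → (w y).val < e → z < y
  · -- all the values of `[a, e)` are behind `z`
    have hzS : z ∉ Iv w a e := by
      intro h
      have := (Finset.mem_filter.1 h).2.2
      rw [hs.hz] at this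
      exact lt_irrefl _ this
    have hCH := h1 n w a e z zs hs a a le_rfl hs.ha le_rfl hall
    rw [← s5a, ← s5b hall, ← sz1] at hCH
    rw [LL_eq w a e z (Iv w a e) hzS, LL_eq w a (e + 1) z (Iv w a e) hzS, sz2, MM_empty]
    have hT : ∏ i ∈ (insert z (Iv w a e))ᶜ, MM w (St w a (e + 1) (some i)) =
        ∏ i ∈ (insert z (Iv w a e))ᶜ, MM w (St w a e (some i)) := by
      refine Finset.prod_congr rfl fun i hi => ?_
      have hi' := Finset.mem_compl.1 hi
      rw [Finset.mem_insert, not_or] at hi'
      have h3 : e < (w i).val ∨ (w i).val < a := by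
        have h4 := hne i hi'.1
        have h5 : ¬ (a ≤ (w i).val ∧ (w i).val < e) := fun h =>
          hi'.2 (Finset.mem_filter.2 ⟨Finset.mem_univ _, h⟩)
        omega
      rw [sA i h3]
    rw [hT]
    calc _ = (Submodule.span ℚ {(MvPolynomial.X (z, zs) : PR n)} * MM w (St w a e (some z)) *
          ∏ i ∈ Iv w a e, MM w (St w a e (some i))) * MM w (St w a e none) *
          ∏ i ∈ (insert z (Iv w a e))ᶜ, MM w (St w a e (some i)) := by ring
      _ ≤ MM w (St w a (e + 1) none) * (∏ i ∈ Iv w a e, MM w (St w a (e + 1) (some i))) *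
          ∏ i ∈ (insert z (Iv w a e))ᶜ, MM w (St w a e (some i)) := mul_le_mul' hCH le_rfl
      _ = _ := by ring
  · -- the position `i` of the largest value in front of `z`
    have hn : (Finset.univ.filter (fun y : Fin n => a ≤ (w y).val ∧ (w y).val < e ∧
        y < z)).Nonempty := by
      push Not at hall
      obtain ⟨y, hy1, hy2, hy3⟩ := hall
      refine ⟨y, Finset.mem_filter.2 ⟨Finset.mem_univ _, hy1, hy2, lt_of_le_of_ne hy3 ?_⟩⟩
      rintro rfl
      rw [hs.hz] at hy2
      exact lt_irrefl _ hy2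
    obtain ⟨i, hi, hmax⟩ := Finset.exists_max_image _ (fun y => (w y).val) hn
    obtain ⟨hi1, hi2, hi3⟩ := (Finset.mem_filter.1 hi).2
    -- all values in `(w i, e)` are behind `z`
    have hb : ∀ y, (w i).val < (w y).val → (w y).val < e → z < y := by
      intro y hy1 hy2
      by_contra h
      have h3 : y ≠ z := by
        rintro rfl
        rw [hs.hz] at hy2
        exact lt_irrefl _ hy2
      have h4 : y < z := lt_of_le_of_ne (not_lt.1 h) h3
      have h5 := hmax y (Finset.mem_filter.2 ⟨Finset.mem_univ _, by omega, hy2, h4⟩)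
      omega
    have hie : (w i).val + 1 < e := by
      have h3 := hs.hzs
      have h4 := hs.hlt
      have h5 : (w i).val ≠ (w zs).val := by
        intro h
        have : i = zs := w.injective (Fin.ext h)
        rw [this] at hi3
        exact lt_asymm h4 hi3
      omega
    set S := Iv w ((w i).val + 1) e with hS
    have hiS : i ∉ S := by
      intro h
      have := (Finset.mem_filter.1 h).2.1
      omega
    have hzS : z ∉ insert i S := by
      rw [Finset.mem_insert, not_or]
      refine ⟨fun h => ?_, fun h => ?_⟩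
      · rw [h] at hi3
        exact lt_irrefl _ hi3
      · have := (Finset.mem_filter.1 h).2.2
        rw [hs.hz] at this
        exact lt_irrefl _ this
    have hCH := h1 n w a e z zs hs ((w i).val + 1) ((w i).val + 1) (by omega) (by omega) le_rfl
      (fun y hy1 hy2 => hb y (by omega) hy2)
    obtain ⟨_, hi4, _⟩ := s4 i hi1 hie
    have hlt' : ∀ y, w i < w y → (w y).val < e → z < y := fun y hy1 hy2 => hb y hy1 hy2
    obtain ⟨hj1, _, hj2⟩ := hi4 (fun y hy1 hy2 => hi3.trans (hlt' y hy1 hy2))
    have hj3 := hj2 hi3 hlt'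
    rw [← hj1, ← hj3, ← sz1, ← hS] at hCH
    rw [LL_eq w a e z (insert i S) hzS, LL_eq w a (e + 1) z (insert i S) hzS, sz2, MM_empty,
      Finset.prod_insert hiS, Finset.prod_insert hiS, s5c hall]
    have hT : ∏ j ∈ (insert z (insert i S))ᶜ, MM w (St w a (e + 1) (some j)) =
        ∏ j ∈ (insert z (insert i S))ᶜ, MM w (St w a e (some j)) := by
      refine Finset.prod_congr rfl fun j hj => ?_
      have hj' := Finset.mem_compl.1 hj
      rw [Finset.mem_insert, Finset.mem_insert, not_or, not_or] at hj'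
      have h4 := hne j hj'.1
      have h5 : ¬ ((w i).val + 1 ≤ (w j).val ∧ (w j).val < e) := fun h =>
        hj'.2.2 (Finset.mem_filter.2 ⟨Finset.mem_univ _, h⟩)
      have h6 : (w j).val ≠ (w i).val := fun h => hj'.2.1 (w.injective (Fin.ext h))
      by_cases h7 : a ≤ (w j).val ∧ (w j).val + 1 < e ∧ (w j).val < (w i).val
      · obtain ⟨_, _, hk⟩ := s4 j h7.1 h7.2.1
        rw [hk (fun h => lt_asymm hi3 (h i h7.2.2 hi2))]
      · rw [sA j (by omega)]
    rw [hT]
    calc _ = (Submodule.span ℚ {(MvPolynomial.X (z, zs) : PR n)} * MM w (St w a e (some z)) *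
          ∏ i ∈ S, MM w (St w a e (some i))) * MM w (St w a e (some i)) *
          (MM w (St w a e none) * ∏ j ∈ (insert z (insert i S))ᶜ, MM w (St w a e (some j))) := by
          ring
      _ ≤ MM w (St w a (e + 1) (some i)) * (∏ i ∈ S, MM w (St w a (e + 1) (some i))) *
          (MM w (St w a e none) * ∏ j ∈ (insert z (insert i S))ᶜ, MM w (St w a e (some j))) :=
          mul_le_mul' hCH le_rfl
      _ = _ := by ring

end Pool.Agent.Work.MP_ca14f8_co.L3
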