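import Pool.Agent.Work.MP_ca14f8_co.L3.I_ALG
import Pool.Agent.Work.MP_ca14f8_co.L3.I_CH
import Pool.Agent.Work.MP_ca14f8_co.L3.I_CNS
import Pool.Agent.Work.MP_ca14f8_co.L3.I_D1
import Pool.Agent.Work.MP_ca14f8_co.L3.I_D2
import Pool.Agent.Work.MP_ca14f8_co.L3.I_DW
import Pool.Agent.Work.MP_ca14f8_co.L3.I_E2
import Pool.Agent.Work.MP_ca14f8_co.L3.I_EX
import Pool.Agent.Work.MP_ca14f8_co.L3.I_FD
import Pool.Agent.Work.MP_ca14f8_co.L3.I_FIN1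
import Pool.Agent.Work.MP_ca14f8_co.L3.I_LE
import Pool.Agent.Work.MP_ca14f8_co.L3.I_LN
import Pool.Agent.Work.MP_ca14f8_co.L3.I_LO
import Pool.Agent.Work.MP_ca14f8_co.L3.I_LPL
import Pool.Agent.Work.MP_ca14f8_co.L3.I_LR
import Pool.Agent.Work.MP_ca14f8_co.L3.I_LY
import Pool.Agent.Work.MP_ca14f8_co.L3.I_M1
import Pool.Agent.Work.MP_ca14f8_co.L3.I_ME
import Pool.Agent.Work.MP_ca14f8_co.L3.I_MRM
import Pool.Agent.Work.MP_ca14f8_co.L3.I_NOP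
import Pool.Agent.Work.MP_ca14f8_co.L3.I_PM
import Pool.Agent.Work.MP_ca14f8_co.L3.I_REC
import Pool.Agent.Work.MP_ca14f8_co.L3.I_SIT
import Pool.Agent.Work.MP_ca14f8_co.L3.I_THM
import Pool.Agent.Work.MP_ca14f8_co.L3.I_UC1
import Pool.Agent.Work.MP_ca14f8_co.L3.I_UC2
import Pool.Agent.Work.MP_ca14f8_co.L3.I_UE
import Pool.Agent.Work.MP_ca14f8_co.L3.I_UK
import Pool.Agent.Work.MP_ca14f8_co.L3.I_UN
import Pool.Agent.Work.MP_ca14f8_co.L3.I_UR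
import Pool.Agent.Work.MP_ca14f8_co.L3.I_US
import Pool.Agent.Work.MP_ca14f8_co.L3.I_YL

/-!
Assembly of the block L3 of MP_ca14f8_co.
-/

set_option autoImplicit false
open Classical

namespace Pool.Agent.Work.MP_ca14f8_co.L3

theorem UE_holds : S_UE := by
  have hPM : S_PM := PM_pf
  have hFIN1 : S_FIN1 := FIN1_pf NSQ_pf NCO_pf NBR_pf NGR_pf ALG_pf (REC_pf CNS_pf) CNS_pf
  have hUR : S_UR := UR_pf UC1_pf hPM
  have hUK : S_UK := UK_pf UC2_pf hPM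
  exact UE_pf (US_pf hUR hUK) UC3_pf (UN_pf CNS_pf hPM PZ_pf) CNS_pf hFIN1

theorem LE_holds : S_LE := by
  have hFIN1 : S_FIN1 := FIN1_pf NSQ_pf NCO_pf NBR_pf NGR_pf ALG_pf (REC_pf CNS_pf) CNS_pf
  have hEX : S_EX := EX_pf LPL_pf MRM_pf
  have hLX : S_LX := LX_pf hEX
  have hLY : S_LY := LY_pf hEX MRM_pf
  have hYL : S_YL := YL_pf (CH_pf hLX hLY SIT_pf) SIT_pf
  have hLS : S_LS := LS_pf FD_pf hYL (LR_pf E2_pf)
  exact LE_pf hLS LO_pf (LN_pf CNS_pf FD_pf) CNS_pf hFIN1 FD_pf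

theorem THM_holds : S_THM :=
  THM_pf FD_pf LE_holds (D2_pf (D1_pf DW_pf MRM_pf) DW_pf FD_pf) (ME_pf (M1_pf R1_pf)) UE_holds

end Pool.Agent.Work.MP_ca14f8_co.L3
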