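import Mathlib
import Pool.Agent.Work.MP_ca14f8_co.Blow
import Pool.Agent.Work.MP_ca14f8_co.Sum

/-!
Definitions for the block L3 of MP_ca14f8_co: the principal evaluation `Ups w` is the dimension of
a space spanned by products of minors of a generic matrix supported on the Rothe diagram.

Conventions: positions and values are elements of `Fin n`, `w` maps positions to values. The cells
are the pairs of positions `(j, q)` with `j < q` and `w q < w j`.
-/

set_option autoImplicit false
open Classical

namespace Pool.Agent.Work.MP_ca14f8_co.L3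

/-- Polynomials in the entries of an `n × n` matrix. -/
abbrev PR (n : ℕ) : Type := MvPolynomial (Fin n × Fin n) ℚ

/-- The minor of `Y` with columns `C` and rows `ρ q` (`q ∈ C`). -/
noncomputable def mr {ι R : Type} [DecidableEq ι] [CommRing R] (Y : Matrix ι ι R)
    (C : Finset ι) (ρ : ι → ι) : R :=
  (Matrix.of (fun (a b : C) => Y (ρ a) b)).det

/-- The span of the minors of `Y` with rows in `P` and columns in `Q`. -/
noncomputable def MR {ι R : Type} [DecidableEq ι] [CommRing R] [Algebra ℚ R]
    (Y : Matrix ι ι R) (P Q : Finset ι) : Submodule ℚ R :=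
  Submodule.span ℚ {f | ∃ (C : Finset ι) (ρ : ι → ι), C ⊆ Q ∧ (∀ q ∈ C, ρ q ∈ P) ∧
    f = mr Y C ρ}

variable {n : ℕ}

/-- The generic matrix supported on the Rothe diagram. -/
noncomputable def YY (w : Equiv.Perm (Fin n)) : Matrix (Fin n) (Fin n) (PR n) :=
  Matrix.of (fun j q => if j < q ∧ w q < w j then MvPolynomial.X (j, q) else 0)

/-- The span of the minors of `YY w` with rows and columns in `S`. -/
noncomputable def MM (w : Equiv.Perm (Fin n)) (S : Finset (Fin n)) : Submodule ℚ (PR n) :=
  MR (YY w) S S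

/-- The sites of the intermediate families; `none` is the new site. -/
noncomputable def St (w : Equiv.Perm (Fin n)) (a e : ℕ) : Option (Fin n) → Finset (Fin n)
  | none => Finset.univ.filter (fun x => a ≤ (w x).val ∧
      ∃ y, y ≤ x ∧ a ≤ (w y).val ∧ (w y).val < e)
  | some i => Finset.univ.filter (fun x => i < x ∧ w i < w x ∧
      (a ≤ (w i).val → (w i).val < e → ∃ y, y ≤ x ∧ w i < w y ∧ (w y).val < e))

/-- The intermediate spaces (for `e ≤ a` this is the standard space `LLs w`, for `e = n` it is the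
standard space of `cns a w`). -/
noncomputable def LL (w : Equiv.Perm (Fin n)) (a e : ℕ) : Submodule ℚ (PR n) :=
  ∏ o : Option (Fin n), MM w (St w a e o)

/-- The window of the position `i`. -/
noncomputable def Gs (w : Equiv.Perm (Fin n)) (i : Fin n) : Finset (Fin n) :=
  Finset.univ.filter (fun x => i < x ∧ w i < w x)

/-- The span of the products of one minor of `YY w` for each window. -/
noncomputable def LLs (w : Equiv.Perm (Fin n)) : Submodule ℚ (PR n) :=
  ∏ i : Fin n, MM w (Gs w i)

/-- The rows of the direction `(α, q)`. -/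
noncomputable def AA (w : Equiv.Perm (Fin n)) (α q : Fin n) : Finset (Fin n) :=
  Finset.univ.filter (fun j => j ≤ α ∧ w q < w j)

/-- The columns of the direction `(α, q)`. -/
noncomputable def BB (w : Equiv.Perm (Fin n)) (α q : Fin n) : Finset (Fin n) :=
  Finset.univ.filter (fun x => α < x ∧ w x ≤ w q)

/-- The coefficients: variables `y_{jq}`, `u_j`, `v_q`. -/
abbrev QR (n : ℕ) : Type := MvPolynomial ((Fin n × Fin n) ⊕ (Fin n ⊕ Fin n)) ℚ

/-- The substitution `y_{jq} ↦ y_{jq} + T u_j v_q` for `j ∈ A`, `q ∈ B` (`T` is the variable of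
`Polynomial`), the other variables are fixed. -/
noncomputable def Phi (A B : Finset (Fin n)) : PR n →ₐ[ℚ] Polynomial (QR n) :=
  MvPolynomial.aeval (fun p : Fin n × Fin n =>
    Polynomial.C (MvPolynomial.X (Sum.inl p)) +
      if p.1 ∈ A ∧ p.2 ∈ B then
        Polynomial.X * Polynomial.C (MvPolynomial.X (Sum.inr (Sum.inl p.1)) *
          MvPolynomial.X (Sum.inr (Sum.inr p.2)))
      else 0)

/-- The degree bound in the direction `(α, q)`. -/
noncomputable def cc (w : Equiv.Perm (Fin n)) (a e : ℕ) (α q : Fin n) : ℕ :=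
  (Finset.univ.filter (fun y => y < α ∧ w y < w q)).card +
    if a ≤ (w q).val ∧ ∃ y, y ≤ α ∧ w q < w y ∧ (w y).val < e then 1 else 0

/-- The polynomials in the variables of the cells which satisfy the degree bounds. -/
noncomputable def EE (w : Equiv.Perm (Fin n)) (a e : ℕ) : Submodule ℚ (PR n) where
  carrier := {F | F ∈ MvPolynomial.supported ℚ {p : Fin n × Fin n | p.1 < p.2 ∧ w p.2 < w p.1} ∧
    ∀ α q : Fin n, α < q → w q < w α → (Phi (AA w α q) (BB w α q) F).natDegree ≤ cc w a e α q}
  zero_mem' := by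
    refine ⟨Subalgebra.zero_mem _, ?_⟩
    intro α q _ _
    simp
  add_mem' := by
    rintro F G ⟨h1, h2⟩ ⟨h3, h4⟩
    refine ⟨Subalgebra.add_mem _ h1 h3, ?_⟩
    intro α q h5 h6
    rw [map_add]
    exact (Polynomial.natDegree_add_le _ _).trans (max_le (h2 α q h5 h6) (h4 α q h5 h6))
  smul_mem' := by
    rintro c F ⟨h1, h2⟩
    refine ⟨Subalgebra.smul_mem _ h1 c, ?_⟩
    intro α q h5 h6
    rw [map_smul]
    exact (Polynomial.natDegree_smul_le _ _).trans (h2 α q h5 h6)

/-- The operator `N_k` (value side descents). -/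
noncomputable def NN (k : ℕ) (f : Equiv.Perm (Fin n) → ℚ) (w : Equiv.Perm (Fin n)) : ℚ :=
  if h : k + 1 < n then
    if w.symm ⟨k + 1, h⟩ < w.symm ⟨k, Nat.lt_of_succ_lt h⟩ then
      f (Equiv.swap ⟨k, Nat.lt_of_succ_lt h⟩ ⟨k + 1, h⟩ * w) else 0
  else 0

/-- `HH a e = (1 + N_{e-2}) ⋯ (1 + N_a) Ups` (and `Ups` for `e ≤ a + 1`). -/
noncomputable def HH (a : ℕ) : ℕ → Equiv.Perm (Fin n) → ℚ
  | 0 => Ups
  | e + 1 => fun w => if a < e then HH a e w + NN (e - 1) (HH a e) w else HH a e w

/-- The permutation with first value `a`, followed by `w` (values `≥ a` are raised by one). -/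
def cns (a : Fin (n + 1)) (w : Equiv.Perm (Fin n)) : Equiv.Perm (Fin (n + 1)) :=
  (finSuccEquiv' 0).trans ((Equiv.optionCongr w).trans (finSuccEquiv' a).symm)

/-- `Ups (cns a w)` as a function of `a : ℕ`. -/
noncomputable def UU (a : ℕ) (w : Equiv.Perm (Fin n)) : ℚ :=
  if h : a < n + 1 then Ups (cns ⟨a, h⟩ w) else 0

/-- `U` is a final segment. -/
def Up (U : Finset (Fin n)) : Prop := ∀ x ∈ U, ∀ y, x ≤ y → y ∈ U

/-- The elements of `U` with value at least `θ`. -/
noncomputable def Qs (w : Equiv.Perm (Fin n)) (U : Finset (Fin n)) (θ : ℕ) : Finset (Fin n) :=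
  U.filter (fun x => θ ≤ (w x).val)

/-- The final segment `{x : p ≤ x}`. -/
noncomputable def Fr (p : Fin n) : Finset (Fin n) := Finset.univ.filter (fun x => p ≤ x)

/-- The final segment `{x : some y ≤ x has value in [lo, hi)}`. -/
noncomputable def Vs (w : Equiv.Perm (Fin n)) (lo hi : ℕ) : Finset (Fin n) :=
  Finset.univ.filter (fun x => ∃ y, y ≤ x ∧ lo ≤ (w y).val ∧ (w y).val < hi)

/-- The set of the positions with value in `[v, e)`. -/
noncomputable def Iv (w : Equiv.Perm (Fin n)) (v e : ℕ) : Finset (Fin n) :=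
  Finset.univ.filter (fun i => v ≤ (w i).val ∧ (w i).val < e)

/-- Two cells data for the steps: `z` has value `e`, `zs` has value `e - 1`, `a < e`, `z < zs`. -/
structure Stp (w : Equiv.Perm (Fin n)) (a e : ℕ) (z zs : Fin n) : Prop where
  hz : (w z).val = e
  hzs : (w zs).val + 1 = e
  ha : a < e
  hlt : z < zs

/-- The matrix of the block minor: columns `q ∈ C t` in the block `t`, rows `ρ t q` in the block
`t - c`. `z s t j q` are the entries of the block `(s, t)`. -/
noncomputable def Zb {k : ℕ} (x : ℚ) (z : Fin k × Fin k → Fin n × Fin n → ℚ) :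
    Fin (n * k) × Fin (n * k) → ℚ := fun p =>
  x ^ ((((finProdFinEquiv.symm p.1).2.val : ℤ) - ((finProdFinEquiv.symm p.2).2.val : ℤ)) ^ 2).toNat
    * z ((finProdFinEquiv.symm p.1).2, (finProdFinEquiv.symm p.2).2)
      ((finProdFinEquiv.symm p.1).1, (finProdFinEquiv.symm p.2).1)

end Pool.Agent.Work.MP_ca14f8_co.L3
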