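import Pool.Agent.Work.MP_ca14f8_co.L3.Stmts

/-!
Item ALG of the block L3 of MP_ca14f8_co: the commutator of `D` with the product
`(1 + N_(e-2)) ⋯ (1 + N_a)` in a ring with the nil Coxeter relations.
-/

set_option autoImplicit false
open Classical

namespace Pool.Agent.Work.MP_ca14f8_co.L3

namespace XALG

variable {R : Type} [Ring R]

theorem Aop_succ_of_lt (N : ℕ → R) (a e : ℕ) (h : a < e) :
    Aop N a (e + 1) = (1 + N (e - 1)) * Aop N a e := by
  show (if a < e then (1 + N (e - 1)) * Aop N a e else Aop N a e) = _
  rw [if_pos h]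

theorem Aop_succ_of_le (N : ℕ → R) (a e : ℕ) (h : e ≤ a) :
    Aop N a (e + 1) = Aop N a e := by
  show (if a < e then (1 + N (e - 1)) * Aop N a e else Aop N a e) = _
  rw [if_neg (not_lt.mpr h)]

theorem Aop_one (N : ℕ → R) (a : ℕ) : ∀ e, e ≤ a + 1 → Aop N a e = 1
  | 0, _ => rfl
  | e + 1, h => by
    rw [Aop_succ_of_le N a e (by omega)]
    exact Aop_one N a e (by omega)

theorem Aop_comm (N : ℕ → R) (hc : ∀ j k, j + 2 ≤ k → N j * N k = N k * N j) (a : ℕ) :
    ∀ e k, e ≤ k → Aop N a e * N k = N k * Aop N a e
  | 0, k, _ => by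
    show (1 : R) * N k = N k * 1
    rw [one_mul, mul_one]
  | e + 1, k, h => by
    by_cases hae : a < e
    · rw [Aop_succ_of_lt N a e hae, mul_assoc, Aop_comm N hc a e k (by omega), ← mul_assoc,
        ← mul_assoc, add_mul, mul_add, one_mul, mul_one, hc (e - 1) k (by omega)]
    · rw [Aop_succ_of_le N a e (not_lt.mp hae)]
      exact Aop_comm N hc a e k (by omega)

/-- The key identity of the step. -/
theorem key (N : ℕ → R) (h0 : ∀ k, N k * N k = 0)
    (hc : ∀ j k, j + 2 ≤ k → N j * N k = N k * N j)
    (hb : ∀ k, N k * (N (k + 1) * N k) = N (k + 1) * (N k * N (k + 1)))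
    (a m : ℕ) (h : a ≤ m) :
    (N (m + 1) * N m - N m * N (m + 1)) * Aop N a (m + 2)
      = N (m + 1) * Aop N a (m + 2) - (1 + N (m + 1)) * Aop N a (m + 2) * N (m + 1) := by
  have hA : Aop N a (m + 2) = (1 + N m) * Aop N a (m + 1) := Aop_succ_of_lt N a (m + 1) (by omega)
  have hcm := Aop_comm N hc a (m + 1) (m + 1) le_rfl
  rw [hA, mul_assoc (1 + N (m + 1)), mul_assoc (1 + N m), hcm]
  generalize Aop N a (m + 1) = B
  have e1 := h0 m
  have e2 := h0 (m + 1)
  have e3 := hb m
  generalize N (m + 1) = P at *
  generalize N m = Q at *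
  have : (P * Q - Q * P) * (1 + Q) = P * (1 + Q) - (1 + P) * ((1 + Q) * P) := by
    have l : (P * Q - Q * P) * (1 + Q) = P * Q - Q * P + P * (Q * Q) - Q * (P * Q) := by
      noncomm_ring
    have r : P * (1 + Q) - (1 + P) * ((1 + Q) * P) =
        P * Q - Q * P - P * P - P * (Q * P) := by
      noncomm_ring
    rw [l, r, e1, e2, e3]
    noncomm_ring
  calc (P * Q - Q * P) * ((1 + Q) * B) = ((P * Q - Q * P) * (1 + Q)) * B := by noncomm_ring
    _ = (P * (1 + Q) - (1 + P) * ((1 + Q) * P)) * B := by rw [this]
    _ = P * ((1 + Q) * B) - (1 + P) * ((1 + Q) * (P * B)) := by noncomm_ring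

/-- The same in the case `m = a` (the empty product). -/
theorem key0 (N : ℕ → R) (h0 : ∀ k, N k * N k = 0) (m : ℕ) (A : R) (hA : A = 1) :
    N m * A - (1 + N m) * A * N m = 0 := by
  rw [hA, mul_one, mul_one, add_mul, one_mul, h0 m]
  simp

theorem filter_empty (a e : ℕ) (h : e ≤ a + 1) :
    (Finset.range (e - 1)).filter (fun j => a ≤ j) = ∅ := by
  rw [Finset.filter_eq_empty_iff]
  intro j hj
  rw [Finset.mem_range] at hj
  omega

theorem filter_succ (a m : ℕ) (h : a ≤ m) :
    (Finset.range (m + 1)).filter (fun j => a ≤ j) =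
      insert m ((Finset.range m).filter (fun j => a ≤ j)) := by
  rw [Finset.range_add_one, Finset.filter_insert, if_pos h]

theorem not_mem (a m : ℕ) : m ∉ (Finset.range m).filter (fun j => a ≤ j) := by
  simp

end XALG

open XALG

theorem ALG_pf : S_ALG := by
  intro R _ N D h0 hc hb hD a e
  induction e with
  | zero =>
    rw [filter_empty a 0 (by omega)]
    show D * 1 - 1 * D = _
    simp
  | succ e ih =>
    by_cases hae : a < e
    · obtain ⟨m, rfl⟩ : ∃ m, e = m + 1 := ⟨e - 1, by omega⟩
      have ham : a ≤ m := by omega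
      have hA : Aop N a (m + 1 + 1) = (1 + N m) * Aop N a (m + 1) :=
        Aop_succ_of_lt N a (m + 1) hae
      simp only [Nat.add_sub_cancel] at ih ⊢
      rw [filter_succ a m ham, Finset.sum_insert (not_mem a m), Finset.sum_insert (not_mem a m), hA]
      set A := Aop N a (m + 1) with hAdef
      set S := (Finset.range m).filter (fun j => a ≤ j) with hS
      -- the left side
      have hL : D * ((1 + N m) * A) - (1 + N m) * A * D =
          (1 + N m) * (D * A - A * D) + N m * A := by
        have : D * ((1 + N m) * A) = D * A + (D * N m) * A := by noncomm_ring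
        rw [this, hD m]
        noncomm_ring
      -- the sums
      have hs2 : ∑ j ∈ S, ((j : R) + 1) * ((1 + N m) * A * N j) =
          (1 + N m) * ∑ j ∈ S, ((j : R) + 1) * (A * N j) := by
        rw [Finset.mul_sum]
        refine Finset.sum_congr rfl fun j _ => ?_
        have hcj : (1 + N m) * ((j : R) + 1) = ((j : R) + 1) * (1 + N m) := by
          have h1 : Commute ((j : R) + 1) (1 + N m) := by
            have : ((j : R) + 1) = ((j + 1 : ℕ) : R) := by push_cast; rfl
            rw [this]
            exact Nat.cast_commute _ _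
          exact h1.eq.symm
        rw [← mul_assoc (1 + N m), hcj]
        simp only [mul_assoc]
      have hs1 : ∑ j ∈ S, ((j : R) + 2) * (N j * ((1 + N m) * A)) =
          (1 + N m) * ∑ j ∈ S, ((j : R) + 2) * (N j * A) -
            ∑ j ∈ S, ((j : R) + 2) * ((N m * N j - N j * N m) * A) := by
        rw [Finset.mul_sum, ← Finset.sum_sub_distrib]
        refine Finset.sum_congr rfl fun j _ => ?_
        have hcj : (1 + N m) * ((j : R) + 2) = ((j : R) + 2) * (1 + N m) := by
          have h1 : Commute ((j : R) + 2) (1 + N m) := by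
            have : ((j : R) + 2) = ((j + 2 : ℕ) : R) := by push_cast; rfl
            rw [this]
            exact Nat.cast_commute _ _
          exact h1.eq.symm
        rw [← mul_assoc (1 + N m), hcj, mul_assoc ((j : R) + 2), ← mul_sub]
        congr 1
        noncomm_ring
      have hs3 : ∑ j ∈ S, ((j : R) + 2) * ((N m * N j - N j * N m) * A) =
          ((m : R) + 1) * (N m * A - (1 + N m) * A * N m) := by
        rcases Nat.lt_or_ge a m with ham2 | ham2
        · obtain ⟨l, rfl⟩ : ∃ l, m = l + 1 := ⟨m - 1, by omega⟩
          have hSl : S = insert l ((Finset.range l).filter (fun j => a ≤ j)) := by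
            rw [hS]
            exact filter_succ a l (by omega)
          rw [hSl, Finset.sum_insert (not_mem a l)]
          have hz : ∑ j ∈ (Finset.range l).filter (fun j => a ≤ j),
              ((j : R) + 2) * ((N (l + 1) * N j - N j * N (l + 1)) * A) = 0 := by
            refine Finset.sum_eq_zero fun j hj => ?_
            rw [Finset.mem_filter, Finset.mem_range] at hj
            rw [hc j (l + 1) (by omega), sub_self, zero_mul, mul_zero]
          rw [hz, add_zero, key N h0 hc hb a l (by omega)]
          congr 1
          push_cast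
          rw [add_assoc, one_add_one_eq_two]
        · have hma : m = a := by omega
          have hSe : S = ∅ := by
            rw [hS, Finset.filter_eq_empty_iff]
            intro j hj
            rw [Finset.mem_range] at hj
            omega
          rw [hSe, Finset.sum_empty, key0 N h0 m A (Aop_one N a (m + 1) (by omega)), mul_zero]
      have hm : N m * ((1 + N m) * A) = N m * A := by
        have : N m * ((1 + N m) * A) = N m * A + (N m * N m) * A := by noncomm_ring
        rw [this, h0 m, zero_mul, add_zero]
      rw [hL, ih, hs1, hs2, hs3, hm]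
      generalize N m * A = X
      generalize (1 + N m) * A * N m = Y
      generalize ∑ j ∈ S, ((j : R) + 2) * (N j * A) = U
      generalize ∑ j ∈ S, ((j : R) + 1) * (A * N j) = V
      generalize (1 + N m) = Z
      generalize ((m : R)) = M
      noncomm_ring
    · have hea : e ≤ a := not_lt.mp hae
      rw [filter_empty a (e + 1) (by omega), Aop_one N a (e + 1) (by omega)]
      simp

end Pool.Agent.Work.MP_ca14f8_co.L3
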