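import Pool.Agent.Work.MP_ca14f8_co.L3.Stmts

/-!
Item FIN1: `Ups (cns a w) = (1 + N_(n-2)) ⋯ (1 + N_a) Ups w`.
-/

set_option autoImplicit false
open Classical

namespace Pool.Agent.Work.MP_ca14f8_co.L3

namespace XFIN1

/-- `NN k` as a linear map. -/
noncomputable def NL (n k : ℕ) : Module.End ℚ (Equiv.Perm (Fin n) → ℚ) where
  toFun f := NN k f
  map_add' f g := by
    funext w
    simp only [NN, Pi.add_apply]
    split_ifs <;> simp
  map_smul' c f := by
    funext w
    simp only [NN, Pi.smul_apply, RingHom.id_apply]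
    split_ifs <;> simp

/-- Multiplication by the number of inversions. -/
noncomputable def DL (n : ℕ) : Module.End ℚ (Equiv.Perm (Fin n) → ℚ) where
  toFun f := fun w => ((inv w).card : ℚ) * f w
  map_add' f g := by
    funext w
    simp [mul_add]
  map_smul' c f := by
    funext w
    simp only [Pi.smul_apply, RingHom.id_apply, smul_eq_mul]
    ring

theorem NL_apply {n : ℕ} (k : ℕ) (f : Equiv.Perm (Fin n) → ℚ) : NL n k f = NN k f := rfl

theorem DL_apply {n : ℕ} (f : Equiv.Perm (Fin n) → ℚ) (w : Equiv.Perm (Fin n)) :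
    DL n f w = ((inv w).card : ℚ) * f w := rfl

theorem HH_eq (n a : ℕ) : ∀ e : ℕ,
    (HH a e : Equiv.Perm (Fin n) → ℚ) = Aop (NL n) a e (Ups : Equiv.Perm (Fin n) → ℚ) := by
  intro e
  induction e with
  | zero => rfl
  | succ e ih =>
    unfold Aop
    by_cases h : a < e
    · rw [if_pos h]
      funext w
      have h1 : HH a (e + 1) w = HH a e w + NN (e - 1) (HH a e) w := by
        show (if a < e then HH a e w + NN (e - 1) (HH a e) w else HH a e w) = _
        rw [if_pos h]
      rw [h1, ih]
      rfl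
    · rw [if_neg h, ← ih]
      funext w
      show (if a < e then HH a e w + NN (e - 1) (HH a e) w else HH a e w) = _
      rw [if_neg h]

section ring

variable {R : Type} [Ring R]

theorem Aop_one (N : ℕ → R) (a : ℕ) : ∀ e : ℕ, e ≤ a + 1 → Aop N a e = 1 := by
  intro e
  induction e with
  | zero => intro _; rfl
  | succ e ih =>
    intro h
    unfold Aop
    rw [if_neg (by omega), ih (by omega)]

theorem Aop_comm (N : ℕ → R) (hc : ∀ j k, j + 2 ≤ k → N j * N k = N k * N j) (a k : ℕ)
    (hk : k + 2 ≤ a) : ∀ e : ℕ, N k * Aop N a e = Aop N a e * N k := by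
  intro e
  induction e with
  | zero => simp [Aop]
  | succ e ih =>
    unfold Aop
    by_cases h : a < e
    · rw [if_pos h]
      have h1 := hc k (e - 1) (by omega)
      calc N k * ((1 + N (e - 1)) * Aop N a e)
          = (N k + N k * N (e - 1)) * Aop N a e := by noncomm_ring
        _ = (N k + N (e - 1) * N k) * Aop N a e := by rw [h1]
        _ = (1 + N (e - 1)) * (N k * Aop N a e) := by noncomm_ring
        _ = (1 + N (e - 1)) * Aop N a e * N k := by rw [ih, mul_assoc]
    · rw [if_neg h, ih]

theorem Aop_pred (N : ℕ → R) (a : ℕ) : ∀ e : ℕ, a + 1 < e →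
    Aop N a e = Aop N (a + 1) e * (1 + N a) := by
  intro e
  induction e with
  | zero => intro h; omega
  | succ e ih =>
    intro h
    unfold Aop
    rw [if_pos (by omega)]
    by_cases h2 : a + 1 < e
    · rw [if_pos h2, ih h2, mul_assoc]
    · have h3 : e = a + 1 := by omega
      subst h3
      rw [if_neg (by omega), Aop_one N a _ (by omega), Aop_one N (a + 1) _ (by omega)]
      simp

end ring

/-- `D Ups = L Ups`. -/
theorem DUps (n : ℕ) (w : Equiv.Perm (Fin n)) :
    ((inv w).card : ℚ) * Ups w = ∑ k ∈ Finset.range (n - 1), ((k : ℚ) + 1) * NN k Ups w := by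
  rw [Ups_rec]
  have h1 : ∀ k ∈ Finset.range (n - 1), ((k : ℚ) + 1) * NN k Ups w =
      if h : k + 1 < n then (if w.symm ⟨k + 1, h⟩ < w.symm ⟨k, Nat.lt_of_succ_lt h⟩ then
        ((k : ℚ) + 1) * Ups (Equiv.swap ⟨k, Nat.lt_of_succ_lt h⟩ ⟨k + 1, h⟩ * w) else 0) else 0 := by
    intro k hk
    unfold NN
    split_ifs <;> simp
  rw [Finset.sum_congr rfl h1]
  have h2 : ∑ p ∈ Desc w, ((p.1.val : ℚ) + 1) * Ups (Equiv.swap p.1 p.2 * w) =
      ∑ k ∈ (Finset.range (n - 1)).filter (fun k => ∃ h : k + 1 < n,
        w.symm ⟨k + 1, h⟩ < w.symm ⟨k, Nat.lt_of_succ_lt h⟩),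
      if h : k + 1 < n then (if w.symm ⟨k + 1, h⟩ < w.symm ⟨k, Nat.lt_of_succ_lt h⟩ then
        ((k : ℚ) + 1) * Ups (Equiv.swap ⟨k, Nat.lt_of_succ_lt h⟩ ⟨k + 1, h⟩ * w) else 0) else 0 := by
    refine Finset.sum_bij (fun p _ => p.1.val) ?_ ?_ ?_ ?_
    · intro p hp
      rw [mem_Desc] at hp
      rw [Finset.mem_filter, Finset.mem_range]
      have h3 := p.2.isLt
      refine ⟨by omega, by omega, ?_⟩
      have e1 : (⟨p.1.val + 1, by omega⟩ : Fin n) = p.2 := Fin.ext hp.1.symm
      have e2 : (⟨p.1.val, by omega⟩ : Fin n) = p.1 := rfl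
      rw [e1, e2]
      exact hp.2
    · intro p hp q hq h
      rw [mem_Desc] at hp hq
      have e1 : p.1 = q.1 := Fin.ext h
      have e2 : p.2 = q.2 := Fin.ext (by rw [hp.1, hq.1, h])
      exact Prod.ext e1 e2
    · intro k hk
      rw [Finset.mem_filter, Finset.mem_range] at hk
      obtain ⟨h3, h4, h5⟩ := hk
      refine ⟨(⟨k, by omega⟩, ⟨k + 1, h4⟩), ?_, rfl⟩
      rw [mem_Desc]
      exact ⟨rfl, h5⟩
    · intro p hp
      rw [mem_Desc] at hp
      have h3 := p.2.isLt
      have h4 : p.1.val + 1 < n := by omega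
      have e1 : (⟨p.1.val + 1, h4⟩ : Fin n) = p.2 := Fin.ext hp.1.symm
      have e2 : (⟨p.1.val, Nat.lt_of_succ_lt h4⟩ : Fin n) = p.1 := rfl
      rw [dif_pos h4, e1, e2, if_pos hp.2]
  rw [h2]
  refine Finset.sum_subset (Finset.filter_subset _ _) ?_
  intro k hk hk2
  rw [Finset.mem_filter, not_and] at hk2
  have h3 := hk2 hk
  split_ifs with h4 h5
  · exact absurd ⟨h4, h5⟩ h3
  · rfl
  · rfl

/-- The recursion of `HH a n`. -/
theorem rec (hsq : S_NSQ) (hco : S_NCO) (hbr : S_NBR) (hgr : S_NGR) (halg : S_ALG)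
    (n : ℕ) (w : Equiv.Perm (Fin n)) (a : ℕ) (ha : a ≤ n) :
    (((inv w).card : ℚ) + a) * HH a n w =
    ∑ k ∈ Finset.range (n - 1), (if k + 2 ≤ a then ((k : ℚ) + 1) else
      if a ≤ k then ((k : ℚ) + 2) else 0) * NN k (HH a n) w + (a : ℚ) * HH (a - 1) n w := by
  obtain ⟨u, hu⟩ : ∃ u : Equiv.Perm (Fin n) → ℚ, u = Ups := ⟨_, rfl⟩
  obtain ⟨A, hA⟩ : ∃ A, A = Aop (NL n) a n := ⟨_, rfl⟩
  have hN2 : ∀ k, NL n k * NL n k = 0 := by
    intro k
    refine LinearMap.ext fun f => funext fun w => ?_
    exact hsq n k f w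
  have hNc : ∀ j k, j + 2 ≤ k → NL n j * NL n k = NL n k * NL n j := by
    intro j k hjk
    refine LinearMap.ext fun f => funext fun w => ?_
    exact hco n j k f w hjk
  have hNb : ∀ k, NL n k * (NL n (k + 1) * NL n k) = NL n (k + 1) * (NL n k * NL n (k + 1)) := by
    intro k
    refine LinearMap.ext fun f => funext fun w => ?_
    exact hbr n k f w
  have hDN : ∀ k, DL n * NL n k = NL n k * DL n + NL n k := by
    intro k
    refine LinearMap.ext fun f => funext fun w => ?_
    exact hgr n k f w
  have hD := halg _ (NL n) (DL n) hN2 hNc hNb hDN a n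
  rw [← hA] at hD
  have hV : (HH a n : Equiv.Perm (Fin n) → ℚ) = A u := by rw [hA, hu]; exact HH_eq n a n
  have hDu : DL n u = ∑ k ∈ Finset.range (n - 1), ((k : ℚ) + 1) • NL n k u := by
    funext w
    rw [DL_apply, Finset.sum_apply, hu]
    exact DUps n w
  -- evaluate at `u`, `w`
  have hD1 := congrFun (congrArg (fun T : Module.End ℚ (Equiv.Perm (Fin n) → ℚ) => T u) hD) w
  have cst : ∀ (j c : ℕ) (T : Module.End ℚ (Equiv.Perm (Fin n) → ℚ)),
      ((((j : ℕ) : Module.End ℚ (Equiv.Perm (Fin n) → ℚ)) + (c : ℕ)) * T) u w =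
        ((j : ℚ) + c) * T u w := by
    intro j c T
    rw [Module.End.mul_apply, LinearMap.add_apply, Module.End.natCast_apply,
      Module.End.natCast_apply, Pi.add_apply, Pi.smul_apply, Pi.smul_apply, nsmul_eq_mul,
      nsmul_eq_mul]
    ring
  have e1 : (DL n * A - A * DL n) u w = ((inv w).card : ℚ) * (A u) w -
      ∑ k ∈ Finset.range (n - 1), ((k : ℚ) + 1) * (A (NL n k u)) w := by
    rw [LinearMap.sub_apply, Pi.sub_apply, Module.End.mul_apply, Module.End.mul_apply, DL_apply, hDu,
      map_sum, Finset.sum_apply]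
    congr 1
    refine Finset.sum_congr rfl fun k _ => ?_
    rw [map_smul, Pi.smul_apply, smul_eq_mul]
  have e2 : (∑ j ∈ (Finset.range (n - 1)).filter (fun j => a ≤ j),
      (((j : ℕ) : Module.End ℚ (Equiv.Perm (Fin n) → ℚ)) + 2) * (NL n j * A)) u w =
      ∑ j ∈ Finset.range (n - 1), (if a ≤ j then ((j : ℚ) + 2) * (NL n j (A u)) w else 0) := by
    rw [LinearMap.sum_apply, Finset.sum_apply, Finset.sum_filter]
    refine Finset.sum_congr rfl fun j _ => ?_
    split_ifs
    · have := cst j 2 (NL n j * A)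
      push_cast at this
      exact this
    · rfl
  have e3 : (∑ j ∈ (Finset.range (n - 1)).filter (fun j => a ≤ j),
      (((j : ℕ) : Module.End ℚ (Equiv.Perm (Fin n) → ℚ)) + 1) * (A * NL n j)) u w =
      ∑ j ∈ Finset.range (n - 1), (if a ≤ j then ((j : ℚ) + 1) * (A (NL n j u)) w else 0) := by
    rw [LinearMap.sum_apply, Finset.sum_apply, Finset.sum_filter]
    refine Finset.sum_congr rfl fun j _ => ?_
    split_ifs
    · have := cst j 1 (A * NL n j)
      push_cast at this
      exact this
    · rfl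
  have hD2 : (DL n * A - A * DL n) u w =
      (∑ j ∈ (Finset.range (n - 1)).filter (fun j => a ≤ j),
        (((j : ℕ) : Module.End ℚ (Equiv.Perm (Fin n) → ℚ)) + 2) * (NL n j * A)) u w -
      (∑ j ∈ (Finset.range (n - 1)).filter (fun j => a ≤ j),
        (((j : ℕ) : Module.End ℚ (Equiv.Perm (Fin n) → ℚ)) + 1) * (A * NL n j)) u w := hD1
  rw [e1, e2, e3] at hD2
  -- the terms with small index
  have hcomm : ∀ k, k + 2 ≤ a → (A (NL n k u)) w = (NL n k (A u)) w := by
    intro k hk
    have := Aop_comm (NL n) hNc a k hk n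
    rw [← hA] at this
    have h3 := congrFun (congrArg (fun T : Module.End ℚ (Equiv.Perm (Fin n) → ℚ) => T u) this) w
    exact h3.symm
  have hlast : (a : ℚ) * HH (a - 1) n w = (a : ℚ) * (A u) w +
      ∑ k ∈ Finset.range (n - 1), (if k + 1 = a then ((k : ℚ) + 1) * (A (NL n k u)) w else 0) := by
    rcases Nat.eq_zero_or_pos a with h0 | h0
    · subst h0
      simp
    · obtain ⟨b, rfl⟩ : ∃ b, a = b + 1 := ⟨a - 1, by omega⟩
      rw [Nat.add_sub_cancel]
      by_cases hb : b + 1 < n
      · have h4 : (HH b n : Equiv.Perm (Fin n) → ℚ) = A u + A (NL n b u) := by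
          rw [HH_eq n b n, Aop_pred (NL n) b n hb, ← hA, ← hu]
          rw [Module.End.mul_apply, LinearMap.add_apply, Module.End.one_apply, map_add]
        have h5 : ∑ k ∈ Finset.range (n - 1),
            (if k + 1 = b + 1 then ((k : ℚ) + 1) * (A (NL n k u)) w else 0) =
            ((b : ℚ) + 1) * (A (NL n b u)) w := by
          rw [Finset.sum_eq_single b]
          · rw [if_pos rfl]
          · intro k _ hk
            rw [if_neg (by omega)]
          · intro hk
            exact absurd (Finset.mem_range.2 (by omega)) hk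
        rw [h5, h4, Pi.add_apply]
        push_cast
        ring
      · have hbn : b + 1 = n := by omega
        have h4 : (HH b n : Equiv.Perm (Fin n) → ℚ) = A u := by
          rw [HH_eq n b n, hA, hu, Aop_one (NL n) b n (by omega),
            Aop_one (NL n) (b + 1) n (by omega)]
        have h5 : ∑ k ∈ Finset.range (n - 1),
            (if k + 1 = b + 1 then ((k : ℚ) + 1) * (A (NL n k u)) w else 0) = 0 := by
          refine Finset.sum_eq_zero fun k hk => ?_
          rw [Finset.mem_range] at hk
          rw [if_neg (by omega)]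
        rw [h5, h4, add_zero]
  rw [hlast, hV]
  have hsplit : ∑ k ∈ Finset.range (n - 1), ((k : ℚ) + 1) * (A (NL n k u)) w =
      ∑ k ∈ Finset.range (n - 1), (if k + 2 ≤ a then ((k : ℚ) + 1) * (NL n k (A u)) w else 0) +
      ∑ k ∈ Finset.range (n - 1), (if k + 1 = a then ((k : ℚ) + 1) * (A (NL n k u)) w else 0) +
      ∑ k ∈ Finset.range (n - 1), (if a ≤ k then ((k : ℚ) + 1) * (A (NL n k u)) w else 0) := by
    rw [← Finset.sum_add_distrib, ← Finset.sum_add_distrib]
    refine Finset.sum_congr rfl fun k _ => ?_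
    by_cases h1 : k + 2 ≤ a
    · rw [if_pos h1, if_neg (by omega), if_neg (by omega), hcomm k h1]
      ring
    · by_cases h2 : k + 1 = a
      · rw [if_neg h1, if_pos h2, if_neg (by omega)]
        ring
      · rw [if_neg h1, if_neg h2, if_pos (by omega)]
        ring
  have hgoal : ∑ k ∈ Finset.range (n - 1), (if k + 2 ≤ a then ((k : ℚ) + 1) else
      if a ≤ k then ((k : ℚ) + 2) else 0) * NN k (A u) w =
      ∑ k ∈ Finset.range (n - 1), (if k + 2 ≤ a then ((k : ℚ) + 1) * (NL n k (A u)) w else 0) +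
      ∑ k ∈ Finset.range (n - 1), (if a ≤ k then ((k : ℚ) + 2) * (NL n k (A u)) w else 0) := by
    rw [← Finset.sum_add_distrib]
    refine Finset.sum_congr rfl fun k _ => ?_
    by_cases h1 : k + 2 ≤ a
    · rw [if_pos h1, if_pos h1, if_neg (by omega), add_zero]
      rfl
    · by_cases h2 : a ≤ k
      · rw [if_neg h1, if_neg h1, if_pos h2, if_pos h2, zero_add]
        rfl
      · rw [if_neg h1, if_neg h1, if_neg h2, if_neg h2]
        ring
  rw [hgoal]
  linear_combination hD2 + hsplit

end XFIN1

open XFIN1 in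
theorem FIN1_pf (hsq : S_NSQ) (hco : S_NCO) (hbr : S_NBR) (hgr : S_NGR) (halg : S_ALG)
    (hrec : S_REC) (hcns : S_CNS) : S_FIN1 := by
  intro n
  have key : ∀ (N : ℕ) (w : Equiv.Perm (Fin n)) (a : ℕ), a ≤ n → (inv w).card + a = N →
      UU a w = HH a n w := by
    intro N
    induction N using Nat.strong_induction_on with
    | _ N ih =>
      intro w a ha hN
      have h1 := hrec n w a ha
      have h2 := XFIN1.rec hsq hco hbr hgr halg n w a ha
      rcases Nat.eq_zero_or_pos N with h0 | h0
      · have hw : w = 1 := eq_one_of_inv (by omega)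
        have ha0 : a = 0 := by omega
        subst hw
        subst ha0
        have e1 : cns (0 : Fin (n + 1)) (1 : Equiv.Perm (Fin n)) = 1 := by
          obtain ⟨h3, h4⟩ := (hcns n).1 0 1
          refine Equiv.ext fun x => ?_
          refine Fin.cases ?_ (fun y => ?_) x
          · rw [h3]; rfl
          · rw [h4]
            simp
        have e2 : UU 0 (1 : Equiv.Perm (Fin n)) = 1 := by
          unfold UU
          rw [dif_pos (by omega)]
          have : cns (⟨0, by omega⟩ : Fin (n + 1)) (1 : Equiv.Perm (Fin n)) = 1 := e1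
          rw [this, Ups_one]
        have e3 : ∀ e : ℕ, HH 0 e (1 : Equiv.Perm (Fin n)) = 1 := by
          intro e
          induction e with
          | zero => exact Ups_one
          | succ e ih2 =>
            show (if 0 < e then HH 0 e (1 : Equiv.Perm (Fin n)) + NN (e - 1) (HH 0 e) 1
              else HH 0 e 1) = 1
            have e4 : NN (e - 1) (HH 0 e) (1 : Equiv.Perm (Fin n)) = 0 := by
              unfold NN
              split_ifs with h5 h6
              · exfalso
                have : (⟨e - 1 + 1, h5⟩ : Fin n) < ⟨e - 1, Nat.lt_of_succ_lt h5⟩ := h6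
                rw [Fin.mk_lt_mk] at this
                omega
              · rfl
              · rfl
            rw [e4, ih2]
            simp
        rw [e2, e3]
      · have hterm : ∀ k, NN k (UU a) w = NN k (HH a n) w := by
          intro k
          unfold NN
          split_ifs with h5 h6
          · have h7 := card_inv_down w (a := ⟨k, Nat.lt_of_succ_lt h5⟩) (b := ⟨k + 1, h5⟩) rfl h6
            exact ih _ (by omega) _ a ha rfl
          · rfl
          · rfl
        have hpred : (a : ℚ) * UU (a - 1) w = (a : ℚ) * HH (a - 1) n w := by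
          rcases Nat.eq_zero_or_pos a with h5 | h5
          · rw [h5]; simp
          · rw [ih ((inv w).card + (a - 1)) (by omega) w (a - 1) (by omega) rfl]
        rw [Finset.sum_congr rfl (fun k _ => by rw [hterm k]), hpred, ← h2] at h1
        have hne : ((inv w).card : ℚ) + a ≠ 0 := by
          have : (0 : ℚ) < ((inv w).card : ℚ) + a := by
            have h8 : (0 : ℚ) < ((N : ℕ) : ℚ) := by exact_mod_cast h0
            rw [← hN] at h8
            push_cast at h8
            exact h8
          exact this.ne'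
        exact mul_left_cancel₀ hne h1
  intro w a ha
  exact key _ w a ha rfl

end Pool.Agent.Work.MP_ca14f8_co.L3
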