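import Pool.Agent.Work.MP_ca14f8_co.L3.Stmts

/-! Item NOP of the block L3 of MP_ca14f8_co: nil Coxeter relations of the operators `NN k`. -/

set_option autoImplicit false
open Classical

namespace Pool.Agent.Work.MP_ca14f8_co.L3

namespace XNOP

variable {n : ℕ}

theorem NN_ge {k : ℕ} (h : ¬ k + 1 < n) (f : Equiv.Perm (Fin n) → ℚ) (w : Equiv.Perm (Fin n)) :
    NN k f w = 0 := by
  unfold NN
  rw [dif_neg h]

theorem NN_lt {k : ℕ} (h : k + 1 < n) (f : Equiv.Perm (Fin n) → ℚ) (w : Equiv.Perm (Fin n)) :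
    NN k f w = if w.symm ⟨k + 1, h⟩ < w.symm ⟨k, Nat.lt_of_succ_lt h⟩ then
      f (Equiv.swap ⟨k, Nat.lt_of_succ_lt h⟩ ⟨k + 1, h⟩ * w) else 0 := by
  unfold NN
  rw [dif_pos h]

theorem symm_apply (w : Equiv.Perm (Fin n)) (a b x : Fin n) :
    (Equiv.swap a b * w).symm x = w.symm (Equiv.swap a b x) := by
  rw [symm_swap_mul]
  rfl

theorem NN_zero {k : ℕ} {f : Equiv.Perm (Fin n) → ℚ} (hf : ∀ v, f v = 0)
    (w : Equiv.Perm (Fin n)) : NN k f w = 0 := by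
  by_cases h : k + 1 < n
  · rw [NN_lt h, hf]
    simp
  · exact NN_ge h f w

end XNOP

open XNOP

theorem NSQ_pf : S_NSQ := by
  intro n k f w
  by_cases h : k + 1 < n
  · rw [NN_lt h]
    by_cases h1 : w.symm ⟨k + 1, h⟩ < w.symm ⟨k, Nat.lt_of_succ_lt h⟩
    · rw [if_pos h1, NN_lt h, if_neg]
      rw [symm_apply, symm_apply, Equiv.swap_apply_left, Equiv.swap_apply_right]
      exact not_lt.mpr h1.le
    · rw [if_neg h1]
  · exact NN_ge h _ w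

theorem NCO_pf : S_NCO := by
  intro n j k f w hjk
  by_cases hk : k + 1 < n
  · have hj : j + 1 < n := by omega
    have e1 : ∀ x : Fin n, x.val = k ∨ x.val = k + 1 →
        Equiv.swap (⟨j, Nat.lt_of_succ_lt hj⟩ : Fin n) ⟨j + 1, hj⟩ x = x := by
      intro x hx
      apply Equiv.swap_apply_of_ne_of_ne
      · intro h; rw [h] at hx; simp at hx; omega
      · intro h; rw [h] at hx; simp at hx; omega
    have e2 : ∀ x : Fin n, x.val = j ∨ x.val = j + 1 →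
        Equiv.swap (⟨k, Nat.lt_of_succ_lt hk⟩ : Fin n) ⟨k + 1, hk⟩ x = x := by
      intro x hx
      apply Equiv.swap_apply_of_ne_of_ne
      · intro h; rw [h] at hx; simp at hx; omega
      · intro h; rw [h] at hx; simp at hx; omega
    have e3 : Equiv.swap (⟨k, Nat.lt_of_succ_lt hk⟩ : Fin n) ⟨k + 1, hk⟩ *
        (Equiv.swap (⟨j, Nat.lt_of_succ_lt hj⟩ : Fin n) ⟨j + 1, hj⟩ * w) =
        Equiv.swap (⟨j, Nat.lt_of_succ_lt hj⟩ : Fin n) ⟨j + 1, hj⟩ *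
        (Equiv.swap (⟨k, Nat.lt_of_succ_lt hk⟩ : Fin n) ⟨k + 1, hk⟩ * w) := by
      rw [← mul_assoc, ← mul_assoc]
      congr 1
      have a1 := Equiv.mul_swap_eq_swap_mul
        (Equiv.swap (⟨k, Nat.lt_of_succ_lt hk⟩ : Fin n) ⟨k + 1, hk⟩)
        ⟨j, Nat.lt_of_succ_lt hj⟩ ⟨j + 1, hj⟩
      rw [e2 ⟨j, Nat.lt_of_succ_lt hj⟩ (Or.inl rfl), e2 ⟨j + 1, hj⟩ (Or.inr rfl)] at a1
      exact a1
    rw [NN_lt hj, NN_lt hk, NN_lt hk, NN_lt hj, symm_apply, symm_apply, symm_apply, symm_apply,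
      e1 ⟨k, Nat.lt_of_succ_lt hk⟩ (Or.inl rfl), e1 ⟨k + 1, hk⟩ (Or.inr rfl),
      e2 ⟨j, Nat.lt_of_succ_lt hj⟩ (Or.inl rfl), e2 ⟨j + 1, hj⟩ (Or.inr rfl), e3]
    split_ifs <;> rfl
  · rw [NN_ge hk, NN_zero (fun v => NN_ge hk f v)]

theorem NBR_pf : S_NBR := by
  intro n k f w
  by_cases hk : k + 1 + 1 < n
  · have h0 : k < n := by omega
    have h1 : k + 1 < n := by omega
    have e01 : (⟨k, h0⟩ : Fin n) ≠ ⟨k + 1, h1⟩ := by simp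
    have e02 : (⟨k, h0⟩ : Fin n) ≠ ⟨k + 1 + 1, hk⟩ := by
      intro h
      have := congrArg Fin.val h
      simp at this
      omega
    have e12 : (⟨k + 1, h1⟩ : Fin n) ≠ ⟨k + 1 + 1, hk⟩ := by simp
    have s0 : Equiv.swap (⟨k, h0⟩ : Fin n) ⟨k + 1, h1⟩ ⟨k + 1 + 1, hk⟩ = ⟨k + 1 + 1, hk⟩ :=
      Equiv.swap_apply_of_ne_of_ne e02.symm e12.symm
    have s1 : Equiv.swap (⟨k + 1, h1⟩ : Fin n) ⟨k + 1 + 1, hk⟩ ⟨k, h0⟩ = ⟨k, h0⟩ :=
      Equiv.swap_apply_of_ne_of_ne e01 e02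
    have e3 : Equiv.swap (⟨k, h0⟩ : Fin n) ⟨k + 1, h1⟩ *
        (Equiv.swap (⟨k + 1, h1⟩ : Fin n) ⟨k + 1 + 1, hk⟩ *
          (Equiv.swap (⟨k, h0⟩ : Fin n) ⟨k + 1, h1⟩ * w)) =
        Equiv.swap (⟨k + 1, h1⟩ : Fin n) ⟨k + 1 + 1, hk⟩ *
        (Equiv.swap (⟨k, h0⟩ : Fin n) ⟨k + 1, h1⟩ *
          (Equiv.swap (⟨k + 1, h1⟩ : Fin n) ⟨k + 1 + 1, hk⟩ * w)) := by
      simp only [← mul_assoc]
      congr 1
      have a1 := Equiv.swap_mul_swap_mul_swap e01 e02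
      have a2 := Equiv.swap_mul_swap_mul_swap e12.symm e02.symm
      rw [Equiv.swap_comm (⟨k + 1, h1⟩ : Fin n) ⟨k, h0⟩,
        Equiv.swap_comm (⟨k + 1 + 1, hk⟩ : Fin n) ⟨k + 1, h1⟩] at a2
      rw [a1, a2, Equiv.swap_comm]
    rw [NN_lt h1, NN_lt hk, NN_lt h1, NN_lt hk, NN_lt h1, NN_lt hk]
    simp only [symm_apply, Equiv.swap_apply_left, Equiv.swap_apply_right, s0, s1]
    rw [e3]
    split_ifs <;> rfl
  · rw [NN_zero (fun v => NN_ge hk _ v), NN_ge hk]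

theorem NGR_pf : S_NGR := by
  intro n k f w
  by_cases h : k + 1 < n
  · rw [NN_lt h, NN_lt h]
    by_cases h1 : w.symm ⟨k + 1, h⟩ < w.symm ⟨k, Nat.lt_of_succ_lt h⟩
    · rw [if_pos h1, if_pos h1, card_inv_down w (a := ⟨k, Nat.lt_of_succ_lt h⟩)
        (b := ⟨k + 1, h⟩) rfl h1]
      push_cast
      ring
    · rw [if_neg h1, if_neg h1]
      simp
  · rw [NN_ge h, NN_ge h]
    simp

end Pool.Agent.Work.MP_ca14f8_co.L3
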