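import Pool.Agent.Work.MP_ca14f8_co.L3.Stmts

/-!
Item UR: the restriction `res z zs` maps `EE w a (e+1)` to `EE (s w) a e`.
-/

set_option autoImplicit false
open Classical

namespace Pool.Agent.Work.MP_ca14f8_co.L3

namespace XUR

variable {n : ℕ}

/-- The coefficient homomorphism `y_(z,zs) ↦ 0`. -/
noncomputable def psi (z zs : Fin n) : QR n →ₐ[ℚ] QR n :=
  MvPolynomial.aeval (fun s : (Fin n × Fin n) ⊕ (Fin n ⊕ Fin n) =>
    if s = Sum.inl (z, zs) then (0 : QR n) else MvPolynomial.X s)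

lemma psi_inl_self (z zs : Fin n) :
    psi z zs (MvPolynomial.X (Sum.inl (z, zs))) = 0 := by
  simp [psi]

lemma psi_inl_ne (z zs : Fin n) (p : Fin n × Fin n) (hp : p ≠ (z, zs)) :
    psi z zs (MvPolynomial.X (Sum.inl p)) = MvPolynomial.X (Sum.inl p) := by
  have h : (Sum.inl p : (Fin n × Fin n) ⊕ (Fin n ⊕ Fin n)) ≠ Sum.inl (z, zs) := by
    intro h
    exact hp (Sum.inl.inj h)
  unfold psi
  rw [MvPolynomial.aeval_X, if_neg h]

lemma psi_inr (z zs : Fin n) (s : Fin n ⊕ Fin n) :
    psi z zs (MvPolynomial.X (Sum.inr s)) = MvPolynomial.X (Sum.inr s) := by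
  have h : (Sum.inr s : (Fin n × Fin n) ⊕ (Fin n ⊕ Fin n)) ≠ Sum.inl (z, zs) := by
    intro h
    cases h
  unfold psi
  rw [MvPolynomial.aeval_X, if_neg h]

lemma phi_res (z zs : Fin n) (A B : Finset (Fin n)) (hAB : ¬ (z ∈ A ∧ zs ∈ B)) (F : PR n) :
    Phi A B (res z zs F) = Polynomial.mapAlgHom (psi z zs) (Phi A B F) := by
  have h : (Phi A B).comp (res z zs) = (Polynomial.mapAlgHom (psi z zs)).comp (Phi A B) := by
    apply MvPolynomial.algHom_ext
    intro p
    rw [AlgHom.comp_apply, AlgHom.comp_apply]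
    have h1 : ∀ p : Fin n × Fin n, Phi A B (MvPolynomial.X p) =
        Polynomial.C (MvPolynomial.X (Sum.inl p)) +
          if p.1 ∈ A ∧ p.2 ∈ B then
            Polynomial.X * Polynomial.C (MvPolynomial.X (Sum.inr (Sum.inl p.1)) *
              MvPolynomial.X (Sum.inr (Sum.inr p.2)))
          else 0 := by
      intro p
      unfold Phi
      rw [MvPolynomial.aeval_X]
    by_cases hp : p = (z, zs)
    · subst hp
      have h2 : res z zs (MvPolynomial.X (z, zs)) = 0 := by simp [res]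
      rw [h2, map_zero, h1, if_neg hAB, add_zero, Polynomial.coe_mapAlgHom, Polynomial.map_C]
      have h3 : (↑(psi z zs) : QR n →+* QR n) (MvPolynomial.X (Sum.inl (z, zs))) = 0 :=
        psi_inl_self z zs
      rw [h3, map_zero]
    · have h2 : res z zs (MvPolynomial.X p) = MvPolynomial.X p := by
        unfold res
        rw [MvPolynomial.aeval_X, if_neg hp]
      rw [h2, h1, Polynomial.coe_mapAlgHom, Polynomial.map_add, Polynomial.map_C]
      have h3 : (↑(psi z zs) : QR n →+* QR n) (MvPolynomial.X (Sum.inl p)) =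
        MvPolynomial.X (Sum.inl p) := psi_inl_ne z zs p hp
      rw [h3]
      congr 1
      split_ifs with h4
      · rw [Polynomial.map_mul, Polynomial.map_X, Polynomial.map_C,
          map_mul (↑(psi z zs) : QR n →+* QR n)]
        have h5 : (↑(psi z zs) : QR n →+* QR n) (MvPolynomial.X (Sum.inr (Sum.inl p.1))) =
          MvPolynomial.X (Sum.inr (Sum.inl p.1)) := psi_inr z zs _
        have h6 : (↑(psi z zs) : QR n →+* QR n) (MvPolynomial.X (Sum.inr (Sum.inr p.2))) =
          MvPolynomial.X (Sum.inr (Sum.inr p.2)) := psi_inr z zs _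
        rw [h5, h6]
      · rw [Polynomial.map_zero]
  exact DFunLike.congr_fun h F

lemma natDegree_res (z zs : Fin n) (A B : Finset (Fin n)) (hAB : ¬ (z ∈ A ∧ zs ∈ B))
    (F : PR n) : (Phi A B (res z zs F)).natDegree ≤ (Phi A B F).natDegree := by
  rw [phi_res z zs A B hAB F, Polynomial.coe_mapAlgHom]
  exact Polynomial.natDegree_map_le

lemma inv_sub (w : Equiv.Perm (Fin n)) (a e : ℕ) (z zs : Fin n) (h : Stp w a e z zs)
    (p : Fin n × Fin n) (hp : p ≠ (z, zs)) (h1 : w p.2 < w p.1) :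
    (Equiv.swap (w zs) (w z) * w) p.2 < (Equiv.swap (w zs) (w z) * w) p.1 := by
  have hab : (w z).val = (w zs).val + 1 := by rw [h.hz, h.hzs]
  have h5 : ¬ (w p.2 = w zs ∧ w p.1 = w z) := by
    rintro ⟨h6, h7⟩
    apply hp
    exact Prod.ext (w.injective h7) (w.injective h6)
  simpa using swap_lt_swap hab h1 h5

lemma not_mem (w : Equiv.Perm (Fin n)) (a e : ℕ) (z zs : Fin n) (h : Stp w a e z zs)
    (α q : Fin n) :
    ¬ (z ∈ AA (Equiv.swap (w zs) (w z) * w) α q ∧
      zs ∈ BB (Equiv.swap (w zs) (w z) * w) α q) := by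
  rintro ⟨h1, h2⟩
  unfold AA at h1
  unfold BB at h2
  rw [Finset.mem_filter] at h1 h2
  have h3 := h1.2.2
  have h4 := h2.2.2
  have h5 := lt_of_le_of_lt h4 h3
  simp only [Equiv.Perm.coe_mul, Function.comp_apply, Equiv.swap_apply_left,
    Equiv.swap_apply_right] at h5
  rw [Fin.lt_def] at h5
  have h6 := h.hz
  have h7 := h.hzs
  omega

end XUR

theorem UR_pf (hUC1 : S_UC1) (hPM : S_PM) : S_UR := by
  intro n w a e z zs h v hv F hF
  obtain ⟨hF1, hF2⟩ := hF
  refine ⟨?_, ?_⟩
  · have hle : MvPolynomial.supported ℚ {p : Fin n × Fin n | p.1 < p.2 ∧ w p.2 < w p.1} ≤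
        (MvPolynomial.supported ℚ {p : Fin n × Fin n | p.1 < p.2 ∧ v p.2 < v p.1}).comap
          (res z zs) := by
      unfold MvPolynomial.supported
      apply Algebra.adjoin_le
      rintro x ⟨p, ⟨hp1, hp2⟩, rfl⟩
      rw [SetLike.mem_coe, Subalgebra.mem_comap]
      by_cases hp : p = (z, zs)
      · have h2 : res z zs (MvPolynomial.X p) = 0 := by
          unfold res
          rw [MvPolynomial.aeval_X, if_pos hp]
        rw [h2]
        exact Subalgebra.zero_mem _
      · have h2 : res z zs (MvPolynomial.X p) = MvPolynomial.X p := by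
          unfold res
          rw [MvPolynomial.aeval_X, if_neg hp]
        rw [h2]
        apply Algebra.subset_adjoin
        refine ⟨p, ⟨hp1, ?_⟩, rfl⟩
        rw [hv]
        exact XUR.inv_sub w a e z zs h p hp hp2
    exact hle hF1
  · intro α q hαq hvq
    obtain ⟨q', h1, h2, h3, h4, h5⟩ := hUC1 n w a e z zs h v hv α q hαq hvq
    have h6 : ¬ (z ∈ AA v α q ∧ zs ∈ BB v α q) := by
      rw [hv]
      exact XUR.not_mem w a e z zs h α q
    calc (Phi (AA v α q) (BB v α q) (res z zs F)).natDegree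
        ≤ (Phi (AA v α q) (BB v α q) F).natDegree := XUR.natDegree_res z zs _ _ h6 F
      _ ≤ (Phi (AA w α q') (BB w α q') F).natDegree := hPM n _ _ _ _ h3 h4 F
      _ ≤ cc w a (e + 1) α q' := hF2 α q' h1 h2
      _ ≤ cc v a e α q := h5

end Pool.Agent.Work.MP_ca14f8_co.L3
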