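import Pool.Agent.Work.MP_ca14f8_co.L3.Defs
import Pool.Agent.Work.MP_ca14f8_co.QE.Stmts

/-!
Statements of the block L3 of MP_ca14f8_co. Every docstring contains the proof. Notation: `pos v`
is the position of the value `v`; `s w` stands for `Equiv.swap (w zs) (w z) * w` (exchange of the
values `e - 1` and `e`).
-/

set_option autoImplicit false
open Classical

namespace Pool.Agent.Work.MP_ca14f8_co.L3

/-! ### Part N: numbers -/

/-- `N_k^2 = 0`: after the swap the value `k` is in front of `k + 1`. -/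
def S_NSQ : Prop := ∀ (n k : ℕ) (f : Equiv.Perm (Fin n) → ℚ) (w : Equiv.Perm (Fin n)),
  NN k (NN k f) w = 0

/-- `N_j N_k = N_k N_j` for `|j - k| ≥ 2`: the swaps commute and do not change the positions of the
values of the other one. -/
def S_NCO : Prop := ∀ (n j k : ℕ) (f : Equiv.Perm (Fin n) → ℚ) (w : Equiv.Perm (Fin n)),
  j + 2 ≤ k → NN j (NN k f) w = NN k (NN j f) w

/-- Braid relation: with `p0, p1, p2` the positions of `k, k+1, k+2` in `w`, both sides are
`f (s_k s_(k+1) s_k w)` if `p2 < p1 < p0` and `0` otherwise. (If `k + 2 ≥ n` both sides are `0`.) -/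
def S_NBR : Prop := ∀ (n k : ℕ) (f : Equiv.Perm (Fin n) → ℚ) (w : Equiv.Perm (Fin n)),
  NN k (NN (k + 1) (NN k f)) w = NN (k + 1) (NN k (NN (k + 1) f)) w

/-- Grading: `D N_k = N_k D + N_k` for `D = ` multiplication by the number of inversions
(`card_inv_down` in Basic). -/
def S_NGR : Prop := ∀ (n k : ℕ) (f : Equiv.Perm (Fin n) → ℚ) (w : Equiv.Perm (Fin n)),
  ((inv w).card : ℚ) * NN k f w = NN k (fun v => ((inv v).card : ℚ) * f v) w + NN k f w

/-- The product `(1 + N_(e-2)) ⋯ (1 + N_a)` in a ring. -/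
def Aop {R : Type} [Ring R] (N : ℕ → R) (a : ℕ) : ℕ → R
  | 0 => 1
  | e + 1 => if a < e then (1 + N (e - 1)) * Aop N a e else Aop N a e

/-- Algebra. Induction on `e`; for `e ≤ a + 1` both sides are `0`. Step `e → e + 1`, `a < e`,
`A = Aop N a e`, `E = 1 + N_(e-1)`: `D E A - E A D = N_(e-1) A + E (D A - A D)`; by induction it
remains to see `N_(e-1) A + e E N_(e-2) A [a ≤ e-2] = e N_(e-2) E A [a ≤ e-2] + (e+1) N_(e-1) A
- e E A N_(e-1)` (`N_j`, `j ≤ e - 3`, commutes with `E`). For `e = a + 1`, `A = 1`: clear from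
`N^2 = 0`. For `a + 1 < e`, `A = (1 + N) A'` with `N = N_(e-2)`, `N' = N_(e-1)` and `A'` commutes
with `N'`: it is `(N' + N N' - N' N) (1 + N) = (1 + N') (1 + N) N'`, both sides are
`N' + N N' + N N' N` by the braid relation. -/
def S_ALG : Prop := ∀ (R : Type) [Ring R] (N : ℕ → R) (D : R),
  (∀ k, N k * N k = 0) → (∀ j k, j + 2 ≤ k → N j * N k = N k * N j) →
  (∀ k, N k * (N (k + 1) * N k) = N (k + 1) * (N k * N (k + 1))) →
  (∀ k, D * N k = N k * D + N k) → ∀ a e : ℕ,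
    D * Aop N a e - Aop N a e * D =
      ∑ j ∈ (Finset.range (e - 1)).filter (fun j => a ≤ j), ((j : R) + 2) * (N j * Aop N a e) -
      ∑ j ∈ (Finset.range (e - 1)).filter (fun j => a ≤ j), ((j : R) + 1) * (Aop N a e * N j)

/-- `cns a w` has first value `a` and then the values of `w` (raised by `succAbove a`); every
permutation of `Fin (n + 1)` is of this form. -/
def S_CNS : Prop := ∀ (n : ℕ),
  (∀ (a : Fin (n + 1)) (w : Equiv.Perm (Fin n)),
    cns a w 0 = a ∧ ∀ x : Fin n, cns a w x.succ = a.succAbove (w x)) ∧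
  ∀ v : Equiv.Perm (Fin (n + 1)), ∃ w : Equiv.Perm (Fin n), v = cns (v 0) w

/-- The recursion of `Ups (cns a w)`: `Ups_rec` (Sum.lean) for `cns a w`, whose number of
inversions is `(inv w).card + a`. The descents of `cns a w`: for `k + 1 < a` the values `k, k + 1`
are in the positions as in `w` and `s_k (cns a w) = cns a (s_k w)`; for `k = a - 1` it is always a
descent and `s_k (cns a w) = cns (a - 1) w`; for `k = a` never; for `k ≥ a + 1` they are the values
`k - 1, k` of `w` and `s_k (cns a w) = cns a (s_(k-1) w)`. -/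
def S_REC : Prop := ∀ (n : ℕ) (w : Equiv.Perm (Fin n)) (a : ℕ), a ≤ n →
  (((inv w).card : ℚ) + a) * UU a w =
    ∑ k ∈ Finset.range (n - 1), (if k + 2 ≤ a then ((k : ℚ) + 1) else
      if a ≤ k then ((k : ℚ) + 2) else 0) * NN k (UU a) w + (a : ℚ) * UU (a - 1) w

/-- `Ups (cns a w) = (1 + N_(n-2)) ⋯ (1 + N_a) Ups w`. Proof: work in `R = Module.End ℚ (Perm → ℚ)`,
`N_k` = `NN k` (linear), `D` = multiplication by `(inv w).card`. `V_a := HH a n = Aop N a n Ups`,
`L = ∑_(k<n-1) (k+1) N_k`, `D Ups = L Ups` (`Ups_rec`). Then `V_a` satisfies the recursion S_REC: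
`(D + a) V_a = Aop D Ups + (∑_(j≥a) (j+2) N_j Aop - ∑_(j≥a) (j+1) Aop N_j) Ups + a V_a`,
`Aop D Ups = Aop L Ups`, `Aop L = ∑_(j≤a-2) (j+1) N_j Aop + a Aop N_(a-1) + ∑_(j≥a) (j+1) Aop N_j`
and `V_(a-1) = Aop N a n (1 + N_(a-1)) Ups`, so `(D + a) V_a = ∑_(j≤a-2) (j+1) N_j V_a +
∑_(j≥a) (j+2) N_j V_a + a V_(a-1)`. Uniqueness by induction on `(inv w).card + a` (if it is `0`
then `w = 1`, `a = 0`, `cns 0 1 = 1` and both sides are `1`). For `a = n`: `HH n n = Ups`. -/
def S_FIN1 : Prop := ∀ (n : ℕ) (w : Equiv.Perm (Fin n)) (a : ℕ), a ≤ n → UU a w = HH a n w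

/-! ### Part U: upper bound -/

/-- Combinatorics of the restriction (`v = s w`). `q' = q`, except for `q = zs`, `α < z`, where
`q' = z`. -/
def S_UC1 : Prop := ∀ (n : ℕ) (w : Equiv.Perm (Fin n)) (a e : ℕ) (z zs : Fin n),
  Stp w a e z zs → ∀ v, v = Equiv.swap (w zs) (w z) * w → ∀ α q : Fin n, α < q → v q < v α →
  ∃ q' : Fin n, α < q' ∧ w q' < w α ∧ AA v α q ⊆ AA w α q' ∧ BB v α q ⊆ BB w α q' ∧
    cc w a (e + 1) α q' ≤ cc v a e α q

/-- Combinatorics of the kernel. If the count increases then `z ≤ α`, `a ≤ w q < e` and no `y ≤ α`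
has a value in `(w q, e)`; take `q' = zs`. -/
def S_UC2 : Prop := ∀ (n : ℕ) (w : Equiv.Perm (Fin n)) (a e : ℕ) (z zs : Fin n),
  Stp w a e z zs → ∀ α q : Fin n, α < q → w q < w α →
  cc w a (e + 1) α q ≤ cc w a e α q ∨
  ∃ q' : Fin n, α < q' ∧ w q' < w α ∧ AA w α q ⊆ AA w α q' ∧ BB w α q ⊆ BB w α q' ∧
    z ∈ AA w α q' ∧ zs ∈ BB w α q' ∧ cc w a (e + 1) α q' ≤ cc w a e α q + 1

/-- No change of the counts in the other steps. -/
def S_UC3 : Prop := ∀ (n : ℕ) (w : Equiv.Perm (Fin n)) (a e : ℕ), e < n →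
  (¬ ∃ z zs : Fin n, Stp w a e z zs) → ∀ α q : Fin n, α < q → w q < w α →
  cc w a (e + 1) α q ≤ cc w a e α q

/-- Smaller direction: `Phi A B F` is the image of `Phi A' B' F` under the coefficient homomorphism
`u_j ↦ 0` (`j ∉ A`), `v_q ↦ 0` (`q ∉ B`). -/
def S_PM : Prop := ∀ (n : ℕ) (A B A' B' : Finset (Fin n)), A ⊆ A' → B ⊆ B' → ∀ F : PR n,
  (Phi A B F).natDegree ≤ (Phi A' B' F).natDegree

/-- The restriction `y_(z,zs) ↦ 0`. -/
noncomputable def res {n : ℕ} (z zs : Fin n) : PR n →ₐ[ℚ] PR n :=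
  MvPolynomial.aeval (fun p => if p = (z, zs) then 0 else MvPolynomial.X p)

/-- The restriction maps `EE w a (e+1)` to `EE (s w) a e`. Support: `inv (s w) = inv w \ {(z,zs)}`.
Degrees: S_UC1; `Phi (AA v α q) (BB v α q) (res F)` is the image of `Phi (AA w α q') (BB w α q') F`
under the coefficient homomorphism `y_(z,zs) ↦ 0`, `u_j ↦ 0` outside `AA v α q`, `v_x ↦ 0` outside
`BB v α q` (note that `(z, zs)` is not in `AA v α q × BB v α q ⊆ inv v`). -/
def S_UR : Prop := ∀ (n : ℕ) (w : Equiv.Perm (Fin n)) (a e : ℕ) (z zs : Fin n),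
  Stp w a e z zs → ∀ v, v = Equiv.swap (w zs) (w z) * w → ∀ F ∈ EE w a (e + 1),
  res z zs F ∈ EE v a e

/-- The kernel: `F = y_(z,zs) F1`. If the count does not increase, `natDegree` of a product in
`Polynomial` over a domain. Otherwise the direction `(α, q')` of S_UC2:
`Phi (y_(z,zs)) = C y + X * C (u_z v_zs)` has degree 1, so `natDegree (Phi_(α,q') F1) + 1 ≤
cc w a (e+1) α q' ≤ cc w a e α q + 1`; S_PM. (Treat `F1 = 0` separately.) -/
def S_UK : Prop := ∀ (n : ℕ) (w : Equiv.Perm (Fin n)) (a e : ℕ) (z zs : Fin n),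
  Stp w a e z zs → ∀ F1 : PR n, MvPolynomial.X (z, zs) * F1 ∈ EE w a (e + 1) → F1 ∈ EE w a e

/-- The step. `res z zs` maps `EE w a (e+1)` to `EE v a e`, a polynomial `F` with `res z zs F = 0`
is divisible by `X (z, zs)`. Rank-nullity (with `FiniteDimensional` of kernel and range). -/
def S_US : Prop := ∀ (n : ℕ) (w : Equiv.Perm (Fin n)) (a e : ℕ) (z zs : Fin n),
  Stp w a e z zs → ∀ v, v = Equiv.swap (w zs) (w z) * w →
  FiniteDimensional ℚ (EE w a e) → FiniteDimensional ℚ (EE v a e) →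
  FiniteDimensional ℚ (EE w a (e + 1)) ∧
    Module.finrank ℚ (EE w a (e + 1)) ≤ Module.finrank ℚ (EE w a e) + Module.finrank ℚ (EE v a e)

/-- Degree zero in the direction `(α, q)` implies that the variable `(α, q)` does not occur: by
S_PM `natDegree (Phi {α} {q} F) = 0`; the ring homomorphism `T ↦ y_(α,q)`, `y_(α,q) ↦ 0`,
`u, v ↦ 1` maps `Phi {α} {q} F` to `F` and (`T`-degree `0`) `T` may be replaced by `0`: `F` is equal
to its image under `y_(α,q) ↦ 0`. -/
def S_PZ : Prop := ∀ (n : ℕ) (A B : Finset (Fin n)) (α q : Fin n) (F : PR n), α ∈ A → q ∈ B →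
  (Phi A B F).natDegree = 0 →
  F ∈ MvPolynomial.supported ℚ {p : Fin n × Fin n | p ≠ (α, q)}

/-- From `cns a w` to `w`: for `F ∈ EE (cns a w) 0 0` the variables `(0, q)` do not occur
(`cc (cns a w) 0 0 0 q = 0` and S_PZ), so `F = rename (succ, succ) F'` with `F' ∈ EE w a n`:
`cc (cns a w) 0 0 α.succ q.succ = cc w a n α q`, `(AA w α q).map succ ⊆ AA (cns a w) α.succ q.succ`
and the same for `BB`. -/
def S_UN : Prop := ∀ (n : ℕ) (a : Fin (n + 1)) (w : Equiv.Perm (Fin n)),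
  FiniteDimensional ℚ (EE w a n) → FiniteDimensional ℚ (EE (cns a w) 0 0) ∧
    Module.finrank ℚ (EE (cns a w) 0 0) ≤ Module.finrank ℚ (EE w a n)

/-- The upper bound. Induction on `n`; for all `e ≤ n` and all `w ∈ S_n` the space `EE w a e` is
finite dimensional of dimension at most `HH a e w` (`e = 0`: `EE w a 0 = EE w 0 0`; S_US, S_UC3),
then S_FIN1, S_CNS, S_UN. `n = 0`: `PR 0` is `ℚ`. -/
def S_UE : Prop := ∀ (n : ℕ) (w : Equiv.Perm (Fin n)), FiniteDimensional ℚ (EE w 0 0) ∧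
  ((Module.finrank ℚ (EE w 0 0) : ℕ) : ℚ) ≤ Ups w

/-! ### Part L: lower bound -/

/-- Laplace expansion along a block of columns, in span form: average
`det M = ∑_σ sign σ ∏_x M (σ x) x` over the substitutions `σ ↦ σ ∘ (τ₁ ⊕ τ₂)`. -/
def S_LPL : Prop := ∀ (α β R : Type) [Fintype α] [Fintype β] [DecidableEq α] [DecidableEq β]
  [CommRing R] [Algebra ℚ R] (M : Matrix (α ⊕ β) (α ⊕ β) R),
  M.det ∈ Submodule.span ℚ {x : R | ∃ (f : α → α ⊕ β) (g : β → α ⊕ β),
    x = (Matrix.of (fun a b : α => M (f a) (Sum.inl b))).det *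
      (Matrix.of (fun a b : β => M (g a) (Sum.inr b))).det}

/-- Minors with labels: zero if `c` is not injective, else reindex by the image of `c`. -/
def S_MRM : Prop := ∀ (ι R γ : Type) [DecidableEq ι] [CommRing R] [Algebra ℚ R] [Fintype γ]
  [DecidableEq γ] (Y : Matrix ι ι R) (P Q : Finset ι) (r c : γ → ι),
  (∀ x, r x ∈ P) → (∀ x, c x ∈ Q) →
  (Matrix.of (fun a b : γ => Y (r a) (c b))).det ∈ MR Y P Q

/-- Exchange lemma. For `[R2|C2]` and `[R1|C1]` (index sets `C2`, `C1`, rows `ρ2`, `ρ1`) let `D` be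
the matrix indexed by `C2 ⊕ C1` with row labels `r`, column labels `c`, `D = T + B`:
`T x b = Y (r x) (c b)` for `b ∈ C2` and for `b ∈ C1` with `c b ∈ Qb`, `0` for the other `b`;
`B x b = 0` unless `x ∈ C1` and `r x ∈ PI`, and then `B x b = - Y (r x) (c b)` for `b ∈ C2`,
`c b ∈ QI`, `B x b = Y (r x) (c b)` for `b ∈ C1`, `c b ∉ Qb` (so `c b ∈ QI`), else `0`. By the
hypotheses `D` is block triangular with diagonal blocks `Y[R2|C2]`, `Y[R1|C1]`, so `det D` is the
product. Expand `det (T + B)` over the sets `Γ` of columns taken from `B`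
(`MultilinearMap.map_add_univ`), apply S_LPL to the columns `Γ`, `Γᶜ`: the factor of `Γ` is a
determinant of `B` with rows in `PI` (or it is `0`) and column labels in `QI`, up to signs of the
columns in `MR Y PI QI` (S_MRM); the factor of `Γᶜ` is in `MR Y (P₁ ∪ P₂) (Q₂ ∪ Qb)`. -/
def S_EX : Prop := ∀ (ι R : Type) [DecidableEq ι] [CommRing R] [Algebra ℚ R]
  (Y : Matrix ι ι R) (P₁ Q₁ P₂ Q₂ PI QI Qb : Finset ι),
  (∀ r ∈ P₁, ∀ c ∈ Q₂, Y r c ≠ 0 → r ∈ PI ∧ c ∈ QI) →
  (∀ c ∈ Q₁, c ∈ QI ∨ c ∈ Qb) →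
  (∀ c ∈ QI, ∀ r ∈ P₁, r ∉ PI → Y r c = 0) →
  MR Y P₂ Q₂ * MR Y P₁ Q₁ ≤ MR Y (P₁ ∪ P₂) (Q₂ ∪ Qb) * MR Y PI QI

/-- Lemma X. S_EX with `P₂ = Q₂ = Qs w U' θ'`, `P₁ = Q₁ = Qs w U θ`, `PI = QI = Qs w U θ'`,
`Qb = Q₁`. (`Y r c ≠ 0` means `r < c`, `w c < w r`.) -/
def S_LX : Prop := ∀ (n : ℕ) (w : Equiv.Perm (Fin n)) (U U' : Finset (Fin n)) (θ θ' : ℕ),
  Up U → Up U' → U ⊆ U' → θ ≤ θ' →
  MM w (Qs w U θ) * MM w (Qs w U' θ') ≤ MM w (Qs w U' θ) * MM w (Qs w U θ')

/-- Lemma Y. `Gs w z` is `{x > z : e + 1 ≤ w x}`; `y [R2|C2] = [z ∪ R2|z_s ∪ C2]` (in the row `z`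
only the column `zs` is non zero). The column `zs` does not occur in the minors of `Qs w (Fr zs) θ`
(it is zero on the rows `≥ zs`). S_EX with `P₂ = insert z (Gs w z)`, `Q₂ = insert zs (Gs w z)`,
`P₁ = Qs w (Fr zs) θ`, `Q₁ = P₁.erase zs`, `PI = QI = (Qs w (Fr zs) e)`, `Qb = Q₁`
(`zs ∉ Qs w (Fr zs) e` because `w zs = e - 1`). -/
def S_LY : Prop := ∀ (n : ℕ) (w : Equiv.Perm (Fin n)) (a e : ℕ) (z zs : Fin n) (θ : ℕ),
  Stp w a e z zs → θ + 1 ≤ e →
  Submodule.span ℚ {(MvPolynomial.X (z, zs) : PR n)} * MM w (Gs w z) * MM w (Qs w (Fr zs) θ) ≤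
    MM w (Qs w (Fr z) θ) * MM w (Qs w (Fr zs) e)

/-- The sites of `(w, a, e + 1)` are those of `(s w, a, e)`. -/
def S_E2 : Prop := ∀ (n : ℕ) (w : Equiv.Perm (Fin n)) (a e : ℕ) (z zs : Fin n),
  Stp w a e z zs → ∀ v, v = Equiv.swap (w zs) (w z) * w → ∀ o, St w a (e + 1) o = St v a e o

/-- The sites in a step with `z < zs`. (1) values `≥ e + 1` or `< a`: no change; (2) `z`: `Gs w z`
and then empty; (3) `zs`: empty and then `Qs w (Fr zs) e`; (4) `i` with value `v`, `a ≤ v`,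
`v + 1 < e`: if `i` is not in front of all the values in `[v + 1, e)`, no change, else
`Qs w (Vs w (v+1) e) (v+1)` and then `Qs w (Fr i) (v+1)` for `z < i`; `Qs w (Fr z) (v+1)` if `i < z`
and `z` is in front of all the values in `[v + 1, e)`; (5) the new site; (6) no change if a value
in `[v + 1, e)` is in front of `z`. -/
def S_SIT : Prop := ∀ (n : ℕ) (w : Equiv.Perm (Fin n)) (a e : ℕ) (z zs : Fin n),
  Stp w a e z zs →
  (∀ i, (e < (w i).val ∨ (w i).val < a) → St w a (e + 1) (some i) = St w a e (some i)) ∧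
  (St w a e (some z) = Gs w z ∧ St w a (e + 1) (some z) = ∅) ∧
  (St w a e (some zs) = ∅ ∧ St w a (e + 1) (some zs) = Qs w (Fr zs) e) ∧
  (∀ i, a ≤ (w i).val → (w i).val + 1 < e →
    (¬ (∀ y, w i < w y → (w y).val < e → i < y) → St w a (e + 1) (some i) = St w a e (some i)) ∧
    ((∀ y, w i < w y → (w y).val < e → i < y) →
      St w a e (some i) = Qs w (Vs w ((w i).val + 1) e) ((w i).val + 1) ∧
      (z < i → St w a (e + 1) (some i) = Qs w (Fr i) ((w i).val + 1)) ∧
      (i < z → (∀ y, w i < w y → (w y).val < e → z < y) →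
        St w a (e + 1) (some i) = Qs w (Fr z) ((w i).val + 1))) ∧
    (¬ (∀ y, w i < w y → (w y).val < e → z < y) →
      St w a (e + 1) (some i) = St w a e (some i))) ∧
  (St w a e none = Qs w (Vs w a e) a ∧
    ((∀ y, a ≤ (w y).val → (w y).val < e → z < y) → St w a (e + 1) none = Qs w (Fr z) a) ∧
    (¬ (∀ y, a ≤ (w y).val → (w y).val < e → z < y) → St w a (e + 1) none = St w a e none))

/-- The chain: for `a ≤ v < e` with all the values of `[v, e)` behind `z` and all `θ ≤ v`. Downward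
induction on `v`. `v = e - 1`: S_LY (`Vs w (e-1) e = Fr zs`, `Iv w (e-1) e = {zs}`). Step from
`v + 1` to `v`, `i = pos v`: if some value of `[v+1, e)` is in front of `i` then
`Vs w v e = Vs w (v+1) e` and the site `i` is unchanged: multiply. Otherwise `Vs w v e = Fr i`,
`St w a e (some i) = Qs w (Vs w (v+1) e) (v+1)`, `St w a (e+1) (some i) = Qs w (Fr i) (v+1)`: the
statement for `v + 1` with `θ = v + 1` and then S_LX with `U = Fr i`, `U' = Fr z`,
`θ' = v + 1`. -/
def S_CH : Prop := ∀ (n : ℕ) (w : Equiv.Perm (Fin n)) (a e : ℕ) (z zs : Fin n),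
  Stp w a e z zs → ∀ v θ : ℕ, a ≤ v → v + 1 ≤ e → θ ≤ v →
  (∀ y, v ≤ (w y).val → (w y).val < e → z < y) →
  (Submodule.span ℚ {(MvPolynomial.X (z, zs) : PR n)} * MM w (Gs w z) *
    ∏ i ∈ Iv w v e, MM w (St w a e (some i))) * MM w (Qs w (Vs w v e) θ) ≤
  MM w (Qs w (Fr z) θ) * ∏ i ∈ Iv w v e, MM w (St w a (e + 1) (some i))

/-- The containment. The sites with value `> e` or `< a` do not change, `z` is taken out of the
product on the left (on the right its site is empty, `MM w ∅ = 1`). If all the values of `[a, e)`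
are behind `z`: S_CH with `v = θ = a` and the new site. Otherwise let `i` be the position with the
largest value `v0` in `[a, e)` with `i < z` (`v0 < e - 1`): S_CH with `v = θ = v0 + 1`, the site of
`i` is `Qs w (Vs w (v0+1) e) (v0+1)` and then `Qs w (Fr z) (v0+1)`; the sites of the smaller values
and the new site do not change. -/
def S_YL : Prop := ∀ (n : ℕ) (w : Equiv.Perm (Fin n)) (a e : ℕ) (z zs : Fin n),
  Stp w a e z zs →
  Submodule.span ℚ {(MvPolynomial.X (z, zs) : PR n)} * LL w a e ≤ LL w a (e + 1)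

/-- The restriction maps `LL w a (e+1)` onto `LL (s w) a e` (S_E2; `res` maps `YY w` to `YY v`,
minors to minors, `Submodule.map_mul`). -/
def S_LR : Prop := ∀ (n : ℕ) (w : Equiv.Perm (Fin n)) (a e : ℕ) (z zs : Fin n),
  Stp w a e z zs → ∀ v, v = Equiv.swap (w zs) (w z) * w →
  (LL w a (e + 1)).map (res z zs).toLinearMap = LL v a e

/-- All `LL w a e` are finite dimensional (finitely many minors). -/
def S_FD : Prop := ∀ (n : ℕ) (w : Equiv.Perm (Fin n)) (a e : ℕ),
  FiniteDimensional ℚ (LL w a e) ∧ FiniteDimensional ℚ (LLs w)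

/-- The step: rank-nullity for `res` on `LL w a (e+1)`; the kernel contains `y LL w a e`. -/
def S_LS : Prop := ∀ (n : ℕ) (w : Equiv.Perm (Fin n)) (a e : ℕ) (z zs : Fin n),
  Stp w a e z zs → ∀ v, v = Equiv.swap (w zs) (w z) * w →
  Module.finrank ℚ (LL w a e) + Module.finrank ℚ (LL v a e) ≤ Module.finrank ℚ (LL w a (e + 1))

/-- The other steps. `e < a`: the sites are the same. `e = a`, `z = pos a`: `St w a (a+1) none`
contains `Gs w z = St w a a (some z)`, and `St w a a none`, `St w a (a+1) (some z)` are empty; the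
others are unchanged. `a < e` and `zs < z`: `St w a (e+1) (some zs) = Qs w (Fr z) e` contains
`St w a e (some z) = Gs w z`, `St w a e (some zs)` and `St w a (e+1) (some z)` are empty; the others
are unchanged. -/
def S_LO : Prop := ∀ (n : ℕ) (w : Equiv.Perm (Fin n)) (a e : ℕ), e < n →
  (¬ ∃ z zs : Fin n, Stp w a e z zs) → LL w a e ≤ LL w a (e + 1)

/-- `LL w a e = LLs w` for `e ≤ a`, and `LL w a n` embeds in `LLs (cns a w)` by the injective map
`rename (succ, succ)`: `(St w a n none).map succ = Gs (cns a w) 0`,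
`(St w a n (some i)).map succ = Gs (cns a w) i.succ`. -/
def S_LN : Prop := ∀ (n : ℕ) (w : Equiv.Perm (Fin n)),
  (∀ a e : ℕ, e ≤ a → LL w a e = LLs w) ∧
  ∀ a : Fin (n + 1), Module.finrank ℚ (LL w a n) ≤ Module.finrank ℚ (LLs (cns a w))

/-- The lower bound; induction on `n` as in S_UE. `n = 0`: `LLs w = 1`. -/
def S_LE : Prop := ∀ (n : ℕ) (w : Equiv.Perm (Fin n)),
  Ups w ≤ ((Module.finrank ℚ (LLs w) : ℕ) : ℚ)

/-! ### Part M: the spaces coincide -/

/-- `det (M + T u vᵀ)` has degree at most 1 in `T`. -/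
def S_R1 : Prop := ∀ (γ R : Type) [Fintype γ] [DecidableEq γ] [CommRing R]
  (M : Matrix γ γ R) (u v : γ → R),
  (Matrix.of (fun a b => Polynomial.C (M a b) +
    Polynomial.X * Polynomial.C (u a * v b) : γ → γ → Polynomial R)).det.natDegree ≤ 1

/-- One window: degree at most 1 if `α, q` are in the window, else degree 0: if `α ∉ Gs w i` then
`α ≤ i` (no row of `AA w α q` is in the window) or `w α ≤ w i` (no column of `BB w α q` is in the
window); the same for `q`. Inside `AA × BB ⊆ inv w` the matrix `Phi (YY w)` is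
`C (YY w) + T u vᵀ`. -/
def S_M1 : Prop := ∀ (n : ℕ) (w : Equiv.Perm (Fin n)) (i α q : Fin n), α < q → w q < w α →
  ∀ F ∈ MM w (Gs w i), (Phi (AA w α q) (BB w α q) F).natDegree ≤
    if α ∈ Gs w i ∧ q ∈ Gs w i then 1 else 0

/-- `LLs w ≤ EE w 0 0`: the number of windows which contain `α` and `q` is
`#{i < α : w i < w q} = cc w 0 0 α q`. -/
def S_ME : Prop := ∀ (n : ℕ) (w : Equiv.Perm (Fin n)), LLs w ≤ EE w 0 0

/-! ### Part D: the blow-up -/

/-- `S × [k]`. -/
noncomputable def bs {n : ℕ} (k : ℕ) (S : Finset (Fin n)) : Finset (Fin (n * k)) :=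
  Finset.univ.filter (fun p => (finProdFinEquiv.symm p).1 ∈ S)

/-- `Gs w i × [k]` is contained in the windows of `(i, r)`; and the evaluation of `YY (Bl k w)`
at `Zb x z`. -/
def S_DW : Prop := ∀ (n k : ℕ) (w : Equiv.Perm (Fin n)),
  (∀ (i : Fin n) (r : Fin k), bs k (Gs w i) ⊆ Gs (Bl k w) (finProdFinEquiv (i, r))) ∧
  ∀ (x : ℚ) (z : Fin k × Fin k → Fin n × Fin n → ℚ) (j q : Fin n) (s t : Fin k),
    MvPolynomial.eval (Zb x z) (YY (Bl k w) (finProdFinEquiv (j, s)) (finProdFinEquiv (q, t))) =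
      x ^ (((s.val : ℤ) - (t.val : ℤ)) ^ 2).toNat * MvPolynomial.eval (z (s, t)) (YY w j q)

/-- One minor of the blow-up. Columns `{(q, t) : q ∈ C t}`, rows `(q, t) ↦ (ρ t q, t - c)`. At
`Zb x z` the entry in the row of `(q', t')` and the column `(q, t)` is
`x ^ (t' - c - t)^2 * M` with `M = eval (z (t' - c, t)) (YY w (ρ t' q') q)`, and
`(t' - c - t)^2 = (t' - t)^2 - 2 c t' + 2 c t + c^2`: up to conjugation by a diagonal matrix it is
`x ^ (c^2) * x ^ (t' - t)^2 * M`, so the determinant is `x ^ (c^2 d) * det (x ^ (t' - t)^2 * M)`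
(`x ≠ 0`), a polynomial in `x` whose value at `0` is the determinant of the block diagonal
matrix. -/
def S_D1 : Prop := ∀ (n k : ℕ) (w : Equiv.Perm (Fin n)) (S : Finset (Fin n)) (c : ℤ)
  (C : Fin k → Finset (Fin n)) (ρ : Fin k → Fin n → Fin n),
  (∀ t, C t ⊆ S ∧ ∀ q ∈ C t, ρ t q ∈ S) →
  (∀ t, (C t).Nonempty → 0 ≤ (t.val : ℤ) - c ∧ (t.val : ℤ) - c < k) →
  ∃ F ∈ MM (Bl k w) (bs k S), ∃ E : ℕ, ∀ z : Fin k × Fin k → Fin n × Fin n → ℚ,
    ∃ P : Polynomial ℚ, (∀ x : ℚ, x ≠ 0 → MvPolynomial.eval (Zb x z) F = x ^ E * P.eval x) ∧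
      P.eval 0 = ∏ t : Fin k, if h : 0 ≤ (t.val : ℤ) - c ∧ (t.val : ℤ) - c < k then
        MvPolynomial.eval (z (⟨((t.val : ℤ) - c).toNat, by omega⟩, t)) (mr (YY w) (C t) (ρ t))
        else 1

/-- Take a family of `N = finrank (LLs w)` linearly independent products of minors of `LLs w`, one
for each pair `(γ, t) ∈ Gam k σ`; for the window `(i, γ)` take the minor of S_D1 with `c = σ γ` and
the minors of the site `i` of the product chosen at `(γ, t)` (`C t = ∅` if `(γ, t) ∉ Gam k σ`).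
The product over `i` and `γ` is in `LLs (Bl k w)` (S_DW), its value at `Zb x z` is a power of `x`
times a polynomial in `x` whose value at `0` is the product over `(γ, t) ∈ Gam k σ` of the chosen
elements, evaluated at `z (t - σ γ, t)` (different blocks as `σ` is injective). These are linearly
independent by QE.StTens (evaluation of polynomials is injective, `MvPolynomial.funext`), so
QE.StSemi gives `x ≠ 0` for which the values are independent. -/
def S_D2 : Prop := ∀ (n k : ℕ) (w : Equiv.Perm (Fin n)) (σ : Fin k → ℤ),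
  Function.Injective σ →
  (Module.finrank ℚ (LLs w)) ^ (QE.Gam k σ).card ≤ Module.finrank ℚ (LLs (Bl k w))

/-- The theorem. `QE.XC1.card_Gam_ge`, S_LE, S_D2, S_ME, S_UE. -/
def S_THM : Prop := ∀ (n k : ℕ) (w : Equiv.Perm (Fin n)),
  Ups w ^ ((3 * k ^ 2 + 3) / 4) ≤ Ups (Bl k w)

end Pool.Agent.Work.MP_ca14f8_co.L3
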